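import Mathlib

/-!
# Iterated limits and the finite levels of the Borel hierarchy

`L n h`: the function `h` is an `n`-fold iterated pointwise limit of continuous functions.
`Sig n A`: the set `A` is of additive class `n + 1` in the Borel hierarchy (`Sig 0` : open sets).
-/

set_option autoImplicit false

open Set Topology Filter TopologicalSpace

namespace Pool.Agent.R819.BaireHier

/-- `n`-fold iterated pointwise limits of continuous functions -/
def L {X Y : Type*} [TopologicalSpace X] [TopologicalSpace Y] : ℕ → (X → Y) → Prop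
  | 0, h => Continuous h
  | n + 1, h => ∃ g : ℕ → X → Y, (∀ k, L n (g k)) ∧ ∀ x, Tendsto (fun k => g k x) atTop (𝓝 (h x))

/-- the additive classes of the Borel hierarchy, starting from the open sets -/
def Sig {X : Type*} [TopologicalSpace X] : ℕ → Set X → Prop
  | 0, A => IsOpen A
  | n + 1, A => ∃ B : ℕ → Set X, (∀ k, Sig n (B k)) ∧ A = ⋃ k, (B k)ᶜ

section L

variable {X Y Z W : Type*} [TopologicalSpace X] [TopologicalSpace Y] [TopologicalSpace Z]
  [TopologicalSpace W]

theorem L_const (n : ℕ) (c : Y) : L n (fun _ : X => c) := by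
  induction n with
  | zero => exact continuous_const
  | succ n ih => exact ⟨fun _ _ => c, fun _ => ih, fun _ => tendsto_const_nhds⟩

theorem L_succ {n : ℕ} {h : X → Y} (hh : L n h) : L (n + 1) h :=
  ⟨fun _ => h, fun _ => hh, fun _ => tendsto_const_nhds⟩

theorem L_mono {n m : ℕ} (hnm : n ≤ m) {h : X → Y} (hh : L n h) : L m h := by
  induction hnm with
  | refl => exact hh
  | step _ ih => exact L_succ ih

theorem L_comp {F : Y → Z} (hF : Continuous F) {n : ℕ} {h : X → Y} (hh : L n h) :
    L n (fun x => F (h x)) := by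
  induction n generalizing h with
  | zero => exact hF.comp hh
  | succ n ih =>
    obtain ⟨g, hg, hgh⟩ := hh
    exact ⟨fun k x => F (g k x), fun k => ih (hg k), fun x => (hF.tendsto _).comp (hgh x)⟩

theorem L_comp₂ {F : Y → Z → W} (hF : Continuous fun p : Y × Z => F p.1 p.2) {n : ℕ} {h : X → Y}
    {h' : X → Z} (hh : L n h) (hh' : L n h') : L n (fun x => F (h x) (h' x)) := by
  induction n generalizing h h' with
  | zero => exact hF.comp (Continuous.prodMk hh hh')
  | succ n ih =>
    obtain ⟨g, hg, hgh⟩ := hh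
    obtain ⟨g', hg', hgh'⟩ := hh'
    exact ⟨fun k x => F (g k x) (g' k x), fun k => ih (hg k) (hg' k),
      fun x => (hF.tendsto _).comp ((hgh x).prodMk_nhds (hgh' x))⟩

end L

section Sig

variable {X : Type*} [TopologicalSpace X]

theorem sig_iUnion {n : ℕ} {A : ℕ → Set X} (hA : ∀ k, Sig n (A k)) : Sig n (⋃ k, A k) := by
  cases n with
  | zero => exact isOpen_iUnion hA
  | succ n =>
    choose B hB hAB using hA
    refine ⟨fun k => B (Nat.unpair k).1 (Nat.unpair k).2, fun k => hB _ _, ?_⟩
    ext x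
    simp only [hAB, mem_iUnion]
    constructor
    · rintro ⟨k, l, hx⟩
      exact ⟨Nat.pair k l, by simpa using hx⟩
    · rintro ⟨k, hx⟩
      exact ⟨_, _, hx⟩

theorem sig_empty (n : ℕ) : Sig n (∅ : Set X) ∧ Sig n (univ : Set X) := by
  induction n with
  | zero => exact ⟨isOpen_empty, isOpen_univ⟩
  | succ n ih =>
    exact ⟨⟨fun _ => univ, fun _ => ih.2, by simp⟩, ⟨fun _ => ∅, fun _ => ih.1, by
      simp [iUnion_const]⟩⟩

theorem sig_union {n : ℕ} {A B : Set X} (hA : Sig n A) (hB : Sig n B) : Sig n (A ∪ B) := by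
  have h : A ∪ B = ⋃ k : ℕ, if k = 0 then A else B := by
    ext x
    simp only [mem_union, mem_iUnion]
    constructor
    · rintro (h | h)
      · exact ⟨0, by simpa using h⟩
      · exact ⟨1, by simpa using h⟩
    · rintro ⟨k, hk⟩
      split_ifs at hk
      · exact Or.inl hk
      · exact Or.inr hk
  rw [h]
  refine sig_iUnion fun k => ?_
  split_ifs
  · exact hA
  · exact hB

theorem sig_inter {n : ℕ} {A B : Set X} (hA : Sig n A) (hB : Sig n B) : Sig n (A ∩ B) := by
  cases n with
  | zero => exact IsOpen.inter hA hB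
  | succ n =>
    obtain ⟨C, hC, rfl⟩ := hA
    obtain ⟨D, hD, rfl⟩ := hB
    refine ⟨fun k => C (Nat.unpair k).1 ∪ D (Nat.unpair k).2, fun k => sig_union (hC _) (hD _), ?_⟩
    ext x
    simp only [mem_inter_iff, mem_iUnion, mem_compl_iff, mem_union, not_or]
    constructor
    · rintro ⟨⟨k, hk⟩, l, hl⟩
      exact ⟨Nat.pair k l, by simpa using ⟨hk, hl⟩⟩
    · rintro ⟨k, hk1, hk2⟩
      exact ⟨⟨_, hk1⟩, _, hk2⟩

theorem sig_biInter {ι : Type*} {n : ℕ} (s : Finset ι) {A : ι → Set X} (hA : ∀ i ∈ s, Sig n (A i)) :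
    Sig n {x | ∀ i ∈ s, x ∈ A i} := by
  classical
  induction s using Finset.induction_on with
  | empty => simpa using (sig_empty n).2
  | insert i s _ ih =>
    have h : {x | ∀ j ∈ insert i s, x ∈ A j} = A i ∩ {x | ∀ j ∈ s, x ∈ A j} := by
      ext x
      simp
    rw [h]
    exact sig_inter (hA i (Finset.mem_insert_self _ _))
      (ih fun j hj => hA j (Finset.mem_insert_of_mem hj))

theorem sig_lt {n : ℕ} {h : X → ℝ} (hh : L n h) (c : ℝ) : Sig n {x | h x < c} := by
  induction n generalizing h c with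
  | zero => exact isOpen_lt hh continuous_const
  | succ n ih =>
    obtain ⟨g, hg, hgh⟩ := hh
    have h1 : ∀ k c, Sig n {x | c < g k x} := by
      intro k c
      have h2 := ih (h := fun x => - g k x) (L_comp continuous_neg (hg k)) (-c)
      have h3 : {x | - g k x < -c} = {x | c < g k x} := by
        ext x
        exact neg_lt_neg_iff (a := g k x) (b := c)
      rwa [h3] at h2
    have h2 : {x | h x < c} = ⋃ k : ℕ,
        (⋃ i : ℕ, {x | c - 1 / ((Nat.unpair k).1 + 1 : ℝ) < g ((Nat.unpair k).2 + i) x})ᶜ := by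
      ext x
      simp only [mem_iUnion, mem_compl_iff, not_exists]
      constructor
      · intro hx
        have hx' : 0 < c - h x := sub_pos.2 hx
        obtain ⟨j, hj⟩ := exists_nat_one_div_lt hx'
        have h3 : h x < c - 1 / ((j : ℝ) + 1) := by linarith
        obtain ⟨N, hN⟩ := eventually_atTop.1 ((hgh x).eventually_lt_const h3)
        refine ⟨Nat.pair j N, fun i => ?_⟩
        have h4 := hN (N + i) (Nat.le_add_right _ _)
        simp only [Nat.unpair_pair]
        exact not_lt.2 h4.le
      · rintro ⟨k, hk⟩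
        have h3 : h x ≤ c - 1 / ((Nat.unpair k).1 + 1 : ℝ) := by
          refine le_of_tendsto (hgh x) (eventually_atTop.2 ⟨(Nat.unpair k).2, fun i hi => ?_⟩)
          have h4 := hk (i - (Nat.unpair k).2)
          rw [Nat.add_sub_of_le hi] at h4
          exact not_lt.1 h4
        have h4 : 0 < 1 / ((Nat.unpair k).1 + 1 : ℝ) := by positivity
        have h5 : h x < c := by linarith
        exact h5
    exact ⟨_, fun k => sig_iUnion fun i => h1 _ _, h2⟩

theorem sig_gt {n : ℕ} {h : X → ℝ} (hh : L n h) (c : ℝ) : Sig n {x | c < h x} := by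
  have h2 := sig_lt (h := fun x => - h x) (L_comp continuous_neg hh) (-c)
  have h3 : {x | - h x < -c} = {x | c < h x} := by
    ext x
    exact neg_lt_neg_iff (a := h x) (b := c)
  rwa [h3] at h2

open Classical in
/-- the characteristic function, with values in the unit interval -/
noncomputable def ind (A : Set X) (x : X) : unitInterval := if x ∈ A then 1 else 0

omit [TopologicalSpace X] in
theorem ind_of_mem {A : Set X} {x : X} (h : x ∈ A) : ind A x = 1 := if_pos h

omit [TopologicalSpace X] in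
theorem ind_of_notMem {A : Set X} {x : X} (h : x ∉ A) : ind A x = 0 := if_neg h

theorem L_ind [MetrizableSpace X] {n : ℕ} {A : Set X} (hA : Sig n A) : L (n + 1) (ind A) := by
  induction n generalizing A with
  | zero =>
    let _ := metrizableSpaceMetric X
    obtain ⟨F, hF, hFA, hFU, hFm⟩ := IsOpen.exists_iUnion_isClosed hA
    have h1 : ∀ k, ∃ f : C(X, ℝ), EqOn f 0 Aᶜ ∧ EqOn f 1 (F k) ∧ ∀ x, f x ∈ Icc (0 : ℝ) 1 := fun k =>
      exists_continuous_zero_one_of_isClosed (IsOpen.isClosed_compl hA) (hF k)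
        (disjoint_compl_left_iff_subset.2 (hFA k))
    choose f hf0 hf1 hf using h1
    refine ⟨fun k x => ⟨f k x, hf k x⟩, fun k => (f k).continuous.subtype_mk _, fun x => ?_⟩
    by_cases hx : x ∈ A
    · rw [← hFU] at hx
      obtain ⟨k, hk⟩ := mem_iUnion.1 hx
      refine tendsto_const_nhds.congr' (eventually_atTop.2 ⟨k, fun i hi => ?_⟩)
      have hx' : x ∈ A := hFA k hk
      have h2 : f i x = 1 := hf1 i (hFm hi hk)
      rw [ind_of_mem hx']
      exact Subtype.ext h2.symm
    · refine tendsto_const_nhds.congr fun i => ?_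
      have h2 : f i x = 0 := hf0 i hx
      rw [ind_of_notMem hx]
      exact Subtype.ext h2.symm
  | succ n ih =>
    obtain ⟨B, hB, rfl⟩ := hA
    have h0 : ∀ k, L (n + 1) (ind (⋃ i ∈ Finset.range k, (B i)ᶜ)) := by
      intro k
      induction k with
      | zero =>
        have h1 : ind (⋃ i ∈ Finset.range 0, (B i)ᶜ) = fun _ : X => (0 : unitInterval) := by
          funext x
          simp [ind]
        rw [h1]
        exact L_const _ _
      | succ k ihk =>
        have h1 : ind (⋃ i ∈ Finset.range (k + 1), (B i)ᶜ) = fun x =>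
            max (ind (⋃ i ∈ Finset.range k, (B i)ᶜ) x) (unitInterval.symm (ind (B k) x)) := by
          funext x
          rw [Finset.range_add_one, Finset.set_biUnion_insert]
          by_cases h2 : x ∈ ⋃ i ∈ Finset.range k, (B i)ᶜ
          · rw [ind_of_mem (A := (B k)ᶜ ∪ _) (Or.inr h2), ind_of_mem h2]
            exact (max_eq_left unitInterval.le_one').symm
          · by_cases h3 : x ∈ B k
            · rw [ind_of_notMem (A := (B k)ᶜ ∪ _) (by
                rintro (h | h)
                · exact h h3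
                · exact h2 h), ind_of_notMem h2, ind_of_mem h3]
              simp
            · rw [ind_of_mem (A := (B k)ᶜ ∪ _) (Or.inl h3), ind_of_notMem h2, ind_of_notMem h3]
              simp
        rw [h1]
        exact L_comp₂ (F := fun a b => max a (unitInterval.symm b))
          (continuous_fst.max (unitInterval.continuous_symm.comp continuous_snd)) ihk (ih (hB k))
    refine ⟨fun k => ind (⋃ i ∈ Finset.range k, (B i)ᶜ), h0, fun x => ?_⟩
    by_cases hx : x ∈ ⋃ k, (B k)ᶜ
    · obtain ⟨k, hk⟩ := mem_iUnion.1 hx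
      refine tendsto_const_nhds.congr' (eventually_atTop.2 ⟨k + 1, fun i hi => ?_⟩)
      rw [ind_of_mem hx]
      exact (ind_of_mem (mem_iUnion₂.2 ⟨k, by simpa using hi, hk⟩)).symm
    · refine tendsto_const_nhds.congr fun i => ?_
      rw [ind_of_notMem hx]
      refine (ind_of_notMem fun h => ?_).symm
      obtain ⟨j, _, hj⟩ := mem_iUnion₂.1 h
      exact hx (mem_iUnion.2 ⟨j, hj⟩)

end Sig

/-! ### the hierarchy is strict on the Baire space -/

/-- codes of sets, with respect to an enumeration `B` of a basis -/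
def Uni (B : ℕ → Set (ℕ → ℕ)) : ℕ → (ℕ → ℕ) → Set (ℕ → ℕ)
  | 0, a => ⋃ k, B (a k)
  | n + 1, a => ⋃ k, (Uni B n fun j => a (Nat.pair k j))ᶜ

theorem uni_sig {B : ℕ → Set (ℕ → ℕ)} (hB : ∀ k, IsOpen (B k)) (n : ℕ) {u v : (ℕ → ℕ) → (ℕ → ℕ)}
    (hu : Continuous u) (hv : Continuous v) : Sig n {x | v x ∈ Uni B n (u x)} := by
  induction n generalizing u with
  | zero =>
    have h : {x | v x ∈ Uni B 0 (u x)} = ⋃ k : ℕ, ⋃ m : ℕ, {x | u x k = m} ∩ v ⁻¹' (B m) := by
      ext x
      simp [Uni]
    rw [h]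
    refine isOpen_iUnion fun k => isOpen_iUnion fun m => IsOpen.inter ?_ ((hB m).preimage hv)
    have h1 : Continuous fun x => u x k := (continuous_apply k).comp hu
    exact (isOpen_discrete {m}).preimage h1
  | succ n ih =>
    refine ⟨fun k => {x | v x ∈ Uni B n fun j => u x (Nat.pair k j)}, fun k => ?_, ?_⟩
    · refine ih (u := fun x j => u x (Nat.pair k j)) ?_
      exact continuous_pi fun j => (continuous_apply (Nat.pair k j)).comp hu
    · ext x
      simp [Uni]

theorem exists_uni {B : ℕ → Set (ℕ → ℕ)} (hB : ∀ U : Set (ℕ → ℕ), IsOpen U →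
    ∃ a : ℕ → ℕ, U = ⋃ k, B (a k)) (n : ℕ) {A : Set (ℕ → ℕ)} (hA : Sig n A) :
    ∃ a, A = Uni B n a := by
  induction n generalizing A with
  | zero => exact hB A hA
  | succ n ih =>
    obtain ⟨C, hC, rfl⟩ := hA
    have h : ∀ k, ∃ a, C k = Uni B n a := fun k => ih (hC k)
    choose a ha using h
    refine ⟨fun i => a (Nat.unpair i).1 (Nat.unpair i).2, ?_⟩
    simp only [Uni, Nat.unpair_pair]
    exact iUnion_congr fun k => by rw [ha k]

theorem exists_base : ∃ B : ℕ → Set (ℕ → ℕ), (∀ k, IsOpen (B k)) ∧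
    ∀ U : Set (ℕ → ℕ), IsOpen U → ∃ a : ℕ → ℕ, U = ⋃ k, B (a k) := by
  obtain ⟨B, hB⟩ := ((countable_countableBasis (ℕ → ℕ)).insert ∅).exists_eq_range ⟨∅, Or.inl rfl⟩
  have hBo : ∀ k, IsOpen (B k) := by
    intro k
    have h1 : B k ∈ insert ∅ (countableBasis (ℕ → ℕ)) := by
      rw [hB]
      exact mem_range_self k
    rcases h1 with h1 | h1
    · rw [h1]
      exact isOpen_empty
    · exact isOpen_of_mem_countableBasis h1
  refine ⟨B, hBo, fun U hU => ?_⟩
  have h2 : {k | B k ⊆ U}.Nonempty := by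
    have : (∅ : Set (ℕ → ℕ)) ∈ range B := by
      rw [← hB]
      exact Or.inl rfl
    obtain ⟨k, hk⟩ := this
    refine ⟨k, ?_⟩
    rw [mem_ofPred_eq, hk]
    exact empty_subset U
  obtain ⟨a, ha⟩ := (to_countable {k | B k ⊆ U}).exists_eq_range h2
  refine ⟨a, Subset.antisymm ?_ ?_⟩
  · intro x hx
    obtain ⟨V, hV, hxV, hVU⟩ := (isBasis_countableBasis (ℕ → ℕ)).exists_subset_of_mem_open hx hU
    have h3 : V ∈ range B := by
      rw [← hB]
      exact Or.inr hV
    obtain ⟨k, rfl⟩ := h3
    have h4 : k ∈ range a := by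
      rw [← ha]
      exact hVU
    obtain ⟨i, rfl⟩ := h4
    exact mem_iUnion.2 ⟨i, hxV⟩
  · refine iUnion_subset fun i => ?_
    have h4 : a i ∈ {k | B k ⊆ U} := by
      rw [ha]
      exact mem_range_self i
    exact h4

/-- for each `n` there is a set of additive class `n + 1` whose complement is not of additive class
`n + 1` -/
theorem exists_sig_not_compl (n : ℕ) : ∃ D : Set (ℕ → ℕ), Sig n D ∧ ¬ Sig n Dᶜ := by
  obtain ⟨B, hBo, hB⟩ := exists_base
  refine ⟨{x | x ∈ Uni B n x}, uni_sig hBo n continuous_id continuous_id, fun h => ?_⟩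
  obtain ⟨a, ha⟩ := exists_uni hB n h
  have h1 : a ∈ {x | x ∈ Uni B n x}ᶜ ↔ a ∈ Uni B n a := by rw [ha]
  by_cases h2 : a ∈ Uni B n a
  · exact h1.2 h2 h2
  · exact h2 (h1.1 h2)

end Pool.Agent.R819.BaireHier
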