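import Mathlib

/-!
# Spaces of separately continuous functions with the cross-open and the cross-uniform topology

For separable `X` and `Y` every compact subspace of `S (X × Y)` with the cross-uniform topology is
metrizable, and so is every compact subspace of `S (X × Y)` with the cross-open topology if `X` and
`Y` are in addition `T₁` spaces. The reason: both topologies are finer than the topology of pointwise
convergence, and a separately continuous function is determined by its values on `D × E`, where
`D` and `E` are countable dense sets.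
-/

set_option autoImplicit false

open Set Topology Filter TopologicalSpace
open scoped ENNReal

namespace Pool.Agent.R819.Cross

section

variable {X Y : Type*} [TopologicalSpace X] [TopologicalSpace Y]

/-- separate continuity of a real function on `X × Y` -/
def SepCont (s : X × Y → ℝ) : Prop :=
  (∀ x, Continuous fun y => s (x, y)) ∧ ∀ y, Continuous fun x => s (x, y)

/-- the cross of the point `c` of `X × Y` -/
def cr (c : X × Y) : Set (X × Y) := {p | p.1 = c.1 ∨ p.2 = c.2}

variable (X Y) in
/-- the family of all sets `closure G ∩ C`, where `C` is the cross of a point and `G` is open in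
`C` -/
def Cro : Set (Set (X × Y)) :=
  {A | ∃ c : X × Y, ∃ O : Set (X × Y), IsOpen O ∧ A = closure (O ∩ cr c) ∩ cr c}

end

variable (X Y : Type*) [TopologicalSpace X] [TopologicalSpace Y]

/-- the separately continuous real functions on `X × Y`, to carry the cross-open topology -/
def Scro : Type _ := {s : X × Y → ℝ // SepCont s}

/-- the cross-open topology -/
instance : TopologicalSpace (Scro X Y) :=
  generateFrom {U | ∃ A ∈ Cro X Y, ∃ W : Set ℝ, IsOpen W ∧ U = {s | s.1 '' A ⊆ W}}

/-- the separately continuous real functions on `X × Y`, to carry the cross-uniform topology -/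
def Scru : Type _ := {s : X × Y → ℝ // SepCont s}

/-- the cross-uniform topology, generated by the open balls of the extended pseudometrics
`d_c (s, t) = sup {|s p - t p| : p ∈ cr c}` -/
instance : TopologicalSpace (Scru X Y) :=
  generateFrom {U | ∃ (s : Scru X Y) (c : X × Y) (ε : ℝ≥0∞), 0 < ε ∧
    U = {t | ⨆ p ∈ cr c, edist (s.1 p) (t.1 p) < ε}}

variable {X Y}

omit [TopologicalSpace X] [TopologicalSpace Y] in
theorem mem_cr (p : X × Y) : p ∈ cr p := Or.inl rfl

theorem eval_cru (p : X × Y) : Continuous fun s : Scru X Y => s.1 p := by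
  refine continuous_def.2 fun W hW => isOpen_iff_mem_nhds.2 fun s hs => ?_
  obtain ⟨ε, hε, hb⟩ := EMetric.isOpen_iff.1 hW (s.1 p) hs
  have ho : IsOpen {t : Scru X Y | ⨆ q ∈ cr p, edist (s.1 q) (t.1 q) < ε} :=
    isOpen_generateFrom_of_mem ⟨s, p, ε, hε, rfl⟩
  refine mem_of_superset (ho.mem_nhds ?_) ?_
  · change ⨆ q ∈ cr p, edist (s.1 q) (s.1 q) < ε
    simpa using hε
  · intro t ht
    refine hb ?_
    rw [Metric.mem_eball, edist_comm]
    exact lt_of_le_of_lt (le_iSup₂_of_le p (mem_cr p) le_rfl) ht

theorem continuousOn_cr [T1Space X] [T1Space Y] {s : X × Y → ℝ} (hs : SepCont s) (c : X × Y) :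
    ContinuousOn s (cr c) := by
  have h1 : IsClosed {p : X × Y | p.1 = c.1} := isClosed_singleton.preimage continuous_fst
  have h2 : IsClosed {p : X × Y | p.2 = c.2} := isClosed_singleton.preimage continuous_snd
  have h3 : cr c = {p : X × Y | p.1 = c.1} ∪ {p : X × Y | p.2 = c.2} := rfl
  rw [h3]
  refine ContinuousOn.union_of_isClosed ?_ ?_ h1 h2
  · refine ((hs.1 c.1).comp continuous_snd).continuousOn.congr ?_
    rintro ⟨x, y⟩ hp
    have hp' : x = c.1 := hp
    simp [hp']
  · refine ((hs.2 c.2).comp continuous_fst).continuousOn.congr ?_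
    rintro ⟨x, y⟩ hp
    have hp' : y = c.2 := hp
    simp [hp']

theorem isClosed_cr [T1Space X] [T1Space Y] (c : X × Y) : IsClosed (cr c) :=
  IsClosed.union (isClosed_singleton.preimage continuous_fst)
    (isClosed_singleton.preimage continuous_snd)

theorem eval_cro [T1Space X] [T1Space Y] (p : X × Y) :
    Continuous fun s : Scro X Y => s.1 p := by
  refine continuous_def.2 fun W hW => isOpen_iff_mem_nhds.2 fun s hs => ?_
  obtain ⟨T, hT, hTc, hTW⟩ := exists_mem_nhds_isClosed_subset (hW.mem_nhds hs)
  obtain ⟨V, hV, hVo, hVW⟩ : ∃ V : Set ℝ, s.1 p ∈ V ∧ IsOpen V ∧ closure V ⊆ W :=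
    ⟨interior T, mem_interior_iff_mem_nhds.2 hT, isOpen_interior,
      (closure_minimal interior_subset hTc).trans hTW⟩
  have hc := continuousOn_cr s.2 p
  obtain ⟨O, hO, hO2⟩ := continuousOn_iff'.1 hc V hVo
  let A : Set (X × Y) := closure (O ∩ cr p) ∩ cr p
  have hA : A ∈ Cro X Y := ⟨p, O, hO, rfl⟩
  have ho : IsOpen {t : Scro X Y | t.1 '' A ⊆ W} := isOpen_generateFrom_of_mem ⟨A, hA, W, hW, rfl⟩
  refine mem_of_superset (ho.mem_nhds ?_) ?_
  · have h1 : IsClosed (cr p ∩ s.1 ⁻¹' closure V) :=
      hc.preimage_isClosed_of_isClosed (isClosed_cr p) isClosed_closure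
    have h2 : O ∩ cr p ⊆ cr p ∩ s.1 ⁻¹' closure V := by
      rw [← hO2]
      exact fun q hq => ⟨hq.2, subset_closure hq.1⟩
    have h3 := closure_minimal h2 h1
    rintro _ ⟨q, hq, rfl⟩
    exact hVW (h3 hq.1).2
  · intro t ht
    refine ht ⟨p, ⟨subset_closure ?_, mem_cr p⟩, rfl⟩
    rw [← hO2]
    exact ⟨hV, mem_cr p⟩

theorem sep_ext {D : Set X} {E : Set Y} (hD : Dense D) (hE : Dense E) {s t : X × Y → ℝ}
    (hs : SepCont s) (ht : SepCont t) (h : ∀ x ∈ D, ∀ y ∈ E, s (x, y) = t (x, y)) : s = t := by
  have h1 : ∀ x ∈ D, ∀ y, s (x, y) = t (x, y) := fun x hx y =>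
    congrFun (Continuous.ext_on hE (hs.1 x) (ht.1 x) (fun y hy => h x hx y hy)) y
  funext ⟨x, y⟩
  exact congrFun (Continuous.ext_on hD (hs.2 y) (ht.2 y) (fun x hx => h1 x hx y)) x

/-- the general form: a compact space of separately continuous functions on a product of two
separable spaces, with a topology for which evaluations are continuous, is metrizable -/
theorem metrizable [SeparableSpace X] [SeparableSpace Y] {K : Type*} [TopologicalSpace K]
    [CompactSpace K] (e : K → X × Y → ℝ) (he : ∀ k, SepCont (e k)) (hinj : Function.Injective e)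
    (hc : ∀ p, Continuous fun k => e k p) : MetrizableSpace K := by
  obtain ⟨D, hDc, hD⟩ := exists_countable_dense X
  obtain ⟨E, hEc, hE⟩ := exists_countable_dense Y
  have : Countable D := hDc
  have : Countable E := hEc
  let Φ : K → (D × E → ℝ) := fun k q => e k (q.1, q.2)
  have h1 : Continuous Φ := continuous_pi fun q => hc _
  have h2 : Function.Injective Φ := by
    intro k l hkl
    refine hinj (sep_ext hD hE (he k) (he l) fun x hx y hy => ?_)
    exact congrFun hkl (⟨x, hx⟩, ⟨y, hy⟩)
  exact (h1.isClosedEmbedding h2).isEmbedding.metrizableSpace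

/-- every compact subspace of `S (X × Y)` with the cross-open topology is metrizable -/
theorem cro [T1Space X] [T1Space Y] [SeparableSpace X] [SeparableSpace Y] {K : Type*}
    [TopologicalSpace K] [CompactSpace K] (e : K → Scro X Y) (he : IsEmbedding e) :
    MetrizableSpace K :=
  metrizable (fun k => (e k).1) (fun k => (e k).2)
    (fun _ _ h => he.injective (Subtype.ext h)) fun p => (eval_cro p).comp he.continuous

/-- every compact subspace of `S (X × Y)` with the cross-uniform topology is metrizable -/
theorem cru [SeparableSpace X] [SeparableSpace Y] {K : Type*}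
    [TopologicalSpace K] [CompactSpace K] (e : K → Scru X Y) (he : IsEmbedding e) :
    MetrizableSpace K :=
  metrizable (fun k => (e k).1) (fun k => (e k).2)
    (fun _ _ h => he.injective (Subtype.ext h)) fun p => (eval_cru p).comp he.continuous

end Pool.Agent.R819.Cross
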