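import Pool.Agent.R819.Stair

/-!
# Diagonals of separately absolutely continuous maps: from the definition to the abstract part
-/

set_option autoImplicit false

open Set Topology Filter
open scoped ENNReal

namespace Pool.Agent.R819.Diag

/-- absolute continuity of a map from `[0,1]` to a metric space -/
def AbsCont {Z : Type*} [MetricSpace Z] (h : unitInterval → Z) : Prop :=
  ∀ ε > 0, ∃ δ > 0, ∀ (n : ℕ) (a b : Fin n → unitInterval), (∀ k, a k < b k) →
    (∀ k l, k < l → b k ≤ a l) → ∑ k, ((b k : ℝ) - a k) < δ → ∑ k, dist (h (b k)) (h (a k)) < ε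

/-- separate absolute continuity of a map from `[0,1]²` to a metric space -/
def SepAbsCont {Z : Type*} [MetricSpace Z] (f : unitInterval × unitInterval → Z) : Prop :=
  (∀ y, AbsCont fun x => f (x, y)) ∧ ∀ x, AbsCont fun y => f (x, y)

/-- `g` is absolute Baire-one -/
def AbsBaireOne {Z : Type*} [MetricSpace Z] (g : unitInterval → Z) : Prop :=
  ∃ G : ℕ → unitInterval → Z, (∀ n, Continuous (G n)) ∧
    ∀ x, Tendsto (fun n => G n x) atTop (𝓝 (g x)) ∧ Summable fun n => dist (G (n + 1) x) (G n x)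

section SV

variable {Z : Type*} [MetricSpace Z]

/-- the variation of `H` on short intervals is small -/
def SV (H : ℝ → Z) : Prop :=
  ∀ ε : ℝ, 0 < ε → ∃ δ > 0, ∀ u v : ℝ, u ≤ v → v - u < δ →
    eVariationOn H (Icc u v) ≤ ENNReal.ofReal ε

theorem sv_of_ac {h : unitInterval → Z} (hh : AbsCont h) :
    SV fun x : ℝ => h (projIcc 0 1 zero_le_one x) := by
  intro ε hε
  obtain ⟨δ, hδ, hd⟩ := hh ε hε
  refine ⟨δ, hδ, fun u v huv huvδ => ?_⟩
  let φ : ℝ → unitInterval := projIcc 0 1 zero_le_one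
  have hφ : Monotone φ := monotone_projIcc _
  have h1 : eVariationOn (h ∘ φ) (Icc u v) ≤ eVariationOn h (Icc (φ u) (φ v)) :=
    eVariationOn.comp_le_of_monotoneOn h φ (hφ.monotoneOn _)
      fun x hx => ⟨hφ hx.1, hφ hx.2⟩
  refine h1.trans ?_
  rw [eVariationOn.eVariationOn_eq_strictMonoOn]
  refine iSup_le ?_
  rintro ⟨n, w, hw, hwm⟩
  change ∑ i ∈ Finset.range n, edist (h (w (i + 1))) (h (w i)) ≤ _
  have hlen : ∑ k : Fin n, ((w (k + 1) : ℝ) - w k) < δ := by
    rw [Fin.sum_univ_eq_sum_range (fun k => ((w (k + 1) : ℝ) - w k)) n, Finset.sum_range_sub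
      (fun k => (w k : ℝ))]
    have h2 := (hwm n (mem_Iic.2 le_rfl)).2
    have h3 := (hwm 0 (mem_Iic.2 (Nat.zero_le n))).1
    have h4 : |((φ v : unitInterval) : ℝ) - φ u| ≤ |v - u| := abs_projIcc_sub_projIcc _
    have h5 := le_abs_self (((φ v : unitInterval) : ℝ) - φ u)
    rw [abs_of_nonneg (sub_nonneg.2 huv)] at h4
    have h6 : (w n : ℝ) ≤ φ v := h2
    have h7 : ((φ u : unitInterval) : ℝ) ≤ w 0 := h3
    linarith
  have h2 := hd n (fun k => w k) (fun k => w (k + 1))
    (fun k => hw (mem_Iic.2 k.2.le) (mem_Iic.2 k.2) (Nat.lt_succ_self _))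
    (fun k l hkl => hw.monotoneOn (mem_Iic.2 k.2) (mem_Iic.2 l.2.le) hkl) hlen
  have h3 : ∑ i ∈ Finset.range n, edist (h (w (i + 1))) (h (w i))
      = ENNReal.ofReal (∑ k : Fin n, dist (h (w (k + 1))) (h (w k))) := by
    rw [ENNReal.ofReal_sum_of_nonneg fun _ _ => dist_nonneg,
      Fin.sum_univ_eq_sum_range (fun k => ENNReal.ofReal (dist (h (w (k + 1))) (h (w k)))) n]
    exact Finset.sum_congr rfl fun i _ => edist_dist _ _
  rw [h3]
  exact ENNReal.ofReal_le_ofReal h2.le

theorem SV.finite {H : ℝ → Z} (hH : SV H) (u v : ℝ) : eVariationOn H (Icc u v) ≠ ∞ := by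
  obtain ⟨δ, hδ, hd⟩ := hH 1 one_pos
  have key : ∀ (k : ℕ) (u v : ℝ), v - u ≤ k * (δ / 2) → eVariationOn H (Icc u v) ≤ k := by
    intro k
    induction k with
    | zero =>
      intro u v h
      rw [Nat.cast_zero, zero_mul] at h
      rw [eVariationOn.subsingleton]
      · simp
      · intro a ha b hb
        have h1 := ha.1
        have h2 := ha.2
        have h3 := hb.1
        have h4 := hb.2
        linarith
    | succ k ih =>
      intro u v h
      rcases lt_or_ge (v - u) δ with h1 | h1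
      · rcases le_total u v with h2 | h2
        · refine (hd u v h2 h1).trans ?_
          rw [ENNReal.ofReal_one]
          push_cast
          exact le_add_self
        · refine (eVariationOn.subsingleton _ ?_).trans_le bot_le
          intro a ha b hb
          have h1 := ha.1
          have h2 := ha.2
          have h3 := hb.1
          have h4 := hb.2
          linarith
      · have h2 : eVariationOn H (Icc u (v - δ / 2)) ≤ k := by
          refine ih _ _ ?_
          push_cast at h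
          linarith
        have h3 : eVariationOn H (Icc (v - δ / 2) v) ≤ 1 := by
          have := hd (v - δ / 2) v (by linarith) (by linarith)
          rwa [ENNReal.ofReal_one] at this
        have h4 := eVariationOn.Icc_add_Icc H (s := univ) (a := u) (b := v - δ / 2) (c := v)
          (by linarith) (by linarith) (mem_univ _)
        simp only [univ_inter] at h4
        rw [← h4]
        push_cast
        exact add_le_add h2 h3
  obtain ⟨k, hk⟩ := exists_nat_gt ((v - u) / (δ / 2))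
  have h1 : v - u ≤ k * (δ / 2) := by
    rw [div_lt_iff₀ (by positivity)] at hk
    exact hk.le
  exact ((key k u v h1).trans_lt (ENNReal.natCast_lt_top k)).ne

theorem SV.lbv {H : ℝ → Z} (hH : SV H) : LocallyBoundedVariationOn H univ := by
  intro u v _ _
  rw [BoundedVariationOn, univ_inter]
  exact hH.finite u v

/-- the variation function -/
noncomputable def V (H : ℝ → Z) (u : ℝ) : ℝ := variationOnFromTo H univ 0 u

theorem V_sub {H : ℝ → Z} (hH : SV H) {u v : ℝ} (h : u ≤ v) :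
    V H v - V H u = (eVariationOn H (Icc u v)).toReal := by
  rw [V, V, variationOnFromTo.sub_right hH.lbv (mem_univ _) (mem_univ _) (mem_univ _),
    variationOnFromTo.eq_of_le _ _ h, univ_inter]

theorem V_mono {H : ℝ → Z} (hH : SV H) : Monotone (V H) := by
  intro u v h
  have := V_sub hH h
  have h1 : 0 ≤ (eVariationOn H (Icc u v)).toReal := ENNReal.toReal_nonneg
  linarith

theorem dist_le_V {H : ℝ → Z} (hH : SV H) {u v : ℝ} (h : u ≤ v) :
    dist (H u) (H v) ≤ V H v - V H u := by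
  rw [V_sub hH h, dist_edist]
  exact ENNReal.toReal_mono (hH.finite u v)
    (eVariationOn.edist_le H ⟨le_rfl, h⟩ ⟨h, le_rfl⟩)

theorem V_small {H : ℝ → Z} (hH : SV H) {ε : ℝ} (hε : 0 < ε) :
    ∃ δ > 0, ∀ u v : ℝ, u ≤ v → v - u < δ → V H v - V H u ≤ ε := by
  obtain ⟨δ, hδ, hd⟩ := hH ε hε
  refine ⟨δ, hδ, fun u v huv h => ?_⟩
  rw [V_sub hH huv]
  exact ENNReal.toReal_le_of_le_ofReal hε.le (hd u v huv h)

theorem V_cont {H : ℝ → Z} (hH : SV H) : Continuous (V H) := by
  rw [Metric.continuous_iff]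
  intro u ε hε
  obtain ⟨δ, hδ, hd⟩ := V_small hH (half_pos hε)
  refine ⟨δ, hδ, fun v hv => ?_⟩
  rw [Real.dist_eq, abs_lt] at hv
  rw [Real.dist_eq, abs_lt]
  rcases le_total u v with h | h
  · have h1 := hd u v h (by linarith)
    have h2 := V_mono hH h
    constructor <;> linarith
  · have h1 := hd v u h (by linarith)
    have h2 := V_mono hH h
    constructor <;> linarith

theorem SV.continuous {H : ℝ → Z} (hH : SV H) : Continuous H := by
  rw [Metric.continuous_iff]
  intro u ε hε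
  obtain ⟨δ, hδ, hd⟩ := V_small hH (half_pos hε)
  refine ⟨δ, hδ, fun v hv => ?_⟩
  rw [Real.dist_eq, abs_lt] at hv
  rcases le_total u v with h | h
  · have h1 := hd u v h (by linarith)
    have h2 := dist_le_V hH h
    rw [dist_comm]
    linarith
  · have h1 := hd v u h (by linarith)
    have h2 := dist_le_V hH h
    linarith

end SV

section Generic

variable {Z : Type*} [MetricSpace Z] {F : ℝ → ℝ → Z}

variable (F) in
/-- the set of all `x` such that the variation of `F x` on the open interval with centre `x` and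
radius `δ` is at most `ε` -/
def W (ε δ : ℝ) : Set ℝ := {x | eVariationOn (F x) (Ioo (x - δ) (x + δ)) ≤ ENNReal.ofReal ε}

theorem W_closed (hF : ∀ y, Continuous fun x => F x y) (ε δ : ℝ) : IsClosed (W F ε δ) := by
  rw [← isOpen_compl_iff, isOpen_iff_mem_nhds]
  intro x hx
  have h1 : ENNReal.ofReal ε < eVariationOn (F x) (Ioo (x - δ) (x + δ)) := not_le.1 hx
  rw [eVariationOn, lt_iSup_iff] at h1
  obtain ⟨⟨n, w, hw, hwm⟩, h2⟩ := h1
  have h3 : Continuous fun z => ∑ i ∈ Finset.range n, edist (F z (w (i + 1))) (F z (w i)) :=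
    continuous_finsetSum _ fun i _ => (hF _).edist (hF _)
  have h4 : ∀ᶠ z in 𝓝 x, ENNReal.ofReal ε
      < ∑ i ∈ Finset.range n, edist (F z (w (i + 1))) (F z (w i)) :=
    h3.continuousAt.eventually (lt_mem_nhds h2)
  have h5 : ∀ᶠ z in 𝓝 x, ∀ i ∈ Finset.range (n + 1), w i ∈ Ioo (z - δ) (z + δ) := by
    rw [Filter.eventually_all_finset]
    intro i _
    have h6 : IsOpen {z : ℝ | w i ∈ Ioo (z - δ) (z + δ)} := by
      have h7 : {z : ℝ | w i ∈ Ioo (z - δ) (z + δ)} = Ioo (w i - δ) (w i + δ) := by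
        ext z
        simp only [mem_ofPred_eq, mem_Ioo]
        constructor
        · rintro ⟨h8, h9⟩
          constructor <;> linarith
        · rintro ⟨h8, h9⟩
          constructor <;> linarith
      rw [h7]
      exact isOpen_Ioo
    exact h6.mem_nhds (hwm i)
  filter_upwards [h4, h5] with z hz1 hz2
  refine not_le.2 (hz1.trans_le ?_)
  exact eVariationOn.sum_le_of_monotoneOn_Iic (hw.monotoneOn _) fun i hi =>
    hz2 i (Finset.mem_range.2 (Nat.lt_succ_of_le hi))

theorem W_cover (hF : ∀ x, SV (F x)) {ε : ℝ} (hε : 0 < ε) :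
    ⋃ j : ℕ, W F ε (1 / ((j : ℝ) + 1)) = univ := by
  refine eq_univ_of_forall fun x => ?_
  obtain ⟨δ, hδ, hd⟩ := hF x ε hε
  obtain ⟨j, hj⟩ := exists_nat_one_div_lt (show 0 < δ / 2 by positivity)
  refine mem_iUnion.2 ⟨j, ?_⟩
  have h0 : (0 : ℝ) < 1 / ((j : ℝ) + 1) := by positivity
  exact (eVariationOn.mono _ Ioo_subset_Icc_self).trans (hd _ _ (by linarith) (by linarith))

/-- the generic points form a dense set -/
theorem exists_dense (hF1 : ∀ y, Continuous fun x => F x y) (hF2 : ∀ x, SV (F x)) :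
    ∃ D : Set ℝ, Dense D ∧ ∀ t ∈ D, ∀ k : ℕ, ∃ R > 0, ∀ x, t ≤ x → x ≤ t + R →
      V (F x) x - V (F x) t ≤ (1 / 2) ^ k := by
  let D : Set ℝ := ⋂ k : ℕ, ⋃ j : ℕ, interior (W F ((1 / 2) ^ k) (1 / ((j : ℝ) + 1)))
  refine ⟨D, ?_, ?_⟩
  · refine dense_iInter_of_isOpen (fun k => isOpen_iUnion fun j => isOpen_interior) fun k => ?_
    exact dense_iUnion_interior_of_closed (fun j => W_closed hF1 _ _)
      (W_cover hF2 (by positivity))
  · intro t ht k
    obtain ⟨j, hj⟩ := mem_iUnion.1 (mem_iInter.1 ht k)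
    obtain ⟨η, hη, hηW⟩ := Metric.isOpen_iff.1 isOpen_interior t hj
    have h0 : (0 : ℝ) < 1 / ((j : ℝ) + 1) := by positivity
    refine ⟨min (η / 2) (1 / ((j : ℝ) + 1) / 2), by positivity, fun x hx1 hx2 => ?_⟩
    have h1 : x - t ≤ η / 2 := by
      have := min_le_left (η / 2) (1 / ((j : ℝ) + 1) / 2)
      linarith
    have h2 : x - t ≤ 1 / ((j : ℝ) + 1) / 2 := by
      have := min_le_right (η / 2) (1 / ((j : ℝ) + 1) / 2)
      linarith
    have h3 : x ∈ W F ((1 / 2) ^ k) (1 / ((j : ℝ) + 1)) := by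
      refine interior_subset (hηW ?_)
      rw [Metric.mem_ball, Real.dist_eq, abs_of_nonneg (by linarith)]
      linarith
    rw [V_sub (hF2 x) hx1]
    refine ENNReal.toReal_le_of_le_ofReal (by positivity) (le_trans ?_ h3)
    refine eVariationOn.mono _ fun z hz => ⟨?_, ?_⟩
    · have := hz.1
      linarith
    · have := hz.2
      linarith

end Generic

/-- auxiliary sequence of radii -/
theorem exists_radii (r : ℕ → ℝ) (e : ℕ → ℕ → ℝ) (hr : ∀ n, 0 < r n) (he : ∀ i j, 0 < e i j) :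
    ∃ ρ : ℕ → ℝ, (∀ n, 0 < ρ n) ∧ Antitone ρ ∧ (∀ n, ρ n ≤ r n) ∧
      ∀ n, ∀ i ≤ n, ∀ j ≤ n, ρ n ≤ e i j := by
  have hne : ∀ n, (Finset.range (n + 1)).Nonempty := fun n => ⟨0, by simp⟩
  have hne2 : ∀ n, (Finset.range (n + 1) ×ˢ Finset.range (n + 1)).Nonempty := fun n =>
    ⟨(0, 0), by simp⟩
  refine ⟨fun n => min ((Finset.range (n + 1)).inf' (hne n) r)
    ((Finset.range (n + 1) ×ˢ Finset.range (n + 1)).inf' (hne2 n) fun p => e p.1 p.2), ?_, ?_, ?_, ?_⟩
  · intro n
    refine lt_min ?_ ?_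
    · rw [Finset.lt_inf'_iff]
      exact fun i _ => hr i
    · rw [Finset.lt_inf'_iff]
      exact fun i _ => he _ _
  · intro m n hmn
    have h1 : Finset.range (m + 1) ⊆ Finset.range (n + 1) :=
      Finset.range_subset_range.2 (Nat.succ_le_succ hmn)
    refine min_le_min ?_ ?_
    · exact Finset.inf'_mono _ h1 (hne m)
    · exact Finset.inf'_mono _ (Finset.product_subset_product h1 h1) (hne2 m)
  · intro n
    exact (min_le_left _ _).trans (Finset.inf'_le _ (Finset.self_mem_range_succ n))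
  · intro n i hi j hj
    refine (min_le_right _ _).trans ?_
    exact Finset.inf'_le (fun p : ℕ × ℕ => e p.1 p.2) (b := (i, j))
      (Finset.mem_product.2 ⟨Finset.mem_range.2 (Nat.lt_succ_of_le hi),
        Finset.mem_range.2 (Nat.lt_succ_of_le hj)⟩)

theorem exists_gap (t : ℕ → ℝ) : ∃ e : ℕ → ℕ → ℝ, (∀ i j, 0 < e i j) ∧
    ∀ i j, t i < t j → e i j ≤ t j - t i := by
  have h : ∀ i j, ∃ c : ℝ, 0 < c ∧ (t i < t j → c ≤ t j - t i) := by
    intro i j
    by_cases h : t i < t j
    · exact ⟨t j - t i, sub_pos.2 h, fun _ => le_rfl⟩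
    · exact ⟨1, one_pos, fun h' => absurd h' h⟩
  choose e he1 he2 using h
  exact ⟨e, he1, he2⟩

/-- the main result in terms of functions on the plane -/
theorem main {Z : Type*} [MetricSpace Z] {F : ℝ → ℝ → Z} (hF1 : ∀ y, SV fun x => F x y)
    (hF2 : ∀ x, SV (F x)) : ∃ G : ℕ → ℝ → Z, ∀ x, 0 ≤ x → (∀ n, ContinuousAt (G n) x) ∧
      Tendsto (fun n => G n x) atTop (𝓝 (F x x)) ∧ Summable fun n => dist (G n x) (G (n + 1) x) := by
  obtain ⟨D, hD, hDg⟩ := exists_dense (fun y => (hF1 y).continuous) hF2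
  obtain ⟨p, hpI, hpD⟩ := hD.inter_open_nonempty (Ioo (-1 : ℝ) 0) isOpen_Ioo
    ⟨-1 / 2, by norm_num, by norm_num⟩
  obtain ⟨T, hTD, hTc, hT⟩ := hD.exists_countable_dense_subset
  have hTp : (T ∩ Ioi p).Nonempty := by
    obtain ⟨z, hz1, hz2⟩ := hT.inter_open_nonempty (Ioi p) isOpen_Ioi ⟨p + 1, by simp⟩
    exact ⟨z, hz2, hz1⟩
  obtain ⟨g, hg⟩ := (hTc.mono inter_subset_left).exists_eq_range hTp
  let t : ℕ → ℝ := fun i => Nat.casesOn i p g
  have ht0 : t 0 = p := rfl
  have hgm : ∀ i, g i ∈ T ∩ Ioi p := fun i => by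
    rw [hg]
    exact ⟨i, rfl⟩
  have htD : ∀ i, t i ∈ D := by
    intro i
    cases i with
    | zero => exact hpD
    | succ i => exact hTD (hgm i).1
  have ht : ∀ i, t 0 ≤ t i := by
    intro i
    cases i with
    | zero => exact le_rfl
    | succ i => exact (hgm i).2.le
  have hd : ∀ x y, t 0 ≤ x → x < y → ∃ i, x < t i ∧ t i < y := by
    intro x y hx hxy
    obtain ⟨z, hz1, hz2⟩ := hT.inter_open_nonempty (Ioo x y) isOpen_Ioo
      ⟨(x + y) / 2, by constructor <;> linarith⟩
    have h1 : z ∈ T ∩ Ioi p := ⟨hz2, lt_of_le_of_lt hx hz1.1⟩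
    rw [hg] at h1
    obtain ⟨i, hi⟩ := h1
    refine ⟨i + 1, ?_⟩
    change x < g i ∧ g i < y
    rw [hi]
    exact hz1
  choose R hR hRs using fun i => hDg (t i) (htD i) i
  have hS : ∀ i : ℕ, ∃ δ > 0, ∀ u v : ℝ, u ≤ v → v - u < δ →
      V (fun x => F x (t i)) v - V (fun x => F x (t i)) u ≤ (1 / 2) ^ i := fun i =>
    V_small (hF1 (t i)) (by positivity)
  choose S hS hSs using hS
  obtain ⟨e, he, het⟩ := exists_gap t
  obtain ⟨ρ, hρ, hρa, hρr, hρe⟩ := exists_radii (fun i => min (R i) (S i / 2)) e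
    (fun i => lt_min (hR i) (half_pos (hS i))) he
  have hgap : ∀ n, ∀ i ≤ n, ∀ j ≤ n, t i < t j → ρ n ≤ t j - t i := by
    intro n i hi j hj h
    exact (hρe n i hi j hj).trans (het i j h)
  have h2 : ∀ i x, t i ≤ x → x ≤ t i + ρ i → V (F x) x - V (F x) (t i) ≤ (1 / 2) ^ i := by
    intro i x h1 h2
    refine hRs i x h1 (h2.trans ?_)
    have := (hρr i).trans (min_le_left _ _)
    linarith
  have h3 : ∀ i, V (fun x => F x (t i)) (t i + ρ i) - V (fun x => F x (t i)) (t i)
      ≤ (1 / 2) ^ i := by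
    intro i
    refine hSs i _ _ (by have := hρ i; linarith) ?_
    have := (hρr i).trans (min_le_right _ _)
    have := hS i
    linarith
  have A1 : ∀ x, Monotone (V (F x)) := fun x => V_mono (hF2 x)
  have A2 : ∀ x, Continuous (V (F x)) := fun x => V_cont (hF2 x)
  have A3 : ∀ x u v, u ≤ v → dist (F x u) (F x v) ≤ V (F x) v - V (F x) u :=
    fun x u v h => dist_le_V (hF2 x) h
  have B1 : ∀ y, Monotone (V fun x => F x y) := fun y => V_mono (hF1 y)
  have B2 : ∀ y, Continuous (V fun x => F x y) := fun y => V_cont (hF1 y)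
  have B3 : ∀ y u v, u ≤ v → dist (F u y) (F v y) ≤ V (fun x => F x y) v - V (fun x => F x y) u :=
    fun y u v h => dist_le_V (hF1 y) h
  refine ⟨Stair.G F t ρ, fun x hx => ?_⟩
  have hx0 : t 0 < x := lt_of_lt_of_le hpI.2 hx
  refine ⟨fun n => ?_, ?_, ?_⟩
  · exact Stair.continuousAt_G (α := fun x => V (F x)) (β := fun y => V fun x => F x y)
      A1 A2 A3 B1 B2 B3 ht hρ hgap n hx0
  · exact Stair.tendsto_G (α := fun x => V (F x)) (β := fun y => V fun x => F x y)
      A1 A2 A3 B1 B3 ht hρ hρa h2 h3 hd hx0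
  · exact Stair.summable_G (α := fun x => V (F x)) (β := fun y => V fun x => F x y)
      A1 A3 B1 B3 ht hρ hρa h2 h3 hx0

end Pool.Agent.R819.Diag
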