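import Mathlib

/-!
# A metric fan with a convergent sequence attached to each of its nonzero points

The underlying set of the space `X` consists of a point `o`, points `y n b` and points `s n b m`,
where `n`, `m` are natural numbers and `b` is an injective sequence of real numbers. The points
`s n b m` are isolated, the points `s n b m` converge to `y n b` for `m → ∞`, and a neighbourhood
of `o` contains all points `y n b` with large `n`.
-/

set_option autoImplicit false

open Set Topology Filter TopologicalSpace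

namespace Pool.Agent.R819.Fan

/-- `N` is a k-network of `X` -/
def IsKNetwork {X : Type*} [TopologicalSpace X] (N : Set (Set X)) : Prop :=
  ∀ K U : Set X, IsCompact K → IsOpen U → K ⊆ U →
    ∃ F : Set (Set X), F.Finite ∧ F ⊆ N ∧ K ⊆ ⋃₀ F ∧ ⋃₀ F ⊆ U

/-- the family `N` of sets is a countable union of locally finite families -/
def SigmaLocallyFinite {X : Type*} [TopologicalSpace X] (N : Set (Set X)) : Prop :=
  ∃ M : ℕ → Set (Set X), N = ⋃ n, M n ∧ ∀ n, LocallyFinite fun A : M n => (A : Set X)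

/-- `X` is an `ℵ`-space: a regular Hausdorff space with a `σ`-locally finite k-network -/
def AlephSpace (X : Type*) [TopologicalSpace X] : Prop :=
  T3Space X ∧ ∃ N : Set (Set X), IsKNetwork N ∧ SigmaLocallyFinite N

/-- `X` is an Ascoli space: each compact set of continuous real functions (in the compact-open
topology) is evenly continuous -/
def Ascoli (X : Type*) [TopologicalSpace X] : Prop :=
  ∀ K : Set C(X, ℝ), IsCompact K → Continuous fun p : K × X => (p.1 : C(X, ℝ)) p.2

/-- the injective sequences of real numbers -/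
abbrev B : Type := ℕ ↪ ℝ

/-- the underlying set of the space -/
inductive X : Type
  | o : X
  | y : ℕ → B → X
  | s : ℕ → B → ℕ → X

open X

instance : TopologicalSpace X where
  IsOpen U := (o ∈ U → ∃ k, ∀ n, k ≤ n → ∀ b, y n b ∈ U) ∧
    ∀ n b, y n b ∈ U → ∃ k, ∀ m, k ≤ m → s n b m ∈ U
  isOpen_univ := ⟨fun _ => ⟨0, fun _ _ _ => trivial⟩, fun _ _ _ => ⟨0, fun _ _ => trivial⟩⟩
  isOpen_inter := by
    rintro U V ⟨hU1, hU2⟩ ⟨hV1, hV2⟩
    constructor
    · rintro ⟨h1, h2⟩
      obtain ⟨k, hk⟩ := hU1 h1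
      obtain ⟨l, hl⟩ := hV1 h2
      exact ⟨max k l, fun n hn b => ⟨hk n (le_trans (le_max_left _ _) hn) b,
        hl n (le_trans (le_max_right _ _) hn) b⟩⟩
    · rintro n b ⟨h1, h2⟩
      obtain ⟨k, hk⟩ := hU2 n b h1
      obtain ⟨l, hl⟩ := hV2 n b h2
      exact ⟨max k l, fun m hm => ⟨hk m (le_trans (le_max_left _ _) hm),
        hl m (le_trans (le_max_right _ _) hm)⟩⟩
  isOpen_sUnion := by
    intro S hS
    constructor
    · rintro ⟨U, hU, h⟩
      obtain ⟨k, hk⟩ := (hS U hU).1 h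
      exact ⟨k, fun n hn b => ⟨U, hU, hk n hn b⟩⟩
    · rintro n b ⟨U, hU, h⟩
      obtain ⟨k, hk⟩ := (hS U hU).2 n b h
      exact ⟨k, fun m hm => ⟨U, hU, hk m hm⟩⟩

theorem isOpen_X {U : Set X} : IsOpen U ↔ (o ∈ U → ∃ k, ∀ n, k ≤ n → ∀ b, y n b ∈ U) ∧
    ∀ n b, y n b ∈ U → ∃ k, ∀ m, k ≤ m → s n b m ∈ U := Iff.rfl

/-- the column of `(n, b)` from `k` on -/
def T (n : ℕ) (b : B) (k : ℕ) : Set X := insert (y n b) {x | ∃ m, k ≤ m ∧ x = s n b m}

theorem T_open (n : ℕ) (b : B) (k : ℕ) : IsOpen (T n b k) := by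
  constructor
  · rintro (h | ⟨m, _, h⟩) <;> cases h
  · rintro n' b' (h | ⟨m, _, h⟩)
    · cases h
      exact ⟨k, fun m hm => Or.inr ⟨m, hm, rfl⟩⟩
    · cases h

theorem T_closed (n : ℕ) (b : B) (k : ℕ) : IsClosed (T n b k) := by
  constructor
  constructor
  · intro _
    refine ⟨n + 1, fun n' hn' b' => ?_⟩
    rintro (h | ⟨m, _, h⟩)
    · cases h
      omega
    · cases h
  · intro n' b' h1
    refine ⟨0, fun m _ => ?_⟩
    rintro (h | ⟨m', _, h⟩)
    · cases h
    · cases h
      exact h1 (Or.inl rfl)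

theorem s_open (n : ℕ) (b : B) (m : ℕ) : IsOpen ({s n b m} : Set X) := by
  constructor
  · intro h
    cases h
  · intro n' b' h
    cases h

theorem s_closed (n : ℕ) (b : B) (m : ℕ) : IsClosed ({s n b m} : Set X) := by
  constructor
  constructor
  · intro _
    exact ⟨0, fun n' _ b' h => by cases h⟩
  · intro n' b' _
    refine ⟨m + 1, fun m' hm' h => ?_⟩
    have h1 : s n' b' m' = s n b m := h
    injection h1 with _ _ h2
    omega

/-- the basic clopen neighbourhoods of `o` -/
def W (k : ℕ) (φ : ℕ → B → ℕ) : Set X :=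
  {x | match x with
    | o => True
    | y n _ => k ≤ n
    | s n b m => k ≤ n ∧ φ n b ≤ m}

theorem W_open (k : ℕ) (φ : ℕ → B → ℕ) : IsOpen (W k φ) := by
  constructor
  · intro _
    exact ⟨k, fun n hn _ => hn⟩
  · intro n b hn
    exact ⟨φ n b, fun m hm => ⟨hn, hm⟩⟩

theorem W_closed (k : ℕ) (φ : ℕ → B → ℕ) : IsClosed (W k φ) := by
  constructor
  constructor
  · intro h
    exact absurd trivial h
  · intro n b hn
    exact ⟨0, fun m _ h => hn h.1⟩

theorem exists_W {U : Set X} (hU : IsOpen U) (h : o ∈ U) : ∃ k φ, W k φ ⊆ U := by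
  obtain ⟨k, hk⟩ := hU.1 h
  have h1 : ∀ n b, ∃ l, k ≤ n → ∀ m, l ≤ m → s n b m ∈ U := by
    intro n b
    by_cases hn : k ≤ n
    · obtain ⟨l, hl⟩ := hU.2 n b (hk n hn b)
      exact ⟨l, fun _ => hl⟩
    · exact ⟨0, fun h => absurd h hn⟩
  choose φ hφ using h1
  refine ⟨k, φ, fun x hx => ?_⟩
  cases x with
  | o => exact h
  | y n b => exact hk n hx b
  | s n b m => exact hφ n b hx.1 m hx.2

theorem exists_nhd {U : Set X} (hU : IsOpen U) {x : X} (hx : x ∈ U) :
    ∃ V : Set X, IsOpen V ∧ IsClosed V ∧ x ∈ V ∧ V ⊆ U := by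
  cases x with
  | o =>
    obtain ⟨k, φ, h⟩ := exists_W hU hx
    exact ⟨_, W_open k φ, W_closed k φ, trivial, h⟩
  | y n b =>
    obtain ⟨k, hk⟩ := hU.2 n b hx
    refine ⟨_, T_open n b k, T_closed n b k, Or.inl rfl, ?_⟩
    rintro z (rfl | ⟨m, hm, rfl⟩)
    · exact hx
    · exact hk m hm
  | s n b m => exact ⟨_, s_open n b m, s_closed n b m, rfl, singleton_subset_iff.2 hx⟩

instance : RegularSpace X := by
  refine RegularSpace.of_exists_mem_nhds_isClosed_subset fun x u hu => ?_
  obtain ⟨U, hUu, hU, hx⟩ := mem_nhds_iff.1 hu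
  obtain ⟨V, hV, hVc, hxV, hVU⟩ := exists_nhd hU hx
  exact ⟨V, hV.mem_nhds hxV, hVc, hVU.trans hUu⟩

theorem y_closed (n : ℕ) (b : B) : IsClosed ({y n b} : Set X) := by
  constructor
  constructor
  · intro _
    refine ⟨n + 1, fun n' hn' b' h => ?_⟩
    have h1 : y n' b' = y n b := h
    injection h1 with h2 _
    omega
  · intro n' b' _
    exact ⟨0, fun m _ h => by cases h⟩

theorem o_closed : IsClosed ({o} : Set X) := by
  constructor
  constructor
  · intro h
    exact absurd rfl h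
  · intro n b _
    exact ⟨0, fun m _ h => by cases h⟩

instance : T1Space X := by
  refine ⟨fun x => ?_⟩
  cases x with
  | o => exact o_closed
  | y n b => exact y_closed n b
  | s n b m => exact s_closed n b m

instance : T3Space X := {}

/-! ### The k-network -/

/-- the set consisting of `o` and all `y n b` with `k ≤ n` -/
def Y (k : ℕ) : Set X := insert o {x | ∃ n b, k ≤ n ∧ x = y n b}

/-- the locally finite families which form the k-network -/
def M (i : ℕ × ℕ × ℕ) : Set (Set X) :=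
  match i.1 with
  | 0 => {Y i.2.1}
  | 1 => range fun b => {y i.2.1 b}
  | 2 => range fun b => {s i.2.1 b i.2.2}
  | _ => range fun b => T i.2.1 b i.2.2

theorem lf_range (n : ℕ) (A : B → Set X) (hA : ∀ b, A b ⊆ T n b 0) :
    LocallyFinite fun S : range A => (S : Set X) := by
  have h : LocallyFinite A := by
    intro x
    have key : ∀ (n' : ℕ) (b' : B), {b | (A b ∩ T n' b' 0).Nonempty}.Finite := by
      intro n' b'
      refine (finite_singleton b').subset ?_
      rintro b ⟨z, hz1, hz2⟩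
      have h1 := hA b hz1
      rcases h1 with rfl | ⟨m, _, rfl⟩
      · rcases hz2 with h | ⟨_, _, h⟩ <;> cases h
        rfl
      · rcases hz2 with h | ⟨_, _, h⟩ <;> cases h
        rfl
    cases x with
    | o =>
      refine ⟨W (n + 1) (fun _ _ => 0), (W_open _ _).mem_nhds trivial, ?_⟩
      convert finite_empty
      ext b
      simp only [mem_ofPred_eq, mem_empty_iff_false, iff_false, not_nonempty_iff_eq_empty]
      ext z
      simp only [mem_inter_iff, mem_empty_iff_false, iff_false, not_and]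
      intro hz1 hz2
      rcases hA b hz1 with rfl | ⟨m, _, rfl⟩
      · have h1 : n + 1 ≤ n := hz2
        omega
      · have h1 : n + 1 ≤ n := hz2.1
        omega
    | y n' b' => exact ⟨T n' b' 0, (T_open _ _ _).mem_nhds (Or.inl rfl), key n' b'⟩
    | s n' b' m' =>
      exact ⟨T n' b' 0, (T_open _ _ _).mem_nhds (Or.inr ⟨m', Nat.zero_le _, rfl⟩), key n' b'⟩
  exact LocallyFinite.of_comp_surjective (g := rangeFactorization A) rangeFactorization_surjective h

theorem T_anti (n : ℕ) (b : B) {k l : ℕ} (h : k ≤ l) : T n b l ⊆ T n b k := by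
  rintro z (rfl | ⟨m, hm, rfl⟩)
  · exact Or.inl rfl
  · exact Or.inr ⟨m, h.trans hm, rfl⟩

theorem lf_M (i : ℕ × ℕ × ℕ) : LocallyFinite fun A : M i => (A : Set X) := by
  obtain ⟨t, n, k⟩ := i
  have h1 : ∀ b : B, ({y n b} : Set X) ⊆ T n b 0 := by
    rintro b z rfl
    exact Or.inl rfl
  have h2 : ∀ b : B, ({s n b k} : Set X) ⊆ T n b 0 := by
    rintro b z rfl
    exact Or.inr ⟨k, Nat.zero_le _, rfl⟩
  match t with
  | 0 =>
    have : Finite (M (0, n, k)) := (finite_singleton (Y n)).to_subtype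
    exact locallyFinite_of_finite _
  | 1 => exact lf_range n _ h1
  | 2 => exact lf_range n _ h2
  | (t + 3) => exact lf_range n _ fun b => T_anti n b (Nat.zero_le k)

theorem compact_finite {K D : Set X} (hK : IsCompact K) (hDK : D ⊆ K)
    (hD : ∀ E ⊆ D, IsClosed E) : D.Finite := by
  refine (hK.of_isClosed_subset (hD D subset_rfl) hDK).finite ?_
  rw [isDiscrete_iff_discreteTopology, discreteTopology_iff_isOpen_singleton]
  rintro ⟨d, hd⟩
  have h1 : IsClosed (D \ {d}) := hD _ sdiff_subset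
  have h2 : ({⟨d, hd⟩} : Set D) = Subtype.val ⁻¹' (D \ {d})ᶜ := by
    ext ⟨z, hz⟩
    simp
  rw [h2]
  exact h1.isOpen_compl.preimage continuous_subtype_val

theorem knet : IsKNetwork (⋃ i, M i) := by
  intro K U hK hU hKU
  have hKc : IsOpen Kᶜ := hK.isClosed.isOpen_compl
  -- the columns which meet `K` outside `y n b`
  let Z : Set (ℕ × B) := {p | ∃ m, s p.1 p.2 m ∈ K}
  have hZ : Z.Finite := by
    have h1 : ∀ p : Z, ∃ m, s p.1.1 p.1.2 m ∈ K := fun p => p.2
    choose m hm using h1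
    let D : Set X := range fun p : Z => s p.1.1 p.1.2 (m p)
    have hD : D.Finite := by
      refine compact_finite hK ?_ ?_
      · rintro _ ⟨p, rfl⟩
        exact hm p
      · intro E hE
        constructor
        constructor
        · intro _
          refine ⟨0, fun n _ b h => ?_⟩
          obtain ⟨p, hp⟩ := hE h
          cases hp
        · intro n b _
          by_cases hp : (n, b) ∈ Z
          · refine ⟨m ⟨(n, b), hp⟩ + 1, fun l hl h => ?_⟩
            obtain ⟨q, hq⟩ := hE h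
            have h2 : s q.1.1 q.1.2 (m q) = s n b l := hq
            injection h2 with h3 h4 h5
            have h6 : q = ⟨(n, b), hp⟩ := Subtype.ext (Prod.ext h3 h4)
            rw [h6] at h5
            omega
          · refine ⟨0, fun l _ h => ?_⟩
            obtain ⟨q, hq⟩ := hE h
            have h2 : s q.1.1 q.1.2 (m q) = s n b l := hq
            injection h2 with h3 h4 h5
            refine hp ?_
            have h6 : q.1 = (n, b) := Prod.ext h3 h4
            rw [← h6]
            exact q.2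
    have hinj : Function.Injective fun p : Z => s p.1.1 p.1.2 (m p) := by
      intro p q h
      have h2 : s p.1.1 p.1.2 (m p) = s q.1.1 q.1.2 (m q) := h
      injection h2 with h3 h4 _
      exact Subtype.ext (Prod.ext h3 h4)
    have h3 : Finite (range fun p : Z => s p.1.1 p.1.2 (m p)) := hD.to_subtype
    exact Set.finite_coe_iff.1 (Finite.of_injective_finite_range hinj)
  -- the part of `K` in these columns
  let C : Set X := ⋃ p ∈ Z, T p.1 p.2 0
  have hC : IsClosed C := hZ.isClosed_biUnion fun p _ => T_closed _ _ _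
  have hKC : IsCompact (K ∩ C) := hK.inter_right hC
  have hloc : ∀ x ∈ K ∩ C, ∃ V ∈ (⋃ i, M i), V ∈ 𝓝 x ∧ V ⊆ U := by
    rintro x ⟨hxK, hxC⟩
    have hxU := hKU hxK
    cases x with
    | o =>
      obtain ⟨p, _, hp⟩ := mem_iUnion₂.1 hxC
      rcases hp with h | ⟨_, _, h⟩ <;> cases h
    | y n b =>
      obtain ⟨k, hk⟩ := hU.2 n b hxU
      refine ⟨T n b k, mem_iUnion.2 ⟨(3, n, k), ⟨b, rfl⟩⟩, (T_open n b k).mem_nhds (Or.inl rfl), ?_⟩
      rintro z (rfl | ⟨m, hm, rfl⟩)
      · exact hxU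
      · exact hk m hm
    | s n b m =>
      exact ⟨{s n b m}, mem_iUnion.2 ⟨(2, n, m), ⟨b, rfl⟩⟩, (s_open n b m).mem_nhds rfl,
        singleton_subset_iff.2 hxU⟩
  choose! V hVM hVn hVU using hloc
  obtain ⟨t, ht, htc⟩ := hKC.elim_nhds_subcover V hVn
  -- the other part of `K`
  obtain ⟨k, G, hG, hGM, hGU, hGK⟩ : ∃ (k : ℕ) (G : Set (Set X)), G.Finite ∧ G ⊆ (⋃ i, M i) ∧
      ⋃₀ G ⊆ U ∧ ∀ x ∈ K, x = o ∨ (∃ n b, k ≤ n ∧ x = y n b) → x ∈ ⋃₀ G := by
    by_cases ho : o ∈ U
    · obtain ⟨k, hk⟩ := hU.1 ho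
      refine ⟨k, {Y k}, finite_singleton _, ?_, ?_, ?_⟩
      · rintro _ rfl
        exact mem_iUnion.2 ⟨(0, k, 0), rfl⟩
      · rw [sUnion_singleton]
        rintro z (rfl | ⟨n, b, hn, rfl⟩)
        · exact ho
        · exact hk n hn b
      · rw [sUnion_singleton]
        rintro x _ (rfl | h)
        · exact Or.inl rfl
        · exact Or.inr h
    · obtain ⟨k, hk⟩ := hKc.1 (fun h => ho (hKU h))
      refine ⟨k, ∅, finite_empty, empty_subset _, by simp, ?_⟩
      rintro x hx (rfl | ⟨n, b, hn, rfl⟩)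
      · exact absurd (hKU hx) ho
      · exact absurd hx (hk n hn b)
  have hfin : {x | x ∈ K ∧ ∃ n b, n < k ∧ x = y n b}.Finite := by
    refine compact_finite hK (fun x hx => hx.1) ?_
    intro E hE
    constructor
    constructor
    · intro _
      refine ⟨k, fun n hn b h => ?_⟩
      obtain ⟨_, n', b', hn', h2⟩ := hE h
      injection h2 with h3 _
      omega
    · intro n b _
      refine ⟨0, fun m _ h => ?_⟩
      obtain ⟨_, n', b', hn', h2⟩ := hE h
      cases h2
  let H : Set (Set X) := (fun x => ({x} : Set X)) '' {x | x ∈ K ∧ ∃ n b, n < k ∧ x = y n b}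
  refine ⟨G ∪ H ∪ V '' (t : Set X), (hG.union (hfin.image _)).union (t.finite_toSet.image _), ?_, ?_, ?_⟩
  · refine union_subset (union_subset hGM ?_) ?_
    · rintro _ ⟨x, ⟨_, n, b, _, rfl⟩, rfl⟩
      exact mem_iUnion.2 ⟨(1, n, 0), ⟨b, rfl⟩⟩
    · rintro _ ⟨x, hx, rfl⟩
      exact hVM x (ht x hx)
  · intro x hx
    rw [sUnion_union, sUnion_union]
    have hcase : (x = o ∨ (∃ n b, k ≤ n ∧ x = y n b)) ∨ (∃ n b, n < k ∧ x = y n b) ∨ x ∈ C := by
      cases x with
      | o => exact Or.inl (Or.inl rfl)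
      | y n b =>
        rcases lt_or_ge n k with h | h
        · exact Or.inr (Or.inl ⟨n, b, h, rfl⟩)
        · exact Or.inl (Or.inr ⟨n, b, h, rfl⟩)
      | s n b m =>
        refine Or.inr (Or.inr (mem_iUnion₂.2 ⟨(n, b), ⟨m, hx⟩, Or.inr ⟨m, Nat.zero_le _, rfl⟩⟩))
    rcases hcase with h | h | h
    · exact Or.inl (Or.inl (hGK x hx h))
    · exact Or.inl (Or.inr ⟨{x}, ⟨x, ⟨hx, h⟩, rfl⟩, rfl⟩)
    · obtain ⟨z, hz, hxz⟩ := mem_iUnion₂.1 (htc ⟨hx, h⟩)
      exact Or.inr ⟨V z, ⟨z, hz, rfl⟩, hxz⟩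
  · rw [sUnion_union, sUnion_union]
    refine union_subset (union_subset hGU ?_) ?_
    · rintro x ⟨_, ⟨z, ⟨hz, _⟩, rfl⟩, hx⟩
      have : x = z := hx
      rw [this]
      exact hKU hz
    · rintro x ⟨_, ⟨z, hz, rfl⟩, hx⟩
      exact hVU z (ht z hz) hx

theorem alephSpace : AlephSpace X := by
  refine ⟨inferInstance, _, knet, ?_⟩
  obtain ⟨f, hf⟩ := exists_surjective_nat (ℕ × ℕ × ℕ)
  exact ⟨fun n => M (f n), (hf.iUnion_comp M).symm, fun n => lf_M (f n)⟩

end Pool.Agent.R819.Fan
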