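import Pool.Agent.R819.Fan

/-!
# The fan with attached sequences is an Ascoli space and is no `C[M]`-space
-/

set_option autoImplicit false

open Set Topology Filter TopologicalSpace

namespace Pool.Agent.R819.Fan

open X

/-! ### Ascoli -/

/-- a compact set of continuous functions is equicontinuous along convergent sequences -/
theorem seq_equi {K : Set C(X, ℝ)} (hK : IsCompact K) {z : ℕ → X} {x : X}
    (hz : Tendsto z atTop (𝓝 x)) {ε : ℝ} (hε : 0 < ε) :
    ∀ᶠ k in atTop, ∀ h ∈ K, dist (h (z k)) (h x) < ε := by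
  let C : Set X := insert x (range z)
  have hC : IsCompact C := hz.isCompact_insert_range
  have : CompactSpace C := isCompact_iff_compactSpace.1 hC
  have hr : Continuous fun h : C(X, ℝ) => h.restrict C := ContinuousMap.continuous_restrict C
  have he : Continuous fun p : C × C(X, ℝ) => p.2.restrict C p.1 := by
    have h1 : Continuous fun p : C × C(X, ℝ) => (p.2.restrict C, p.1) :=
      (hr.comp continuous_snd).prodMk continuous_fst
    exact (continuous_eval (F := C(C, ℝ))).comp h1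
  let xC : C := ⟨x, Or.inl rfl⟩
  have h2 : ∀ᶠ c in 𝓝 xC, ∀ h ∈ K, dist (h.restrict C c) (h.restrict C xC) < ε := by
    refine hK.eventually_forall_of_forall_eventually fun h _ => ?_
    have h3 : Continuous fun p : C × C(X, ℝ) => dist (p.2.restrict C p.1) (p.2.restrict C xC) := by
      refine he.dist ?_
      exact he.comp (continuous_const.prodMk continuous_snd)
    have h4 := h3.tendsto (xC, h)
    simp only [dist_self] at h4
    exact h4.eventually (gt_mem_nhds hε)
  have h5 : Tendsto (fun k => (⟨z k, Or.inr ⟨k, rfl⟩⟩ : C)) atTop (𝓝 xC) :=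
    tendsto_subtype_rng.2 hz
  exact h5.eventually h2

theorem tendsto_s (n : ℕ) (b : B) : Tendsto (fun m => s n b m) atTop (𝓝 (y n b)) := by
  rw [tendsto_nhds]
  intro U hU hx
  obtain ⟨k, hk⟩ := hU.2 n b hx
  exact mem_atTop_sets.2 ⟨k, hk⟩

theorem tendsto_y {n : ℕ → ℕ} {b : ℕ → B} (hn : ∀ k, k ≤ n k) :
    Tendsto (fun k => y (n k) (b k)) atTop (𝓝 o) := by
  rw [tendsto_nhds]
  intro U hU hx
  obtain ⟨k, hk⟩ := hU.1 hx
  exact mem_atTop_sets.2 ⟨k, fun l hl => hk _ (hl.trans (hn l)) _⟩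

theorem equi {K : Set C(X, ℝ)} (hK : IsCompact K) (x : X) {ε : ℝ} (hε : 0 < ε) :
    ∀ᶠ z in 𝓝 x, ∀ h ∈ K, dist (h z) (h x) < ε := by
  have hy : ∀ (n : ℕ) (b : B) {δ : ℝ}, 0 < δ → ∃ k, ∀ m, k ≤ m → ∀ h ∈ K,
      dist (h (s n b m)) (h (y n b)) < δ := fun n b δ hδ =>
    eventually_atTop.1 (seq_equi hK (tendsto_s n b) hδ)
  cases x with
  | o =>
    have h1 : ∃ k, ∀ n, k ≤ n → ∀ b : B, ∀ h ∈ K, dist (h (y n b)) (h o) < ε / 2 := by
      by_contra hcon
      push Not at hcon
      choose n hn b h hh hd using hcon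
      obtain ⟨k, hk⟩ := (seq_equi hK (tendsto_y (b := b) hn) (half_pos hε)).exists
      exact absurd (hk (h k) (hh k)) (not_lt.2 (hd k))
    obtain ⟨k, hk⟩ := h1
    choose φ hφ using fun (n : ℕ) (b : B) => hy n b (half_pos hε)
    filter_upwards [(W_open k φ).mem_nhds trivial] with z hz h hh
    cases z with
    | o =>
      rw [dist_self]
      exact hε
    | y n b => exact (hk n hz b h hh).trans (half_lt_self hε)
    | s n b m =>
      calc dist (h (s n b m)) (h o) ≤ dist (h (s n b m)) (h (y n b)) + dist (h (y n b)) (h o) :=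
            dist_triangle _ _ _
        _ < ε / 2 + ε / 2 := add_lt_add (hφ n b m hz.2 h hh) (hk n hz.1 b h hh)
        _ = ε := add_halves ε
  | y n b =>
    obtain ⟨k, hk⟩ := hy n b hε
    filter_upwards [(T_open n b k).mem_nhds (Or.inl rfl)] with z hz h hh
    rcases hz with rfl | ⟨m, hm, rfl⟩
    · rw [dist_self]
      exact hε
    · exact hk m hm h hh
  | s n b m =>
    filter_upwards [(s_open n b m).mem_nhds rfl] with z hz h hh
    have h1 : z = s n b m := hz
    rw [h1, dist_self]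
    exact hε

theorem ascoli : Ascoli X := by
  intro K hK
  rw [continuous_iff_continuousAt]
  rintro ⟨f, x⟩
  rw [ContinuousAt, Metric.tendsto_nhds]
  intro ε hε
  have h1 := equi hK x (half_pos hε)
  have h2 : ∀ᶠ h : K in 𝓝 f, dist ((h : C(X, ℝ)) x) ((f : C(X, ℝ)) x) < ε / 2 := by
    have h3 : Continuous fun h : K => (h : C(X, ℝ)) x :=
      (continuous_eval_const x).comp continuous_subtype_val
    exact (Metric.tendsto_nhds.1 (h3.tendsto f)) _ (half_pos hε)
  rw [nhds_prod_eq]
  filter_upwards [h2.prod_mk h1] with p hp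
  calc dist ((p.1 : C(X, ℝ)) p.2) ((f : C(X, ℝ)) x)
      ≤ dist ((p.1 : C(X, ℝ)) p.2) ((p.1 : C(X, ℝ)) x) + dist ((p.1 : C(X, ℝ)) x) ((f : C(X, ℝ)) x) :=
        dist_triangle _ _ _
    _ < ε / 2 + ε / 2 := add_lt_add (hp.2 p.1 p.1.2) hp.1
    _ = ε := add_halves ε

/-! ### Compact subsets of separable metrizable spaces -/

section Sep

variable {Z : Type*} [TopologicalSpace Z] [SecondCountableTopology Z]

/-- the countably many open sets which are finite unions of basic sets -/
def bu (F : Finset (countableBasis Z)) : Set Z := ⋃ V ∈ F, (V : Set Z)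

theorem bu_open (F : Finset (countableBasis Z)) : IsOpen (bu F) :=
  isOpen_biUnion fun V _ => isOpen_of_mem_countableBasis V.2

theorem exists_bu {K U : Set Z} (hK : IsCompact K) (hU : IsOpen U) (hKU : K ⊆ U) :
    ∃ F : Finset (countableBasis Z), K ⊆ bu F ∧ bu F ⊆ U := by
  classical
  have h1 : ∀ x ∈ K, ∃ V : countableBasis Z, x ∈ (V : Set Z) ∧ (V : Set Z) ⊆ U := by
    intro x hx
    obtain ⟨V, hV, hxV, hVU⟩ := (isBasis_countableBasis Z).exists_subset_of_mem_open (hKU hx) hU
    exact ⟨⟨V, hV⟩, hxV, hVU⟩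
  by_cases hne : K.Nonempty
  · have hne' : Nonempty (countableBasis Z) := by
      obtain ⟨x, hx⟩ := hne
      obtain ⟨V, _⟩ := h1 x hx
      exact ⟨V⟩
    choose! V hV hVU using h1
    obtain ⟨t, ht, htK⟩ := hK.elim_nhds_subcover (fun x => (V x : Set Z)) fun x hx =>
      (isOpen_of_mem_countableBasis (V x).2).mem_nhds (hV x hx)
    refine ⟨t.image V, fun x hx => ?_, ?_⟩
    · obtain ⟨z, hz, hxz⟩ := mem_iUnion₂.1 (htK hx)
      exact mem_iUnion₂.2 ⟨V z, Finset.mem_image_of_mem V hz, hxz⟩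
    · refine iUnion₂_subset fun v hv => ?_
      obtain ⟨z, hz, rfl⟩ := Finset.mem_image.1 hv
      exact hVU z (ht z hz)
  · rw [not_nonempty_iff_eq_empty] at hne
    refine ⟨∅, ?_, ?_⟩
    · rw [hne]
      exact empty_subset _
    · simp [bu]

/-- among uncountably many compact sets there is an injective sequence with relatively compact
union -/
theorem exists_seq {A : Type*} (S : Set A) (hS : ¬ S.Countable) (K : A → Set Z)
    (hK : ∀ a, IsCompact (K a)) :
    ∃ f : ℕ → A, Function.Injective f ∧ (∀ n, f n ∈ S) ∧ ∃ C, IsCompact C ∧ ∀ n, K (f n) ⊆ C := by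
  classical
  -- a point of condensation
  let E : Finset (Finset (countableBasis Z)) → Set A := fun J => {a | a ∈ S ∧ ∀ F ∈ J, K a ⊆ bu F}
  have h1 : ∃ a ∈ S, ∀ J, a ∈ E J → ¬ (E J).Countable := by
    by_contra hcon
    push Not at hcon
    refine hS ?_
    have h2 : S ⊆ ⋃ J ∈ {J | (E J).Countable}, E J := by
      intro a ha
      obtain ⟨J, hJ, hc⟩ := hcon a ha
      exact mem_biUnion hc hJ
    exact ((Set.to_countable {J | (E J).Countable}).biUnion fun J hJ => hJ).mono h2
  obtain ⟨a, haS, ha⟩ := h1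
  obtain ⟨F₀, hF₀, _⟩ := exists_bu (hK a) isOpen_univ (subset_univ _)
  let Fs : Set (Finset (countableBasis Z)) := {F | K a ⊆ bu F}
  obtain ⟨g, hg⟩ := (Set.to_countable Fs).exists_eq_range ⟨F₀, hF₀⟩
  let J : ℕ → Finset (Finset (countableBasis Z)) := fun n => (Finset.range (n + 1)).image g
  have hJ : ∀ n, a ∈ E (J n) := by
    intro n
    refine ⟨haS, fun F hF => ?_⟩
    obtain ⟨i, _, rfl⟩ := Finset.mem_image.1 hF
    have : g i ∈ Fs := by
      rw [hg]
      exact ⟨i, rfl⟩
    exact this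
  have hinf : ∀ n, (E (J n)).Infinite := fun n h => ha _ (hJ n) h.countable
  obtain ⟨f, hf1, hf2⟩ := exists_seq_of_forall_finset_exists (α := ℕ × A)
    (fun p => p.2 ∈ E (J p.1)) (fun p q => p.1 < q.1 ∧ p.2 ≠ q.2) (by
      intro t _
      obtain ⟨b, hb1, hb2⟩ := (hinf (t.sup Prod.fst + 1)).exists_notMem_finset (t.image Prod.snd)
      refine ⟨(t.sup Prod.fst + 1, b), hb1, fun p hp => ⟨?_, ?_⟩⟩
      · exact Nat.lt_succ_of_le (Finset.le_sup (f := Prod.fst) hp)
      · intro h
        exact hb2 (Finset.mem_image.2 ⟨p, hp, h⟩))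
  have hmono : ∀ n, n ≤ (f n).1 := by
    intro n
    induction n with
    | zero => exact Nat.zero_le _
    | succ n ih => exact lt_of_le_of_lt ih (hf2 n (n + 1) (Nat.lt_succ_self n)).1
  refine ⟨fun n => (f n).2, ?_, fun n => (hf1 n).1, K a ∪ ⋃ n, K (f n).2, ?_,
    fun n => (subset_iUnion (fun n => K (f n).2) n).trans subset_union_right⟩
  · intro m n hmn
    by_contra hne
    rcases lt_or_gt_of_ne hne with h | h
    · exact (hf2 m n h).2 hmn
    · exact (hf2 n m h).2 hmn.symm
  · rw [isCompact_iff_finite_subcover]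
    intro ι U hU hcov
    obtain ⟨t, ht⟩ := (hK a).elim_finite_subcover U hU (subset_union_left.trans hcov)
    obtain ⟨F, hF1, hF2⟩ := exists_bu (hK a) (isOpen_biUnion fun i (_ : i ∈ t) => hU i) ht
    have hFs : F ∈ Fs := hF1
    rw [hg] at hFs
    obtain ⟨i, rfl⟩ := hFs
    have h3 : ∀ n, i ≤ n → K (f n).2 ⊆ ⋃ j ∈ t, U j := by
      intro n hn
      refine ((hf1 n).2 (g i) ?_).trans hF2
      exact Finset.mem_image.2 ⟨i, Finset.mem_range.2 (by have := hmono n; omega), rfl⟩
    have h4 : IsCompact (⋃ n ∈ Finset.range i, K (f n).2) :=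
      (Finset.range i).isCompact_biUnion fun n _ => hK _
    obtain ⟨t', ht'⟩ := h4.elim_finite_subcover U hU (by
      refine Subset.trans ?_ hcov
      refine iUnion₂_subset fun n _ => ?_
      exact (subset_iUnion (fun n => K (f n).2) n).trans subset_union_right)
    refine ⟨t ∪ t', ?_⟩
    rw [Finset.set_biUnion_union]
    refine union_subset (ht.trans subset_union_left) (iUnion_subset fun n => ?_)
    rcases lt_or_ge n i with h | h
    · refine Subset.trans ?_ (ht'.trans subset_union_right)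
      exact subset_biUnion_of_mem (u := fun n => K (f n).2) (Finset.mem_coe.2 (Finset.mem_range.2 h))
    · exact (h3 n h).trans subset_union_left

end Sep

/-! ### The space is no `C[M]`-space -/

/-- the neighbourhoods of `o` -/
def U (a : ℝ) : Set X :=
  {x | match x with
    | o => True
    | y _ _ => True
    | s _ b m => ∀ j, b j = a → j < m}

theorem U_open (a : ℝ) : IsOpen (U a) := by
  constructor
  · intro _
    exact ⟨0, fun _ _ _ => trivial⟩
  · intro n b _
    by_cases h : ∃ j, b j = a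
    · obtain ⟨j, hj⟩ := h
      refine ⟨j + 1, fun m hm i hi => ?_⟩
      have h1 : i = j := b.injective (hi.trans hj.symm)
      omega
    · exact ⟨0, fun m _ j hj => absurd ⟨j, hj⟩ h⟩

theorem no_embedding {Z Y : Type*} [TopologicalSpace Z] [SecondCountableTopology Z]
    [TopologicalSpace Y] [MetrizableSpace Y] (e : X → C(Z, Y)) (he : IsEmbedding e) : False := by
  let _ := metrizableSpaceMetric Y
  have h1 : ∀ a : ℝ, ∃ (n : ℕ) (K : Set Z), IsCompact K ∧
      ∀ x : X, (∀ z ∈ K, dist (e o z) (e x z) < 1 / ((n : ℝ) + 1)) → x ∈ U a := by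
    intro a
    have h2 : U a ∈ 𝓝 o := (U_open a).mem_nhds trivial
    rw [he.nhds_eq_comap, mem_comap] at h2
    obtain ⟨V, hV, hVU⟩ := h2
    have hb := ContinuousMap.hasBasis_compactConvergenceUniformity (α := Z) (β := Y)
    obtain ⟨⟨K, D⟩, ⟨hK, hD⟩, hKD⟩ := (nhds_basis_uniformity' hb).mem_iff.1 hV
    obtain ⟨ε, hε, hεD⟩ := Metric.mem_uniformity_dist.1 hD
    obtain ⟨n, hn⟩ := exists_nat_one_div_lt hε
    refine ⟨n, K, hK, fun x hx => hVU (hKD ?_)⟩
    intro z hz
    exact hεD (lt_trans (hx z hz) hn)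
  choose N K hK hU using h1
  have h3 : ∃ n, ¬ {a : ℝ | N a = n}.Countable := by
    by_contra hcon
    push Not at hcon
    have h4 : (univ : Set ℝ) ⊆ ⋃ n, {a : ℝ | N a = n} := fun a _ => mem_iUnion.2 ⟨N a, rfl⟩
    exact Set.not_countable_univ ((countable_iUnion hcon).mono h4)
  obtain ⟨n, hn⟩ := h3
  obtain ⟨f, hfi, hfS, C, hC, hKC⟩ := exists_seq _ hn K hK
  let b : B := ⟨f, hfi⟩
  -- a neighbourhood of `o` which is contained in all `U (f j)`
  let V : Set X := {x | ∀ z ∈ C, dist (e o z) (e x z) < 1 / ((n : ℝ) + 1)}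
  have hV : V ∈ 𝓝 o := by
    rw [he.nhds_eq_comap, mem_comap]
    refine ⟨{g | ∀ z ∈ C, dist (e o z) (g z) < 1 / ((n : ℝ) + 1)}, ?_, fun x hx => hx⟩
    have hb := ContinuousMap.hasBasis_compactConvergenceUniformity (α := Z) (β := Y)
    exact (nhds_basis_uniformity' hb).mem_of_mem (i := (C, {p | dist p.1 p.2 < 1 / ((n : ℝ) + 1)}))
      ⟨hC, Metric.dist_mem_uniformity (by positivity)⟩
  have hVU : ∀ j, V ⊆ U (f j) := by
    intro j x hx
    refine hU (f j) x fun z hz => ?_
    have h5 : N (f j) = n := hfS j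
    rw [h5]
    exact hx z (hKC j hz)
  obtain ⟨O, hOV, hO, hoO⟩ := mem_nhds_iff.1 hV
  obtain ⟨k, hk⟩ := hO.1 hoO
  obtain ⟨l, hl⟩ := hO.2 k b (hk k le_rfl b)
  have h6 : s k b l ∈ U (f l) := hVU l (hOV (hl l le_rfl))
  have h7 : l < l := h6 l rfl
  exact lt_irrefl _ h7

end Pool.Agent.R819.Fan
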