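import Mathlib

/-!
Free topological vector spaces: general facts used for the results on the levels `sp_n(X)`.
-/

namespace Pool.Agent.R819.FreeTVS

open TopologicalSpace Filter Topology Set

/-- `Z` is a k-space: a set is closed as soon as its trace on every compact set `K` is closed
in `K`. -/
def KSpace (Z : Type) [TopologicalSpace Z] : Prop :=
  ∀ C : Set Z, (∀ K : Set Z, IsCompact K → IsClosed ((fun z : K => (z : Z)) ⁻¹' C)) → IsClosed C

/-- `Z` is a `k_ω`-space: `Z` is the union of countably many compact sets `K n`, and a set is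
closed as soon as its trace on every `K n` is closed in `K n`. -/
def KOmegaSpace (Z : Type) [TopologicalSpace Z] : Prop :=
  ∃ K : ℕ → Set Z, (∀ n, IsCompact (K n)) ∧ (⋃ n, K n) = univ ∧
    ∀ C : Set Z, (∀ n, IsClosed ((fun z : K n => (z : Z)) ⁻¹' C)) → IsClosed C

/-- `(V, i)` is a free (Hausdorff, real) topological vector space over the space `X`. -/
structure IsFreeTVS {X V : Type} [TopologicalSpace X] [AddCommGroup V] [Module ℝ V]
    [TopologicalSpace V] (i : X → V) : Prop where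
  t2 : T2Space V
  grp : IsTopologicalAddGroup V
  smul : ContinuousSMul ℝ V
  cont : Continuous i
  lift : ∀ (E : Type) [AddCommGroup E] [Module ℝ E] [TopologicalSpace E]
    [IsTopologicalAddGroup E] [ContinuousSMul ℝ E] [T2Space E] (f : X → E), Continuous f →
    ∃! F : V →L[ℝ] E, ∀ x, F (i x) = f x

/-- The level `sp_n(X)`: all sums `∑_{j < n} c_j • i(x_j)` with `|c_j| ≤ n` and `x_j ∈ X`. -/
def sp {X V : Type} [AddCommGroup V] [Module ℝ V] (i : X → V) (n : ℕ) : Set V :=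
  {v | ∃ (c : Fin n → ℝ) (x : Fin n → X), (∀ j, |c j| ≤ n) ∧ v = ∑ j, c j • i (x j)}

/-- Sums of `n` terms with coefficients bounded by `r` and points of `K`. -/
def Cn {X V : Type} [AddCommGroup V] [Module ℝ V] (i : X → V) (n : ℕ) (r : ℝ) (K : Set X) :
    Set V :=
  {v | ∃ (c : Fin n → ℝ) (x : Fin n → X), (∀ j, |c j| ≤ r) ∧ (∀ j, x j ∈ K) ∧
    v = ∑ j, c j • i (x j)}

section basic

variable {X V : Type} [TopologicalSpace X] [AddCommGroup V] [Module ℝ V] [TopologicalSpace V]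
  {i : X → V}

lemma exists_functional (h : IsFreeTVS i) (f : X → ℝ) (hf : Continuous f) :
    ∃ F : V →L[ℝ] ℝ, ∀ x, F (i x) = f x :=
  (h.lift ℝ f hf).exists

lemma span_eq_top (h : IsFreeTVS i) : Submodule.span ℝ (range i) = ⊤ := by
  have := h.t2
  have := h.grp
  have := h.smul
  let S : Submodule ℝ V := Submodule.span ℝ (range i)
  let j : X → S := fun x => ⟨i x, Submodule.subset_span ⟨x, rfl⟩⟩
  have hj : Continuous j := h.cont.subtype_mk _
  obtain ⟨F, hF, -⟩ := h.lift S j hj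
  obtain ⟨G, hG, hGu⟩ := h.lift V i h.cont
  have h1 : S.subtypeL.comp F = G := by
    apply hGu
    intro x
    simp only [ContinuousLinearMap.comp_apply]
    rw [hF x]
    rfl
  have h2 : ContinuousLinearMap.id ℝ V = G := by
    apply hGu
    intro x
    rfl
  rw [eq_top_iff]
  intro v _
  have h3 : (S.subtypeL.comp F) v = v := by
    rw [h1, ← h2]
    rfl
  rw [← h3]
  exact (F v).2

lemma linearIndependent [T35Space X] (h : IsFreeTVS i) : LinearIndependent ℝ i := by
  classical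
  rw [linearIndependent_iff']
  intro s g hg x hx
  have hcl : IsClosed ((s.erase x : Finset X) : Set X) := (s.erase x).finite_toSet.isClosed
  have hxn : x ∉ ((s.erase x : Finset X) : Set X) := by simp
  obtain ⟨f, hf, hfx, hfs⟩ := CompletelyRegularSpace.completely_regular x _ hcl hxn
  obtain ⟨F, hF⟩ := exists_functional h (fun y => 1 - (f y : ℝ)) (by fun_prop)
  have h1 : F (∑ y ∈ s, g y • i y) = 0 := by rw [hg]; simp
  rw [map_sum] at h1
  simp only [map_smul, hF, smul_eq_mul] at h1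
  rw [Finset.sum_eq_single x] at h1
  · rw [hfx] at h1
    simpa using h1
  · intro y hy hyx
    have : f y = 1 := hfs (by simp [hy, hyx])
    rw [this]
    simp
  · intro h'
    exact absurd hx h'

end basic

section Cn

variable {X V : Type} [AddCommGroup V] [Module ℝ V] {i : X → V}

lemma Cn_mono {n n' : ℕ} {r r' : ℝ} {K K' : Set X} (hn : n ≤ n') (hr : r ≤ r') (hr' : 0 ≤ r')
    (hK : K ⊆ K') (hne : K'.Nonempty) : Cn i n r K ⊆ Cn i n' r' K' := by
  rintro v ⟨c, x, hc, hx, rfl⟩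
  obtain ⟨d, rfl⟩ := Nat.exists_eq_add_of_le hn
  obtain ⟨x0, hx0⟩ := hne
  refine ⟨Fin.append c (fun _ => 0), Fin.append x (fun _ => x0), ?_, ?_, ?_⟩
  · intro j
    refine Fin.addCases (fun j => ?_) (fun j => ?_) j
    · rw [Fin.append_left]
      exact (hc j).trans hr
    · rw [Fin.append_right]
      simpa using hr'
  · intro j
    refine Fin.addCases (fun j => ?_) (fun j => ?_) j
    · rw [Fin.append_left]
      exact hK (hx j)
    · rw [Fin.append_right]
      exact hx0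
  · rw [Fin.sum_univ_add]
    simp

lemma Cn_add {n n' : ℕ} {r : ℝ} {K : Set X} {v w : V} (hv : v ∈ Cn i n r K)
    (hw : w ∈ Cn i n' r K) : v + w ∈ Cn i (n + n') r K := by
  obtain ⟨c, x, hc, hx, rfl⟩ := hv
  obtain ⟨c', x', hc', hx', rfl⟩ := hw
  refine ⟨Fin.append c c', Fin.append x x', ?_, ?_, ?_⟩
  · intro j
    refine Fin.addCases (fun j => ?_) (fun j => ?_) j
    · rw [Fin.append_left]
      exact hc j
    · rw [Fin.append_right]
      exact hc' j
  · intro j
    refine Fin.addCases (fun j => ?_) (fun j => ?_) j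
    · rw [Fin.append_left]
      exact hx j
    · rw [Fin.append_right]
      exact hx' j
  · rw [Fin.sum_univ_add]
    simp

lemma Cn_smul {n : ℕ} {r s t : ℝ} {K : Set X} {v : V} (hv : v ∈ Cn i n r K)
    (hs : |t| ≤ s) (hr : 0 ≤ r) : t • v ∈ Cn i n (s * r) K := by
  obtain ⟨c, x, hc, hx, rfl⟩ := hv
  refine ⟨fun j => t * c j, x, ?_, hx, ?_⟩
  · intro j
    rw [abs_mul]
    exact mul_le_mul hs (hc j) (abs_nonneg _) ((abs_nonneg t).trans hs)
  · rw [Finset.smul_sum]
    simp [mul_smul]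

lemma Cn_compact [TopologicalSpace X] [TopologicalSpace V] [ContinuousAdd V]
    [ContinuousSMul ℝ V] (hi : Continuous i) (n : ℕ) (r : ℝ) {K : Set X} (hK : IsCompact K) :
    IsCompact (Cn i n r K) := by
  have h1 : IsCompact ((Set.pi univ (fun _ : Fin n => Icc (-r) r)) ×ˢ
      (Set.pi univ (fun _ : Fin n => K))) :=
    (isCompact_univ_pi (fun _ => isCompact_Icc)).prod (isCompact_univ_pi (fun _ => hK))
  have h2 : Continuous (fun q : (Fin n → ℝ) × (Fin n → X) => ∑ j, q.1 j • i (q.2 j)) := by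
    refine continuous_finsetSum _ (fun j _ => ?_)
    exact ((continuous_apply j).comp continuous_fst).smul
      (hi.comp ((continuous_apply j).comp continuous_snd))
  have h3 : Cn i n r K = (fun q : (Fin n → ℝ) × (Fin n → X) => ∑ j, q.1 j • i (q.2 j)) ''
      ((Set.pi univ (fun _ : Fin n => Icc (-r) r)) ×ˢ (Set.pi univ (fun _ : Fin n => K))) := by
    ext v
    constructor
    · rintro ⟨c, x, hc, hx, rfl⟩
      refine ⟨(c, x), ⟨fun j _ => abs_le.1 (hc j), fun j _ => hx j⟩, rfl⟩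
    · rintro ⟨⟨c, x⟩, ⟨hc, hx⟩, rfl⟩
      exact ⟨c, x, fun j => abs_le.2 (hc j trivial), fun j => hx j trivial, rfl⟩
  rw [h3]
  exact h1.image h2

lemma two_mem {m : ℕ} (hm : 2 ≤ m) {a b : ℝ} (ha : |a| ≤ m) (hb : |b| ≤ m) (x y : X) :
    a • i x + b • i y ∈ sp i m := by
  obtain ⟨k, rfl⟩ := Nat.exists_eq_add_of_le' hm
  refine ⟨Fin.cons a (Fin.cons b (fun _ => 0)), Fin.cons x (Fin.cons y (fun _ => y)), ?_, ?_⟩
  · intro j
    refine Fin.cases ?_ (fun j => ?_) j
    · simpa using ha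
    · refine Fin.cases ?_ (fun j => ?_) j
      · simpa using hb
      · simp
        positivity
  · simp [Fin.sum_univ_succ]

end Cn

/-- The basic criterion for a subspace not to be a k-space. -/
lemma not_kSpace {V : Type} [TopologicalSpace V] [T2Space V] {S A : Set V} (hAS : A ⊆ S) {p : V}
    (hpS : p ∈ S) (hpA : p ∉ A) (hcl : p ∈ closure A)
    (hK : ∀ K : Set V, IsCompact K → (K ∩ A).Finite) : ¬ KSpace S := by
  intro hS
  have h1 : IsClosed ((fun z : S => (z : V)) ⁻¹' A) := by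
    apply hS
    intro K hKc
    have h2 : (Subtype.val '' K ∩ A).Finite := hK _ (hKc.image continuous_subtype_val)
    have h3 : ((fun z : K => ((z : S) : V)) ⁻¹' (Subtype.val '' K ∩ A)).Finite := by
      apply h2.preimage
      intro a _ b _ hab
      exact Subtype.ext (Subtype.ext hab)
    have h4 : (fun z : K => (z : S)) ⁻¹' ((fun z : S => (z : V)) ⁻¹' A) =
        (fun z : K => ((z : S) : V)) ⁻¹' (Subtype.val '' K ∩ A) := by
      ext z
      constructor
      · intro hz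
        exact ⟨⟨z.1, z.2, rfl⟩, hz⟩
      · intro hz
        exact hz.2
    rw [h4]
    exact h3.isClosed
  have h5 : (⟨p, hpS⟩ : S) ∈ closure ((fun z : S => (z : V)) ⁻¹' A) := by
    rw [closure_subtype]
    have h6 : Subtype.val '' ((fun z : S => (z : V)) ⁻¹' A) = A := by
      rw [Subtype.image_preimage_coe]
      exact inter_eq_right.2 hAS
    rw [h6]
    exact hcl
  rw [h1.closure_eq] at h5
  exact hpA h5

lemma dep_seq {α : Type*} (Good : ℕ → α → Prop) (Rel : ℕ → α → α → Prop) (x0 : α)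
    (h0 : Good 0 x0) (step : ∀ n x, Good n x → ∃ y, Good (n + 1) y ∧ Rel n x y) :
    ∃ f : ℕ → α, f 0 = x0 ∧ (∀ n, Good n (f n)) ∧ ∀ n, Rel n (f n) (f (n + 1)) := by
  have : Nonempty α := ⟨x0⟩
  choose! g hg using step
  let F : ℕ → α := fun n => Nat.rec x0 (fun n x => g n x) n
  have hF : ∀ n, Good n (F n) := by
    intro n
    induction n with
    | zero => exact h0
    | succ n ih => exact (hg n _ ih).1
  exact ⟨F, rfl, hF, fun n => (hg n _ (hF n)).2⟩

/-- `U` is relatively open in each `C k`. -/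
def RelOpen {Y : Type*} [TopologicalSpace Y] (C : ℕ → Set Y) (U : Set Y) : Prop :=
  ∀ k, ∃ G, IsOpen G ∧ G ∩ C k = U ∩ C k

lemma enlarge {Y : Type*} [TopologicalSpace Y] [T2Space Y] [RegularSpace Y] {P C G0 : Set Y}
    (hP : IsCompact P) (hC : IsCompact C) (hG0 : IsOpen G0) (hPG : P ⊆ G0) :
    ∃ P' G, IsCompact P' ∧ P' ⊆ C ∧ P' ⊆ G0 ∧ IsOpen G ∧ P ⊆ G ∧ G ∩ C ⊆ P' := by
  have hsep : SeparatedNhds P G0ᶜ := SeparatedNhds.of_isCompact_isClosed hP hG0.isClosed_compl
    (disjoint_compl_right_iff_subset.2 hPG)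
  obtain ⟨G, H, hG, hH, hPG', hGH, hdisj⟩ := hsep
  have hcl : closure G ⊆ G0 := by
    intro y hy
    by_contra hy'
    have h1 : Disjoint (closure G) H := hdisj.closure_left hH
    exact (Set.disjoint_left.1 h1 hy) (hGH hy')
  refine ⟨closure G ∩ C, G, hC.inter_left isClosed_closure, inter_subset_right,
    fun y hy => hcl hy.1, hG, hPG', fun y hy => ⟨subset_closure hy.1, hy.2⟩⟩

lemma relOpen_iUnion {Y : Type*} [TopologicalSpace Y] (C : ℕ → Set Y) (mC : Monotone C) (k0 : ℕ)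
    (P G : ℕ → Set Y) (hPC : ∀ n, P n ⊆ C (k0 + n)) (hG : ∀ n, IsOpen (G n))
    (hPG : ∀ n, P n ⊆ G n) (hGP : ∀ n, G n ∩ C (k0 + (n + 1)) ⊆ P (n + 1)) :
    RelOpen C (⋃ n, P n) := by
  have hmono : Monotone P := monotone_nat_of_le_succ (fun n x hx =>
    hGP n ⟨hPG n hx, mC (by omega) (hPC n hx)⟩)
  intro k
  refine ⟨⋃ n, G (k + n), isOpen_iUnion (fun n => hG _), ?_⟩
  ext x
  constructor
  · rintro ⟨hx, hxC⟩
    obtain ⟨n, hn⟩ := mem_iUnion.1 hx
    exact ⟨mem_iUnion.2 ⟨k + n + 1, hGP (k + n) ⟨hn, mC (by omega) hxC⟩⟩, hxC⟩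
  · rintro ⟨hx, hxC⟩
    obtain ⟨n, hn⟩ := mem_iUnion.1 hx
    exact ⟨mem_iUnion.2 ⟨n, hPG _ (hmono (by omega) hn)⟩, hxC⟩

lemma prod_rel {Y₁ Y₂ : Type*} [TopologicalSpace Y₁] [TopologicalSpace Y₂] [T2Space Y₁]
    [T2Space Y₂] [RegularSpace Y₁] [RegularSpace Y₂] (C : ℕ → Set Y₁) (D : ℕ → Set Y₂)
    (hC : ∀ k, IsCompact (C k)) (hD : ∀ k, IsCompact (D k)) (mC : Monotone C) (mD : Monotone D)
    (O : Set (Y₁ × Y₂)) (hO : ∀ k, ∃ W, IsOpen W ∧ W ∩ (C k ×ˢ D k) = O ∩ (C k ×ˢ D k))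
    {a : Y₁} {b : Y₂} (hab : (a, b) ∈ O) {k0 : ℕ} (ha : a ∈ C k0) (hb : b ∈ D k0) :
    ∃ (U : Set Y₁) (W : Set Y₂), RelOpen C U ∧ RelOpen D W ∧ a ∈ U ∧ b ∈ W ∧ U ×ˢ W ⊆ O := by
  obtain ⟨f, hf0, hf1, hf2⟩ := dep_seq
    (fun (n : ℕ) (q : Set Y₁ × Set Y₂) => IsCompact q.1 ∧ IsCompact q.2 ∧ q.1 ⊆ C (k0 + n) ∧
      q.2 ⊆ D (k0 + n) ∧ q.1 ×ˢ q.2 ⊆ O)
    (fun (n : ℕ) (q q' : Set Y₁ × Set Y₂) =>
      (∃ G, IsOpen G ∧ q.1 ⊆ G ∧ G ∩ C (k0 + (n + 1)) ⊆ q'.1) ∧
      (∃ H, IsOpen H ∧ q.2 ⊆ H ∧ H ∩ D (k0 + (n + 1)) ⊆ q'.2))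
    ({a}, {b})
    (by
      refine ⟨isCompact_singleton, isCompact_singleton, ?_, ?_, ?_⟩
      · simpa using ha
      · simpa using hb
      · rintro ⟨x, y⟩ ⟨hx, hy⟩
        have hx' : x = a := hx
        have hy' : y = b := hy
        rw [hx', hy']
        exact hab)
    (by
      rintro n ⟨P, Q⟩ ⟨hP, hQ, hPC, hQD, hPQ⟩
      obtain ⟨W, hW, hWO⟩ := hO (k0 + (n + 1))
      have hPQW : P ×ˢ Q ⊆ W := by
        rintro ⟨x, y⟩ hxy
        have h1 : (x, y) ∈ O ∩ (C (k0 + (n + 1)) ×ˢ D (k0 + (n + 1))) :=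
          ⟨hPQ hxy, mC (by omega) (hPC hxy.1), mD (by omega) (hQD hxy.2)⟩
        rw [← hWO] at h1
        exact h1.1
      obtain ⟨G0, H0, hG0, hH0, hPG0, hQH0, hGH⟩ := generalized_tube_lemma hP hQ hW hPQW
      obtain ⟨P', G, hP', hP'C, hP'G0, hG, hPG, hGP'⟩ :=
        enlarge hP (hC (k0 + (n + 1))) hG0 hPG0
      obtain ⟨Q', H, hQ', hQ'D, hQ'H0, hH, hQH, hHQ'⟩ :=
        enlarge hQ (hD (k0 + (n + 1))) hH0 hQH0
      refine ⟨(P', Q'), ⟨hP', hQ', hP'C, hQ'D, ?_⟩, ⟨G, hG, hPG, hGP'⟩, ⟨H, hH, hQH, hHQ'⟩⟩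
      rintro ⟨x, y⟩ hxy
      have h1 : (x, y) ∈ W := hGH ⟨hP'G0 hxy.1, hQ'H0 hxy.2⟩
      have h2 : (x, y) ∈ W ∩ (C (k0 + (n + 1)) ×ˢ D (k0 + (n + 1))) :=
        ⟨h1, hP'C hxy.1, hQ'D hxy.2⟩
      rw [hWO] at h2
      exact h2.1)
  choose G hG1 hG2 hG3 using fun n => (hf2 n).1
  choose H hH1 hH2 hH3 using fun n => (hf2 n).2
  have mP : Monotone (fun n => (f n).1) := monotone_nat_of_le_succ (fun n x hx =>
    hG3 n ⟨hG2 n hx, mC (by omega) ((hf1 n).2.2.1 hx)⟩)
  have mQ : Monotone (fun n => (f n).2) := monotone_nat_of_le_succ (fun n x hx =>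
    hH3 n ⟨hH2 n hx, mD (by omega) ((hf1 n).2.2.2.1 hx)⟩)
  refine ⟨⋃ n, (f n).1, ⋃ n, (f n).2, ?_, ?_, ?_, ?_, ?_⟩
  · exact relOpen_iUnion C mC k0 _ G (fun n => (hf1 n).2.2.1) hG1 hG2 hG3
  · exact relOpen_iUnion D mD k0 _ H (fun n => (hf1 n).2.2.2.1) hH1 hH2 hH3
  · refine mem_iUnion.2 ⟨0, ?_⟩
    rw [hf0]
    rfl
  · refine mem_iUnion.2 ⟨0, ?_⟩
    rw [hf0]
    rfl
  · rintro ⟨x, y⟩ ⟨hx, hy⟩
    obtain ⟨n, hn⟩ := mem_iUnion.1 hx
    obtain ⟨m, hm⟩ := mem_iUnion.1 hy
    exact (hf1 (max n m)).2.2.2.2 ⟨mP (le_max_left _ _) hn, mQ (le_max_right _ _) hm⟩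

/-- The vector space `V` with the topology coherent with the sets `C k`. -/
def Coh (V : Type) (_C : ℕ → Set V) : Type := V

instance (V : Type) (C : ℕ → Set V) [AddCommGroup V] : AddCommGroup (Coh V C) :=
  inferInstanceAs (AddCommGroup V)

instance (V : Type) (C : ℕ → Set V) [AddCommGroup V] [Module ℝ V] : Module ℝ (Coh V C) :=
  inferInstanceAs (Module ℝ V)

instance (V : Type) (C : ℕ → Set V) [TopologicalSpace V] : TopologicalSpace (Coh V C) :=
  ⨆ k, TopologicalSpace.coinduced (fun z : C k => (z : V)) inferInstance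

lemma isOpen_coh {V : Type} {C : ℕ → Set V} [TopologicalSpace V] {U : Set V} :
    IsOpen (X := Coh V C) U ↔ RelOpen C U := by
  have h1 : IsOpen (X := Coh V C) U ↔ ∀ k, IsOpen ((fun z : C k => (z : V)) ⁻¹' U) := by
    have := @isOpen_iSup_iff V ℕ
      (fun k => TopologicalSpace.coinduced (fun z : C k => (z : V)) inferInstance) U
    exact this
  rw [h1]
  constructor
  · intro h k
    obtain ⟨G, hG, hGU⟩ := isOpen_induced_iff.1 (h k)
    refine ⟨G, hG, ?_⟩
    rw [inter_comm, inter_comm U]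
    exact Subtype.preimage_coe_eq_preimage_coe_iff.1 hGU
  · intro h k
    obtain ⟨G, hG, hGU⟩ := h k
    refine isOpen_induced_iff.2 ⟨G, hG, ?_⟩
    rw [inter_comm, inter_comm U] at hGU
    exact Subtype.preimage_coe_eq_preimage_coe_iff.2 hGU

lemma rel_iff {V : Type*} {C G U : Set V} (hGU : G ∩ C = U ∩ C) {v : V} (hv : v ∈ C) :
    v ∈ G ↔ v ∈ U := by
  constructor
  · intro h2
    have h3 : v ∈ G ∩ C := ⟨h2, hv⟩
    rw [hGU] at h3
    exact h3.1
  · intro h2
    have h3 : v ∈ U ∩ C := ⟨h2, hv⟩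
    rw [← hGU] at h3
    exact h3.1

section Komega

variable {X V : Type} [TopologicalSpace X] [AddCommGroup V] [Module ℝ V] [TopologicalSpace V]
  {i : X → V}

/-- the basic compact sets -/
def CC (i : X → V) (K : ℕ → Set X) (m : ℕ) : Set V := Cn i m m (K m)

lemma CC_mono {K : ℕ → Set X} (mK : Monotone K) (neK : ∀ m, (K m).Nonempty) :
    Monotone (CC i K) := by
  intro m n hmn
  exact Cn_mono hmn (by exact_mod_cast hmn) (by positivity) (mK hmn) (neK n)

lemma CC_add {K : ℕ → Set X} (mK : Monotone K) {m : ℕ} {v w : V}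
    (hv : v ∈ CC i K m) (hw : w ∈ CC i K m) (neK : ∀ m, (K m).Nonempty) :
    v + w ∈ CC i K (m + m) := by
  have h1 := Cn_add hv hw
  exact Cn_mono le_rfl (by push_cast; linarith [(Nat.cast_nonneg m : (0:ℝ) ≤ m)])
    (by positivity) (mK (by omega)) (neK _) h1

lemma CC_smul {K : ℕ → Set X} (mK : Monotone K) {m : ℕ} {v : V} {t : ℝ}
    (hv : v ∈ CC i K m) (ht : |t| ≤ m) (neK : ∀ m, (K m).Nonempty) :
    t • v ∈ CC i K (m * m) := by
  have h1 := Cn_smul hv ht (by positivity)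
  exact Cn_mono (Nat.le_mul_self m) (by push_cast; exact le_rfl)
    (by positivity) (mK (Nat.le_mul_self m)) (neK _) h1

lemma CC_iUnion (h : IsFreeTVS i) {K : ℕ → Set X} (mK : Monotone K)
    (neK : ∀ m, (K m).Nonempty) (hcov : ∀ x, ∃ m, x ∈ K m) (v : V) : ∃ m, v ∈ CC i K m := by
  have mC := CC_mono (i := i) mK neK
  let S : Submodule ℝ V :=
    { carrier := {v | ∃ m, v ∈ CC i K m}
      add_mem' := by
        rintro v w ⟨m, hv⟩ ⟨n, hw⟩
        exact ⟨_, CC_add mK (mC (le_max_left m n) hv) (mC (le_max_right m n) hw) neK⟩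
      zero_mem' := by
        refine ⟨0, Fin.elim0, Fin.elim0, fun j => j.elim0, fun j => j.elim0, ?_⟩
        simp
      smul_mem' := by
        rintro t v ⟨m, hv⟩
        obtain ⟨n, hn⟩ := exists_nat_ge |t|
        refine ⟨_, CC_smul mK (m := max m n) (mC (le_max_left m n) hv) ?_ neK⟩
        refine hn.trans ?_
        exact_mod_cast le_max_right m n }
  have h1 : Submodule.span ℝ (range i) ≤ S := by
    rw [Submodule.span_le]
    rintro _ ⟨x, rfl⟩
    obtain ⟨m, hm⟩ := hcov x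
    refine ⟨max m 1, ?_⟩
    have h2 : i x ∈ Cn i 1 1 (K m) := ⟨fun _ => 1, fun _ => x, by simp, fun _ => hm, by simp⟩
    exact Cn_mono (le_max_right m 1) (by exact_mod_cast le_max_right m 1) (by positivity)
      (mK (le_max_left m 1)) (neK _) h2
  rw [span_eq_top h] at h1
  exact h1 trivial

/-- If `X` is a `k_ω`-space, with witnesses `K m`, then the free topological vector space is
coherent with the compact sets `CC i K m`. -/
theorem coherent (h : IsFreeTVS i) {K : ℕ → Set X} (hK : ∀ m, IsCompact (K m)) (mK : Monotone K)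
    (neK : ∀ m, (K m).Nonempty) (hcov : ∀ x, ∃ m, x ∈ K m)
    (hcoh : ∀ U : Set X, RelOpen K U → IsOpen U) {U : Set V} (hU : RelOpen (CC i K) U) :
    IsOpen U := by
  have := h.t2
  have := h.grp
  have := h.smul
  have mC := CC_mono (i := i) mK neK
  have cC : ∀ m, IsCompact (CC i K m) := fun m => Cn_compact h.cont m m (hK m)
  have t2 : T2Space (Coh V (CC i K)) := by
    refine ⟨fun x y hxy => ?_⟩
    obtain ⟨A, B, hA, hB, hxA, hyB, hAB⟩ := t2_separation (X := V) hxy
    exact ⟨A, B, isOpen_coh.2 (fun k => ⟨A, hA, rfl⟩), isOpen_coh.2 (fun k => ⟨B, hB, rfl⟩),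
      hxA, hyB, hAB⟩
  have hadd : Continuous (fun q : Coh V (CC i K) × Coh V (CC i K) => q.1 + q.2) := by
    rw [continuous_def]
    intro U hU
    replace hU : RelOpen (CC i K) (U : Set V) := (isOpen_coh (C := CC i K) (U := U)).1 hU
    rw [isOpen_prod_iff]
    intro a b hab
    obtain ⟨m, hm⟩ := CC_iUnion h mK neK hcov a
    obtain ⟨n, hn⟩ := CC_iUnion h mK neK hcov b
    obtain ⟨A, B, hA, hB, haA, hbB, hAB⟩ := prod_rel (Y₁ := V) (Y₂ := V) (CC i K) (CC i K) cC cC
      mC mC {q : V × V | q.1 + q.2 ∈ (U : Set V)}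
      (by
        intro k
        obtain ⟨G, hG, hGU⟩ := hU (k + k)
        refine ⟨{q : V × V | q.1 + q.2 ∈ G}, hG.preimage (by fun_prop), ?_⟩
        ext ⟨x, y⟩
        have key : x ∈ CC i K k → y ∈ CC i K k → (x + y ∈ G ↔ x + y ∈ (U : Set V)) := by
          intro hx hy
          exact rel_iff hGU (CC_add mK hx hy neK)
        constructor
        · rintro ⟨h1, h2⟩
          exact ⟨(key h2.1 h2.2).1 h1, h2⟩
        · rintro ⟨h1, h2⟩
          exact ⟨(key h2.1 h2.2).2 h1, h2⟩)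
      (a := a) (b := b) hab (k0 := max m n) (mC (le_max_left m n) hm) (mC (le_max_right m n) hn)
    exact ⟨A, B, isOpen_coh.2 hA, isOpen_coh.2 hB, haA, hbB, hAB⟩
  have hsmul : Continuous (fun q : ℝ × Coh V (CC i K) => q.1 • q.2) := by
    rw [continuous_def]
    intro U hU
    replace hU : RelOpen (CC i K) (U : Set V) := (isOpen_coh (C := CC i K) (U := U)).1 hU
    rw [isOpen_prod_iff]
    intro a b hab
    obtain ⟨m, hm⟩ := exists_nat_ge |a|
    obtain ⟨n, hn⟩ := CC_iUnion h mK neK hcov b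
    have mI : Monotone (fun k : ℕ => Icc (-(k:ℝ)) (k:ℝ)) := by
      intro k l hkl
      have hkl' : (k:ℝ) ≤ l := by exact_mod_cast hkl
      exact Icc_subset_Icc (by linarith) hkl'
    obtain ⟨A, B, hA, hB, haA, hbB, hAB⟩ := prod_rel (Y₁ := ℝ) (Y₂ := V)
      (fun k : ℕ => Icc (-(k:ℝ)) (k:ℝ)) (CC i K) (fun k => isCompact_Icc) cC
      mI mC {q : ℝ × V | q.1 • q.2 ∈ (U : Set V)}
      (by
        intro k
        obtain ⟨G, hG, hGU⟩ := hU (k * k)
        refine ⟨{q : ℝ × V | q.1 • q.2 ∈ G}, hG.preimage (by fun_prop), ?_⟩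
        ext ⟨x, y⟩
        have key : x ∈ Icc (-(k:ℝ)) (k:ℝ) → y ∈ CC i K k →
            (x • y ∈ G ↔ x • y ∈ (U : Set V)) := by
          intro hx hy
          exact rel_iff hGU (CC_smul mK hy (abs_le.2 hx) neK)
        constructor
        · rintro ⟨h1, h2⟩
          exact ⟨(key h2.1 h2.2).1 h1, h2⟩
        · rintro ⟨h1, h2⟩
          exact ⟨(key h2.1 h2.2).2 h1, h2⟩)
      (a := a) (b := b) hab (k0 := max m n)
      (mI (le_max_left m n) (abs_le.1 hm)) (mC (le_max_right m n) hn)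
    refine ⟨A, B, ?_, isOpen_coh.2 hB, haA, hbB, hAB⟩
    rw [isOpen_iff_mem_nhds]
    intro x hx
    obtain ⟨k, hk⟩ := exists_nat_gt |x|
    obtain ⟨G, hG, hGA⟩ := hA k
    have hx1 : x ∈ Ioo (-(k:ℝ)) k := abs_lt.1 hk
    have hx2 : x ∈ G := by
      have : x ∈ A ∩ Icc (-(k:ℝ)) (k:ℝ) := ⟨hx, Ioo_subset_Icc_self hx1⟩
      rw [← hGA] at this
      exact this.1
    have h3 : G ∩ Ioo (-(k:ℝ)) k ∈ 𝓝 x := (hG.inter isOpen_Ioo).mem_nhds ⟨hx2, hx1⟩
    refine Filter.mem_of_superset h3 ?_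
    intro y hy
    have : y ∈ G ∩ Icc (-(k:ℝ)) (k:ℝ) := ⟨hy.1, Ioo_subset_Icc_self hy.2⟩
    rw [hGA] at this
    exact this.1
  have : ContinuousSMul ℝ (Coh V (CC i K)) := ⟨hsmul⟩
  have : ContinuousAdd (Coh V (CC i K)) := ⟨hadd⟩
  have : ContinuousNeg (Coh V (CC i K)) := ⟨by
    have h1 : Continuous (fun v : Coh V (CC i K) => (-1 : ℝ) • v) :=
      continuous_const_smul (-1 : ℝ)
    have h2 : (fun v : Coh V (CC i K) => (-1 : ℝ) • v) = fun v => -v := by
      funext v
      exact neg_one_smul ℝ v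
    rw [h2] at h1
    exact h1⟩
  have : IsTopologicalAddGroup (Coh V (CC i K)) := ⟨⟩
  let jj : X → Coh V (CC i K) := i
  have hcont : Continuous jj := by
    rw [continuous_def]
    intro U hU
    replace hU : RelOpen (CC i K) (U : Set V) := (isOpen_coh (C := CC i K) (U := U)).1 hU
    apply hcoh
    intro k
    obtain ⟨G, hG, hGU⟩ := hU (max k 1)
    refine ⟨i ⁻¹' G, hG.preimage h.cont, ?_⟩
    have key : ∀ x, x ∈ K k → (i x ∈ G ↔ i x ∈ (U : Set V)) := by
      intro x hx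
      have h2 : i x ∈ Cn i 1 1 (K k) := ⟨fun _ => 1, fun _ => x, by simp, fun _ => hx, by simp⟩
      have h1 : i x ∈ CC i K (max k 1) :=
        Cn_mono (le_max_right k 1) (by exact_mod_cast le_max_right k 1) (by positivity)
          (mK (le_max_left k 1)) (neK _) h2
      exact rel_iff hGU h1
    ext x
    constructor
    · rintro ⟨h1, h2⟩
      exact ⟨(key x h2).1 h1, h2⟩
    · rintro ⟨h1, h2⟩
      exact ⟨(key x h2).2 h1, h2⟩
  obtain ⟨F, hF, -⟩ := h.lift (Coh V (CC i K)) jj hcont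
  have hFid : ∀ v : V, (F v : V) = v := by
    intro v
    have h1 : v ∈ Submodule.span ℝ (range i) := by rw [span_eq_top h]; trivial
    refine Submodule.span_induction (p := fun v _ => (F v : V) = v) ?_ ?_ ?_ ?_ h1
    · rintro _ ⟨x, rfl⟩
      exact hF x
    · exact map_zero F
    · intro x y _ _ hx hy
      have : F (x + y) = F x + F y := map_add F x y
      rw [this]
      have h2 : (F x + F y : Coh V (CC i K)) = ((F x : V) + (F y : V) : V) := rfl
      rw [h2, hx, hy]
      rfl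
    · intro t x _ hx
      have : F (t • x) = t • F x := map_smul F t x
      rw [this]
      have h2 : (t • F x : Coh V (CC i K)) = (t • (F x : V) : V) := rfl
      rw [h2, hx]
      rfl
  have h5 : IsOpen (X := Coh V (CC i K)) U := isOpen_coh.2 hU
  have h6 : IsOpen (F ⁻¹' (U : Set (Coh V (CC i K)))) := h5.preimage F.continuous
  have h7 : F ⁻¹' (U : Set (Coh V (CC i K))) = U := by
    ext v
    exact iff_of_eq (congrArg (fun w : V => w ∈ U) (hFid v))
  rw [h7] at h6
  exact h6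

/-- In a coherent free topological vector space, a set is closed as soon as its traces on the
basic compact sets are closed. -/
theorem coherent_closed (h : IsFreeTVS i) {K : ℕ → Set X} (hK : ∀ m, IsCompact (K m))
    (mK : Monotone K) (neK : ∀ m, (K m).Nonempty) (hcov : ∀ x, ∃ m, x ∈ K m)
    (hcoh : ∀ U : Set X, RelOpen K U → IsOpen U) {F : Set V}
    (hF : ∀ m, IsClosed (F ∩ CC i K m)) : IsClosed F := by
  rw [← isOpen_compl_iff]
  apply coherent h hK mK neK hcov hcoh
  intro k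
  refine ⟨(F ∩ CC i K k)ᶜ, (hF k).isOpen_compl, ?_⟩
  ext v
  simp only [mem_inter_iff, mem_compl_iff]
  tauto

lemma sp_inter_compact [T35Space X] (h : IsFreeTVS i) {K : ℕ → Set X}
    (hK : ∀ m, IsCompact (K m)) (neK : ∀ m, (K m).Nonempty) (n m : ℕ) :
    IsCompact (sp i n ∩ CC i K m) := by
  classical
  have := h.t2
  have := h.grp
  have := h.smul
  have h1 : sp i n ∩ CC i K m = Cn i n n (K m) ∩ CC i K m := by
    ext v
    constructor
    · rintro ⟨⟨c, x, hc, hv⟩, hvm⟩
      refine ⟨?_, hvm⟩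
      obtain ⟨x0, hx0⟩ := neK m
      refine ⟨fun j => if x j ∈ K m then c j else 0, fun j => if x j ∈ K m then x j else x0,
        ?_, ?_, ?_⟩
      · intro j
        by_cases hj : x j ∈ K m
        · simp only [hj, if_true]
          exact hc j
        · simp only [hj, if_false]
          simp
      · intro j
        by_cases hj : x j ∈ K m
        · simp [hj]
        · simp [hj, hx0]
      · set w : V := ∑ j, (if x j ∈ K m then c j else 0) • i (if x j ∈ K m then x j else x0)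
          with hw
        have hd : Disjoint (Submodule.span ℝ (i '' (K m))) (Submodule.span ℝ (i '' (K m)ᶜ)) :=
          (linearIndependent h).disjoint_span_image disjoint_compl_right
        have hv1 : v ∈ Submodule.span ℝ (i '' (K m)) := by
          obtain ⟨c', x', -, hx', rfl⟩ := hvm
          exact Submodule.sum_mem _ (fun j _ => Submodule.smul_mem _ _
            (Submodule.subset_span ⟨_, hx' j, rfl⟩))
        have hw1 : w ∈ Submodule.span ℝ (i '' (K m)) := by
          refine Submodule.sum_mem _ (fun j _ => Submodule.smul_mem _ _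
            (Submodule.subset_span ⟨_, ?_, rfl⟩))
          by_cases hj : x j ∈ K m
          · simp [hj]
          · simp [hj, hx0]
        have hvw : v - w ∈ Submodule.span ℝ (i '' (K m)ᶜ) := by
          rw [hv, hw, ← Finset.sum_sub_distrib]
          refine Submodule.sum_mem _ (fun j _ => ?_)
          by_cases hj : x j ∈ K m
          · simp [hj]
          · simp only [hj, if_false, zero_smul, sub_zero]
            exact Submodule.smul_mem _ _ (Submodule.subset_span ⟨_, hj, rfl⟩)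
        have h0 : v - w = 0 :=
          (Submodule.disjoint_def.1 hd) _ (Submodule.sub_mem _ hv1 hw1) hvw
        exact sub_eq_zero.1 h0
    · rintro ⟨⟨c, x, hc, -, hv⟩, hvm⟩
      exact ⟨⟨c, x, hc, hv⟩, hvm⟩
  rw [h1]
  exact (Cn_compact h.cont n n (hK m)).inter_right (Cn_compact h.cont m m (hK m)).isClosed

/-- If `X` is a `k_ω`-space, then the free topological vector space is a `k_ω`-space, and all
levels `sp n` are closed k-spaces. -/
theorem kSpace_of_komega [T35Space X] (h : IsFreeTVS i) {K : ℕ → Set X}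
    (hK : ∀ m, IsCompact (K m)) (mK : Monotone K) (neK : ∀ m, (K m).Nonempty)
    (hcov : ∀ x, ∃ m, x ∈ K m) (hcoh : ∀ U : Set X, RelOpen K U → IsOpen U) :
    KOmegaSpace V ∧ KSpace V ∧ ∀ n, IsClosed (sp i n) ∧ KSpace (sp i n) := by
  have := h.t2
  have := h.grp
  have := h.smul
  have cC : ∀ m, IsCompact (CC i K m) := fun m => Cn_compact h.cont m m (hK m)
  have hko : ∀ C : Set V, (∀ n, IsClosed ((fun z : CC i K n => (z : V)) ⁻¹' C)) → IsClosed C := by
    intro C hC
    apply coherent_closed h hK mK neK hcov hcoh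
    intro m
    have h1 : IsClosed (Subtype.val '' ((fun z : CC i K m => (z : V)) ⁻¹' C)) :=
      (cC m).isClosed.isClosedMap_subtype_val _ (hC m)
    rw [Subtype.image_preimage_coe] at h1
    rw [inter_comm]
    exact h1
  refine ⟨⟨CC i K, cC, ?_, hko⟩, ?_, ?_⟩
  · rw [eq_univ_iff_forall]
    intro v
    exact mem_iUnion.2 (CC_iUnion h mK neK hcov v)
  · intro C hC
    exact hko C (fun n => hC _ (cC n))
  · intro n
    have hcl : IsClosed (sp i n) := coherent_closed h hK mK neK hcov hcoh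
      (fun m => (sp_inter_compact h hK neK n m).isClosed)
    refine ⟨hcl, ?_⟩
    intro C hC
    have h2 : IsClosed (Subtype.val '' C : Set V) := by
      apply coherent_closed h hK mK neK hcov hcoh
      intro m
      have h3 : IsCompact ((fun z : sp i n => (z : V)) ⁻¹' (sp i n ∩ CC i K m)) := by
        rw [Subtype.isCompact_iff, Subtype.image_preimage_coe]
        rw [inter_eq_right.2 inter_subset_left]
        exact sp_inter_compact h hK neK n m
      have h4 := hC _ h3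
      have h5 : IsCompact (C ∩ ((fun z : sp i n => (z : V)) ⁻¹' (sp i n ∩ CC i K m))) := by
        have h6 := h3.isClosed.isClosedMap_subtype_val _ h4
        rw [Subtype.image_preimage_coe] at h6
        rw [inter_comm]
        exact h3.of_isClosed_subset h6 inter_subset_left
      have h7 := (h5.image continuous_subtype_val).isClosed
      have h8 : Subtype.val '' (C ∩ ((fun z : sp i n => (z : V)) ⁻¹' (sp i n ∩ CC i K m))) =
          Subtype.val '' C ∩ CC i K m := by
        ext v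
        constructor
        · rintro ⟨z, ⟨hz, hz'⟩, rfl⟩
          exact ⟨⟨z, hz, rfl⟩, hz'.2⟩
        · rintro ⟨⟨z, hz, rfl⟩, hz'⟩
          exact ⟨z, ⟨hz, ⟨z.2, hz'⟩⟩, rfl⟩
      rw [h8] at h7
      exact h7
    have h9 := h2.preimage (continuous_subtype_val (p := fun v => v ∈ sp i n))
    rwa [preimage_image_eq _ Subtype.val_injective] at h9

end Komega

end Pool.Agent.R819.FreeTVS
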