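import Mathlib
import Pool.Agent.R819.FreeTVS

/-!
Two constructions showing that a level `sp n`, `n ≥ 2`, is not a k-space.
-/

namespace Pool.Agent.R819.FreeTVS

open TopologicalSpace Filter Topology Set

/-- A family of points is functionally unbounded. -/
def Unbdd {X ι : Type} [TopologicalSpace X] (u : ι → X) : Prop :=
  ∀ c : ι → ℝ, ∃ g : X → ℝ, Continuous g ∧ (∀ x, 0 ≤ g x) ∧ ∀ n, c n ≤ g (u n)

section constr

variable {X V : Type} [TopologicalSpace X] [AddCommGroup V] [Module ℝ V] [TopologicalSpace V]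
  {i : X → V}

lemma compact_bdd {K : Set V} (hK : IsCompact K) (F : V →L[ℝ] ℝ) :
    ∃ B : ℝ, ∀ v ∈ K, F v ≤ B := by
  obtain ⟨B, hB⟩ := hK.exists_bound_of_continuousOn F.continuous.continuousOn
  exact ⟨B, fun v hv => (le_abs_self _).trans (hB v hv)⟩

lemma zero_mem_sp {m : ℕ} (x : X) : (0 : V) ∈ sp i m :=
  ⟨fun _ => 0, fun _ => x, fun _ => by simp, by simp⟩

lemma not_kSpace_of_fan (h : IsFreeTVS i) {m : ℕ} (hm : 2 ≤ m) (p : X) (e : ℕ → X)
    (x : ℕ → ℕ → X) (hx : ∀ U ∈ 𝓝 p, ∃ n, ∀ j, x n j ∈ U) (he : Unbdd e)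
    (hxn : ∀ n, Unbdd (x n)) : ¬ KSpace (sp i m) := by
  have := h.t2
  have := h.grp
  have := h.smul
  let a : ℕ → ℕ → V := fun n j => (1 / ((j : ℝ) + 1)) • i (e n) + i (x n j)
  have hm1 : (1 : ℝ) ≤ m := by
    have : 1 ≤ m := by omega
    exact_mod_cast this
  refine not_kSpace (A := {v | ∃ n j, v = a n j}) (p := i p) ?_ ?_ ?_ ?_ ?_
  · rintro v ⟨n, j, rfl⟩
    have h1 : a n j = (1 / ((j : ℝ) + 1)) • i (e n) + (1 : ℝ) • i (x n j) := by
      simp only [a, one_smul]
    rw [h1]
    refine two_mem hm ?_ ?_ _ _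
    · rw [abs_of_nonneg (by positivity)]
      refine le_trans ?_ hm1
      rw [div_le_one (by positivity)]
      linarith [(Nat.cast_nonneg j : (0:ℝ) ≤ j)]
    · simpa using hm1
  · have h1 : i p = (1 : ℝ) • i p + (0 : ℝ) • i p := by simp
    rw [h1]
    refine two_mem hm ?_ ?_ _ _
    · simpa using hm1
    · simp
  · rintro ⟨n, j, hnj⟩
    obtain ⟨F, hF⟩ := exists_functional h (fun _ => 1) continuous_const
    have h1 := congrArg F hnj
    simp only [a, map_add, map_smul, hF, smul_eq_mul, mul_one] at h1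
    have h2 : 0 < 1 / ((j : ℝ) + 1) := by positivity
    linarith
  · rw [mem_closure_iff_nhds]
    intro W hW
    have hadd : Tendsto (fun q : V × V => q.1 + q.2) (𝓝 0 ×ˢ 𝓝 (i p)) (𝓝 (i p)) := by
      have h1 : Tendsto (fun q : V × V => q.1 + q.2) (𝓝 ((0 : V), i p)) (𝓝 (0 + i p)) :=
        continuous_add.tendsto _
      rwa [nhds_prod_eq, zero_add] at h1
    obtain ⟨A, hA, B, hB, hAB⟩ := Filter.mem_prod_iff.1 (hadd hW)
    obtain ⟨n, hn⟩ := hx (i ⁻¹' B) (h.cont.continuousAt hB)
    have hj : Tendsto (fun j : ℕ => (1 / ((j : ℝ) + 1)) • i (e n)) atTop (𝓝 0) := by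
      have h1 : Tendsto (fun j : ℕ => 1 / ((j : ℝ) + 1)) atTop (𝓝 0) :=
        tendsto_one_div_add_atTop_nhds_zero_nat
      have h2 := h1.smul_const (i (e n))
      rwa [zero_smul] at h2
    obtain ⟨j, hj⟩ := (hj.eventually hA).exists
    exact ⟨a n j, hAB (show ((1 / ((j : ℝ) + 1)) • i (e n), i (x n j)) ∈ A ×ˢ B from
      ⟨hj, hn j⟩), n, j, rfl⟩
  · intro K hK
    -- the set of rows is finite
    have hrow : {n | ∃ j, a n j ∈ K}.Finite := by
      let jj : ℕ → ℕ := fun n => by
        classical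
        exact if hn : ∃ j, a n j ∈ K then hn.choose else 0
      have hjj : ∀ n, (∃ j, a n j ∈ K) → a n (jj n) ∈ K := by
        intro n hn
        simp only [jj, hn, dif_pos]
        exact hn.choose_spec
      obtain ⟨g, hg, hg0, hgc⟩ := he (fun n => (n : ℝ) * ((jj n : ℝ) + 1))
      obtain ⟨F, hF⟩ := exists_functional h g hg
      obtain ⟨B, hB⟩ := compact_bdd hK F
      obtain ⟨N, hN⟩ := exists_nat_ge B
      refine (finite_Iic N).subset ?_
      intro n hn
      have h1 := hB _ (hjj n hn)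
      simp only [a, map_add, map_smul, hF, smul_eq_mul] at h1
      have h2 := hg0 (x n (jj n))
      have h3 := hgc n
      have h4 : (n : ℝ) ≤ 1 / ((jj n : ℝ) + 1) * g (e n) := by
        rw [one_div, inv_mul_eq_div, le_div_iff₀ (by positivity)]
        exact h3
      have h5 : (n : ℝ) ≤ N := by linarith
      exact_mod_cast h5
    have hcol : ∀ n, {j | a n j ∈ K}.Finite := by
      intro n
      obtain ⟨g, hg, hg0, hgc⟩ := hxn n (fun j => (j : ℝ))
      obtain ⟨F, hF⟩ := exists_functional h g hg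
      obtain ⟨B, hB⟩ := compact_bdd hK F
      obtain ⟨N, hN⟩ := exists_nat_ge B
      refine (finite_Iic N).subset ?_
      intro j hj
      have h1 := hB _ hj
      simp only [a, map_add, map_smul, hF, smul_eq_mul] at h1
      have h2 := hg0 (e n)
      have h3 := hgc j
      have h4 : 0 ≤ 1 / ((j : ℝ) + 1) * g (e n) := by positivity
      have h5 : (j : ℝ) ≤ N := by linarith
      exact_mod_cast h5
    refine (hrow.biUnion (fun n _ => ((hcol n).image (a n)))).subset ?_
    rintro v ⟨hv, n, j, rfl⟩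
    exact mem_biUnion (show n ∈ {n | ∃ j, a n j ∈ K} from ⟨j, hv⟩) ⟨j, hv, rfl⟩

lemma not_kSpace_of_uncountable (h : IsFreeTVS i) {m : ℕ} (hm : 2 ≤ m) {ι : Type}
    [Uncountable ι] (κ : ι → ℕ → Bool) (hκ : Function.Injective κ) (u : ι → X) (hu : Unbdd u) :
    ¬ KSpace (sp i m) := by
  have := h.t2
  have := h.grp
  have := h.smul
  let Δ : ι → ι → ℕ := fun x y => PiNat.firstDiff (κ x) (κ y)
  let a : ι → ι → V := fun x y => (1 / ((Δ x y : ℝ) + 1)) • (i (u x) + i (u y))
  have hcomm : ∀ x y, a x y = a y x := by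
    intro x y
    simp only [a, Δ]
    rw [PiNat.firstDiff_comm, add_comm (i (u x))]
  have hm1 : (1 : ℝ) ≤ m := by
    have : 1 ≤ m := by omega
    exact_mod_cast this
  have hle1 : ∀ x y, |1 / ((Δ x y : ℝ) + 1)| ≤ m := by
    intro x y
    rw [abs_of_nonneg (by positivity)]
    refine le_trans ?_ hm1
    rw [div_le_one (by positivity)]
    linarith [(Nat.cast_nonneg (Δ x y) : (0:ℝ) ≤ Δ x y)]
  obtain ⟨x₀⟩ : Nonempty ι := inferInstance
  refine not_kSpace (A := {v | ∃ x y, x ≠ y ∧ v = a x y}) (p := 0) ?_ (zero_mem_sp (u x₀)) ?_ ?_ ?_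
  · rintro v ⟨x, y, -, rfl⟩
    have h1 : a x y = (1 / ((Δ x y : ℝ) + 1)) • i (u x) + (1 / ((Δ x y : ℝ) + 1)) • i (u y) := by
      simp only [a, smul_add]
    rw [h1]
    exact two_mem hm (hle1 x y) (hle1 x y) _ _
  · rintro ⟨x, y, -, hxy⟩
    obtain ⟨F, hF⟩ := exists_functional h (fun _ => 1) continuous_const
    have h1 := congrArg F hxy
    simp only [a, map_add, map_smul, hF, smul_eq_mul, map_zero] at h1
    have h2 : 0 < 1 / ((Δ x y : ℝ) + 1) := by positivity
    linarith
  · rw [mem_closure_iff_nhds]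
    intro W hW
    have hadd : Tendsto (fun q : V × V => q.1 + q.2) (𝓝 0 ×ˢ 𝓝 0) (𝓝 0) := by
      have h1 : Tendsto (fun q : V × V => q.1 + q.2) (𝓝 ((0 : V), (0 : V))) (𝓝 (0 + 0)) :=
        continuous_add.tendsto _
      rwa [nhds_prod_eq, zero_add] at h1
    obtain ⟨A, hA, B, hB, hAB⟩ := Filter.mem_prod_iff.1 (hadd hW)
    have hN : ∀ x : ι, ∃ N : ℕ, ∀ n ≥ N, (1 / ((n : ℝ) + 1)) • i (u x) ∈ A ∩ B := by
      intro x
      have h1 : Tendsto (fun j : ℕ => 1 / ((j : ℝ) + 1)) atTop (𝓝 0) :=
        tendsto_one_div_add_atTop_nhds_zero_nat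
      have h2 := h1.smul_const (i (u x))
      rw [zero_smul] at h2
      exact eventually_atTop.1 (h2.eventually (inter_mem hA hB))
    choose N hN using hN
    have hinf : ∃ k, {x | N x = k}.Infinite := by
      by_contra hcon
      push Not at hcon
      have h1 : (univ : Set ι).Countable := by
        have h2 : (univ : Set ι) = ⋃ k, {x | N x = k} := by
          ext x
          simp
        rw [h2]
        exact countable_iUnion (fun k => (hcon k).countable)
      exact not_countable_univ h1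
    obtain ⟨k, hk⟩ := hinf
    obtain ⟨x, hx, y, hy, hxy, hxy'⟩ := hk.exists_ne_map_eq_of_mapsTo
      (f := fun x => fun j : Fin k => κ x j) (t := univ) (fun _ _ => trivial) (toFinite _)
    have hΔ : k ≤ Δ x y := by
      by_contra hlt
      push Not at hlt
      have h1 := PiNat.apply_firstDiff_ne (hκ.ne hxy)
      exact h1 (congrFun hxy' ⟨Δ x y, hlt⟩)
    have hxk : N x = k := hx
    have hyk : N y = k := hy
    have h1 := hN x (Δ x y) (by omega)
    have h2 := hN y (Δ x y) (by omega)
    refine ⟨a x y, ?_, x, y, hxy, rfl⟩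
    have h3 : a x y = (1 / ((Δ x y : ℝ) + 1)) • i (u x) + (1 / ((Δ x y : ℝ) + 1)) • i (u y) := by
      simp only [a, smul_add]
    rw [h3]
    exact hAB (show ((1 / ((Δ x y : ℝ) + 1)) • i (u x), (1 / ((Δ x y : ℝ) + 1)) • i (u y)) ∈
      A ×ˢ B from ⟨h1.1, h2.2⟩)
  · intro K hK
    have hfin : {x | ∃ y, x ≠ y ∧ a x y ∈ K}.Finite := by
      by_contra hinf
      have hinf' : {x | ∃ y, x ≠ y ∧ a x y ∈ K}.Infinite := hinf
      let s : ℕ → ι := fun n => hinf'.natEmbedding _ n
      have hs : Function.Injective s :=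
        Subtype.val_injective.comp (hinf'.natEmbedding _).injective
      have hsm : ∀ n, ∃ y, s n ≠ y ∧ a (s n) y ∈ K := fun n => (hinf'.natEmbedding _ n).2
      choose y hy hyK using hsm
      obtain ⟨g, hg, hg0, hgc⟩ := hu (fun x => ((Function.invFun s x : ℕ) : ℝ) *
        ((Δ x (y (Function.invFun s x)) : ℝ) + 1))
      obtain ⟨F, hF⟩ := exists_functional h g hg
      obtain ⟨B, hB⟩ := compact_bdd hK F
      obtain ⟨n, hn⟩ := exists_nat_gt B
      have h1 := hB _ (hyK n)
      simp only [a, map_add, map_smul, hF, smul_eq_mul] at h1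
      have h2 := hgc (s n)
      simp only [Function.leftInverse_invFun hs n] at h2
      have h3 := hg0 (u (y n))
      have h4 : (n : ℝ) ≤ 1 / ((Δ (s n) (y n) : ℝ) + 1) * (g (u (s n)) + g (u (y n))) := by
        rw [one_div, inv_mul_eq_div, le_div_iff₀ (by positivity)]
        linarith
      linarith
    refine ((hfin.prod hfin).image (fun q : ι × ι => a q.1 q.2)).subset ?_
    rintro v ⟨hv, x, y, hxy, rfl⟩
    exact ⟨(x, y), ⟨⟨y, hxy, hv⟩, ⟨x, hxy.symm, by rw [hcomm]; exact hv⟩⟩, rfl⟩

end constr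

/-- Locally finite families of points are functionally unbounded in paracompact spaces. -/
lemma unbdd_of_locallyFinite {X ι : Type} [TopologicalSpace X] [NormalSpace X]
    [ParacompactSpace X] (u : ι → X) (hu : LocallyFinite (fun n => ({u n} : Set X))) :
    Unbdd u := by
  intro c
  obtain ⟨g, hg⟩ := exists_continuous_forall_mem_convex_of_local_const (X := X) (E := ℝ)
    (t := fun x => {r | 0 ≤ r ∧ ∀ n, u n = x → c n ≤ r}) (by
      intro x
      rw [convex_iff_forall_pos]
      rintro a ⟨ha, ha'⟩ b ⟨hb, hb'⟩ s t hs ht hst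
      refine ⟨?_, ?_⟩
      · have h1 := mul_nonneg hs.le ha
        have h2 := mul_nonneg ht.le hb
        simp only [smul_eq_mul]
        linarith
      · intro n hn
        have h1 := mul_le_mul_of_nonneg_left (ha' n hn) hs.le
        have h2 := mul_le_mul_of_nonneg_left (hb' n hn) ht.le
        simp only [smul_eq_mul]
        calc c n = s * c n + t * c n := by rw [← add_mul, hst, one_mul]
          _ ≤ s * a + t * b := add_le_add h1 h2) (by
      intro x
      obtain ⟨U, hU, hfin⟩ := hu x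
      obtain ⟨M, hM⟩ := (hfin.image c).bddAbove
      refine ⟨max M 0, ?_⟩
      filter_upwards [hU] with y hy
      refine ⟨le_max_right _ _, ?_⟩
      intro n hn
      refine le_trans (hM ⟨n, ?_, rfl⟩) (le_max_left _ _)
      refine ⟨u n, rfl, ?_⟩
      rw [hn]
      exact hy)
  exact ⟨g, g.continuous, fun x => (hg x).1, fun n => (hg (u n)).2 n rfl⟩

section metrizable

variable {X V : Type} [TopologicalSpace X] [MetrizableSpace X] [AddCommGroup V] [Module ℝ V]
  [TopologicalSpace V] {i : X → V}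

/-- In a metric space, a closed set that is not compact contains a sequence of points without
cluster points. -/
lemma exists_locallyFinite {X : Type} [MetricSpace X] {s : Set X} (hs : IsClosed s)
    (hc : ¬ IsCompact s) : ∃ u : ℕ → X, (∀ n, u n ∈ s) ∧ LocallyFinite (fun n => ({u n} : Set X)) := by
  rw [isCompact_iff_isSeqCompact] at hc
  unfold IsSeqCompact at hc
  push Not at hc
  obtain ⟨u, hu, hcl⟩ := hc
  refine ⟨u, hu, ?_⟩
  intro x
  have h1 : ¬ MapClusterPt x atTop u := by
    intro h2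
    obtain ⟨ψ, hψ, hlim⟩ := MapClusterPt.tendsto_subseq h2
    have hxs : x ∈ s := hs.mem_of_tendsto hlim (Eventually.of_forall (fun n => hu _))
    exact hcl x hxs ψ hψ hlim
  rw [mapClusterPt_iff_frequently] at h1
  push Not at h1
  obtain ⟨U, hU, hfin⟩ := h1
  refine ⟨U, hU, ?_⟩
  rw [eventually_atTop] at hfin
  obtain ⟨N, hN⟩ := hfin
  refine (finite_lt_nat N).subset ?_
  rintro n ⟨y, hy, hyU⟩
  have hy' : y = u n := hy
  rw [hy'] at hyU
  by_contra hlt
  exact hN n (not_lt.1 hlt) hyU

theorem locallyCompact_of_kSpace (h : IsFreeTVS i) {m : ℕ} (hm : 2 ≤ m) (hk : KSpace (sp i m)) :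
    LocallyCompactSpace X := by
  by_contra hlc
  let _ : MetricSpace X := metrizableSpaceMetric X
  have h1 : ∃ p : X, ∀ r > 0, ¬ IsCompact (Metric.closedBall p r) := by
    by_contra hcon
    push Not at hcon
    apply hlc
    have : WeaklyLocallyCompactSpace X := ⟨fun p => by
      obtain ⟨r, hr, hc⟩ := hcon p
      exact ⟨_, hc, Metric.closedBall_mem_nhds p hr⟩⟩
    infer_instance
  obtain ⟨p, hp⟩ := h1
  have h2 : ∀ n : ℕ, ∃ u : ℕ → X, (∀ j, u j ∈ Metric.closedBall p (1 / ((n : ℝ) + 1))) ∧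
      LocallyFinite (fun n => ({u n} : Set X)) := fun n =>
    exists_locallyFinite Metric.isClosed_closedBall (hp _ (by positivity))
  choose u hu hlf using h2
  refine not_kSpace_of_fan h hm p (u 0) (fun n => u n) ?_ (unbdd_of_locallyFinite _ (hlf 0))
    (fun n => unbdd_of_locallyFinite _ (hlf n)) hk
  intro U hU
  obtain ⟨r, hr, hrU⟩ := Metric.mem_nhds_iff.1 hU
  obtain ⟨n, hn⟩ := exists_nat_one_div_lt hr
  refine ⟨n, fun j => hrU ?_⟩
  exact lt_of_le_of_lt (hu n j) hn

lemma exists_separated {X : Type} [MetricSpace X] (hX : ¬ SecondCountableTopology X) :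
    ∃ ε > 0, ∃ D : Set X, ¬ D.Countable ∧ D.Pairwise (fun x y => ε < dist x y) := by
  by_contra hcon
  push Not at hcon
  apply hX
  apply Metric.secondCountable_of_almost_dense_set
  intro ε hε
  obtain ⟨D, hD⟩ := zorn_subset {s : Set X | s.Pairwise (fun x y => ε < dist x y)} (by
    intro c hc hchain
    refine ⟨⋃₀ c, ?_, fun s hs => subset_sUnion_of_mem hs⟩
    exact (pairwise_sUnion hchain.directedOn).2 (fun s hs => hc hs))
  refine ⟨D, by_contra (fun hc => hcon ε hε D hc hD.1), ?_⟩
  intro x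
  by_contra hx
  push Not at hx
  have h1 : (insert x D).Pairwise (fun x y => ε < dist x y) := by
    apply hD.1.insert
    intro y hy _
    exact ⟨hx y hy, by rw [dist_comm]; exact hx y hy⟩
  have h2 := hD.2 h1 (subset_insert x D) (mem_insert x D)
  have h3 := hx x h2
  rw [dist_self] at h3
  linarith

theorem separable_of_kSpace (h : IsFreeTVS i) {m : ℕ} (hm : 2 ≤ m) (hk : KSpace (sp i m)) :
    SecondCountableTopology X := by
  by_contra hsc
  let _ : MetricSpace X := metrizableSpaceMetric X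
  obtain ⟨ε, hε, D, hD, hsep⟩ := exists_separated hsc
  have h1 : Cardinal.aleph 1 ≤ Cardinal.mk D := by
    rw [Cardinal.aleph_one_le_iff]
    rw [← not_le, Cardinal.le_aleph0_iff_set_countable]
    exact hD
  obtain ⟨D', hD'D, hD'⟩ := Cardinal.le_mk_iff_exists_subset.1 h1
  have hunc : Uncountable D' := by
    rw [← Cardinal.aleph0_lt_mk_iff, hD']
    exact Cardinal.aleph0_lt_aleph_one
  have h2 : Cardinal.mk D' ≤ Cardinal.mk (ℕ → Bool) := by
    rw [hD']
    have h3 : Cardinal.mk (ℕ → Bool) = Cardinal.continuum := by simp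
    rw [h3]
    exact Cardinal.aleph_one_le_continuum
  obtain ⟨κ⟩ := h2
  refine not_kSpace_of_uncountable h hm (ι := D') κ κ.injective (fun x => (x : X))
    (unbdd_of_locallyFinite _ ?_) hk
  intro x
  refine ⟨Metric.ball x (ε / 2), Metric.ball_mem_nhds x (by positivity), ?_⟩
  apply Set.Subsingleton.finite
  rintro a ⟨y, hy, hyx⟩ b ⟨z, hz, hzx⟩
  have hy' : y = a := hy
  have hz' : z = b := hz
  rw [hy'] at hyx
  rw [hz'] at hzx
  by_contra hab
  have h3 := hsep (hD'D a.2) (hD'D b.2) (fun h' => hab (Subtype.ext h'))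
  have h4 := dist_triangle_right (a : X) (b : X) x
  rw [Metric.mem_ball] at hyx hzx
  linarith

lemma isClosed_of_subsingleton {Z : Type} [TopologicalSpace Z] [Subsingleton Z] (C : Set Z) :
    IsClosed C := by
  rcases Set.eq_empty_or_nonempty C with h1 | ⟨z, hz⟩
  · rw [h1]
    exact isClosed_empty
  · have h2 : C = univ := by
      ext w
      simp only [mem_univ, iff_true]
      rwa [Subsingleton.elim w z]
    rw [h2]
    exact isClosed_univ

/-- If `X` is locally compact, metrizable and separable, then it is a `k_ω`-space. -/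
theorem main_metrizable (h : IsFreeTVS i) [LocallyCompactSpace X] [SecondCountableTopology X] :
    KOmegaSpace V ∧ KSpace V ∧ ∀ n, IsClosed (sp i n) ∧ KSpace (sp i n) := by
  have := h.t2
  let _ : MetricSpace X := metrizableSpaceMetric X
  rcases isEmpty_or_nonempty X with hX | ⟨⟨x0⟩⟩
  · have hsub : Subsingleton V := by
      have h1 := span_eq_top h
      have h2 : range i = ∅ := range_eq_empty i
      rw [h2, Submodule.span_empty] at h1
      refine ⟨fun v w => ?_⟩
      have hv : v ∈ (⊥ : Submodule ℝ V) := by rw [h1]; trivial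
      have hw : w ∈ (⊥ : Submodule ℝ V) := by rw [h1]; trivial
      rw [Submodule.mem_bot] at hv hw
      rw [hv, hw]
    refine ⟨⟨fun _ => univ, fun _ => Set.subsingleton_univ.isCompact, iUnion_const univ,
      fun C _ => isClosed_of_subsingleton C⟩, fun C _ => isClosed_of_subsingleton C,
      fun n => ⟨isClosed_of_subsingleton _, fun C _ => isClosed_of_subsingleton C⟩⟩
  · let K0 : CompactExhaustion X := default
    have mK : Monotone (fun m => insert x0 (K0 m)) := by
      intro m n hmn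
      exact insert_subset_insert (K0.subset hmn)
    refine kSpace_of_komega h (K := fun m => insert x0 (K0 m))
      (fun m => (K0.isCompact m).insert x0) mK (fun m => ⟨x0, mem_insert _ _⟩) ?_ ?_
    · intro x
      obtain ⟨m, hm⟩ := K0.exists_mem x
      exact ⟨m, mem_insert_of_mem _ hm⟩
    · intro U hU
      rw [isOpen_iff_mem_nhds]
      intro x hx
      obtain ⟨m, hm⟩ := K0.exists_mem_nhds x
      obtain ⟨G, hG, hGU⟩ := hU m
      have hxG : x ∈ G := (rel_iff hGU (mem_insert_of_mem _ (mem_of_mem_nhds hm))).2 hx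
      filter_upwards [hm, hG.mem_nhds hxG] with y hy hyG
      exact (rel_iff hGU (mem_insert_of_mem _ hy)).1 hyG

end metrizable

end Pool.Agent.R819.FreeTVS
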