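import Mathlib
import Pool.Agent.R819.FreeTVS
import Pool.Agent.R819.FreeTVS2

/-!
Supports of compact sets of a free topological vector space, and product type obstructions to the
k-property of the levels `sp n`, for k*-metrizable spaces.
-/

namespace Pool.Agent.R819.FreeTVS

open TopologicalSpace Filter Topology Set

section supp

variable {X V : Type} [TopologicalSpace X] [AddCommGroup V] [Module ℝ V] [TopologicalSpace V]
  {i : X → V}

lemma exists_support (h : IsFreeTVS i) (v : V) : ∃ Z : Finset X, ∀ F : V →L[ℝ] ℝ,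
    (∀ z ∈ Z, F (i z) = 0) → F v = 0 := by
  have h1 : v ∈ Submodule.span ℝ (range i) := by rw [span_eq_top h]; trivial
  rw [Finsupp.mem_span_range_iff_exists_finsupp] at h1
  obtain ⟨c, rfl⟩ := h1
  refine ⟨c.support, fun F hF => ?_⟩
  unfold Finsupp.sum
  rw [map_sum]
  refine Finset.sum_eq_zero (fun z hz => ?_)
  rw [map_smul, hF z hz, smul_zero]

lemma tendsto_of_dominated [T35Space X] (h : IsFreeTVS i) {Ω : Type} (𝒰 : Ultrafilter Ω)
    (a : Ω → X) (w : Ω → V) (v : V) (hw : Tendsto w 𝒰 (𝓝 v))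
    (hdom : ∀ F : V →L[ℝ] ℝ, (∀ x, 0 ≤ F (i x)) → ∀ ω, F (i (a ω)) ≤ F (w ω)) :
    ∃ z, Tendsto a 𝒰 (𝓝 z) := by
  classical
  obtain ⟨Z, hZ⟩ := exists_support h v
  by_contra hcon
  push Not at hcon
  have h1 : ∀ z : X, ∃ U, IsOpen U ∧ z ∈ U ∧ a ⁻¹' U ∉ 𝒰 := by
    intro z
    have h2 := hcon z
    rw [tendsto_def] at h2
    push Not at h2
    obtain ⟨U, hU, hUn⟩ := h2
    obtain ⟨U', hU'U, hU', hz⟩ := mem_nhds_iff.1 hU
    exact ⟨U', hU', hz, fun hc => hUn (Filter.mem_of_superset hc (preimage_mono hU'U))⟩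
  choose U hUo hzU hUn using h1
  have h3 : ∀ z : X, ∃ f : X → ℝ, Continuous f ∧ f z = 0 ∧ (∀ x, x ∉ U z → f x = 1) ∧
      (∀ x, 0 ≤ f x) := by
    intro z
    obtain ⟨f, hf, hfz, hfU⟩ := CompletelyRegularSpace.completely_regular z (U z)ᶜ
      (hUo z).isClosed_compl (by simpa using hzU z)
    refine ⟨fun x => (f x : ℝ), by fun_prop, by simp [hfz], fun x hx => ?_, fun x => (f x).2.1⟩
    have : f x = 1 := hfU hx
    simp [this]
  choose f hf hfz hfU hf0 using h3
  obtain ⟨F, hF⟩ := exists_functional h (fun x => ∏ z ∈ Z, f z x)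
    (continuous_finsetProd _ (fun z _ => hf z))
  have h4 : F v = 0 := by
    apply hZ
    intro z hz
    rw [hF]
    exact Finset.prod_eq_zero hz (hfz z)
  have h5 : Tendsto (fun ω => F (w ω)) 𝒰 (𝓝 0) := by
    have := (F.continuous.tendsto v).comp hw
    rwa [h4] at this
  have h6 : ∀ᶠ ω in (𝒰 : Filter Ω), F (w ω) < 1 := h5.eventually (gt_mem_nhds one_pos)
  have h7 : (⋃ z ∈ (Z : Set X), a ⁻¹' (U z)) ∉ 𝒰 := by
    intro hc
    rw [Ultrafilter.finite_biUnion_mem_iff Z.finite_toSet] at hc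
    obtain ⟨z, -, hz⟩ := hc
    exact hUn z hz
  have h8 : (⋃ z ∈ (Z : Set X), a ⁻¹' (U z))ᶜ ∈ 𝒰 := Ultrafilter.compl_mem_iff_notMem.2 h7
  obtain ⟨ω, hω1, hω2⟩ := (h6.and h8).exists
  have h9 : F (i (a ω)) = 1 := by
    rw [hF]
    refine Finset.prod_eq_one (fun z hz => hfU z _ ?_)
    intro hc
    apply hω2
    exact mem_biUnion (show z ∈ (Z : Set X) from hz) hc
  have h10 := hdom F (fun x => by rw [hF]; exact Finset.prod_nonneg (fun z _ => hf0 z x)) ω
  linarith

lemma isCompact_preimage [T35Space X] (h : IsFreeTVS i) {K : Set V} (hK : IsCompact K) :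
    IsCompact (i ⁻¹' K) := by
  have := h.t2
  rw [isCompact_iff_ultrafilter_le_nhds']
  intro 𝒰 hU
  obtain ⟨v, hv, hlim⟩ := hK.ultrafilter_le_nhds' (𝒰.map i) hU
  obtain ⟨z, hz⟩ := tendsto_of_dominated h 𝒰 id i v hlim (fun F _ ω => le_rfl)
  refine ⟨z, ?_, hz⟩
  have h1 : Tendsto i 𝒰 (𝓝 (i z)) := (h.cont.tendsto z).comp hz
  have h2 : i z = v := tendsto_nhds_unique h1 hlim
  rw [mem_preimage, h2]
  exact hv

lemma mem_sp_one {m : ℕ} (hm : 1 ≤ m) (x : X) : i x ∈ sp i m := by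
  obtain ⟨k, rfl⟩ := Nat.exists_eq_add_of_le' hm
  refine ⟨Fin.cons 1 (fun _ => 0), fun _ => x, ?_, ?_⟩
  · intro j
    refine Fin.cases ?_ (fun j => ?_) j
    · simp
    · simp
      positivity
  · simp [Fin.sum_univ_succ]

/-- If a level `sp m`, `m ≥ 1`, is a k-space, then so is `X`. -/
lemma kSpace_base [T35Space X] (h : IsFreeTVS i) {m : ℕ} (hm : 1 ≤ m) (hk : KSpace (sp i m)) :
    KSpace X := by
  have := h.t2
  have hinj : Function.Injective i := (linearIndependent h).injective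
  intro C hC
  have h1 : IsClosed ((fun z : sp i m => (z : V)) ⁻¹' (i '' C)) := by
    apply hk
    intro K hK
    have h2 : IsCompact (i ⁻¹' (Subtype.val '' K : Set V)) :=
      isCompact_preimage h (hK.image continuous_subtype_val)
    have h3 : IsCompact (C ∩ i ⁻¹' (Subtype.val '' K : Set V)) := by
      have h4 := h2.isClosed.isClosedMap_subtype_val _ (hC _ h2)
      rw [Subtype.image_preimage_coe] at h4
      rw [inter_comm]
      exact h2.of_isClosed_subset h4 inter_subset_left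
    have h5 : IsClosed (i '' (C ∩ i ⁻¹' (Subtype.val '' K : Set V))) :=
      (h3.image h.cont).isClosed
    have h6 : (fun z : K => (z : sp i m)) ⁻¹' ((fun z : sp i m => (z : V)) ⁻¹' (i '' C)) =
        (fun z : K => ((z : sp i m) : V)) ⁻¹' (i '' (C ∩ i ⁻¹' (Subtype.val '' K : Set V))) := by
      ext z
      constructor
      · rintro ⟨x, hx, hxz⟩
        exact ⟨x, ⟨hx, ⟨z.1, z.2, hxz.symm⟩⟩, hxz⟩
      · rintro ⟨x, ⟨hx, -⟩, hxz⟩
        exact ⟨x, hx, hxz⟩
    rw [h6]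
    exact h5.preimage (continuous_subtype_val.comp continuous_subtype_val)
  have h7 : Continuous (fun x : X => (⟨i x, mem_sp_one hm x⟩ : sp i m)) :=
    h.cont.subtype_mk _
  have h8 := h1.preimage h7
  have h9 : (fun x : X => (⟨i x, mem_sp_one hm x⟩ : sp i m)) ⁻¹'
      ((fun z : sp i m => (z : V)) ⁻¹' (i '' C)) = C := by
    ext x
    constructor
    · rintro ⟨y, hy, hyx⟩
      have : y = x := hinj hyx
      rwa [← this]
    · intro hx
      exact ⟨x, hx, rfl⟩
  rwa [h9] at h8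

/-- In a k-space, compact-finite families of points are locally finite. -/
lemma locallyFinite_of_compactFinite [T2Space X] (hX : KSpace X) {ι : Type} (u : ι → X)
    (hu : ∀ K, IsCompact K → {n | u n ∈ K}.Finite) :
    LocallyFinite (fun n => ({u n} : Set X)) := by
  intro x
  have h1 : IsClosed {y | ∃ n, u n = y ∧ y ≠ x} := by
    apply hX
    intro K hK
    have h2 : ({y | ∃ n, u n = y ∧ y ≠ x} ∩ K).Finite := by
      refine ((hu K hK).image u).subset ?_
      rintro y ⟨⟨n, hn, -⟩, hy⟩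
      exact ⟨n, by simpa [hn] using hy, hn⟩
    have h3 := h2.preimage (f := (fun z : K => (z : X))) Subtype.val_injective.injOn
    have h4 : (fun z : K => (z : X)) ⁻¹' ({y | ∃ n, u n = y ∧ y ≠ x} ∩ K) =
        (fun z : K => (z : X)) ⁻¹' {y | ∃ n, u n = y ∧ y ≠ x} := by
      ext z
      simp
    rw [h4] at h3
    exact h3.isClosed
  refine ⟨{y | ∃ n, u n = y ∧ y ≠ x}ᶜ, h1.isOpen_compl.mem_nhds ?_, ?_⟩
  · rintro ⟨n, -, hx⟩
    exact hx rfl
  · refine (hu {x} isCompact_singleton).subset ?_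
    rintro n ⟨y, hy, hyU⟩
    have hy' : y = u n := hy
    by_contra hne
    apply hyU
    rw [hy']
    exact ⟨n, rfl, hne⟩

lemma sum_finite [T35Space X] (h : IsFreeTVS i) {ι : Type} (u b : ι → X)
    (hu : LocallyFinite (fun n => ({u n} : Set X))) {K : Set V} (hK : IsCompact K) :
    {n | i (u n) + i (b n) ∈ K}.Finite := by
  by_contra hinf
  have hinf' : {n | i (u n) + i (b n) ∈ K}.Infinite := hinf
  have hne : NeBot (cofinite ⊓ 𝓟 {n | i (u n) + i (b n) ∈ K}) :=
    hinf'.cofinite_inf_principal_neBot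
  let 𝒰 : Ultrafilter ι := Ultrafilter.of (cofinite ⊓ 𝓟 {n | i (u n) + i (b n) ∈ K})
  have h𝒰 : (𝒰 : Filter ι) ≤ cofinite ⊓ 𝓟 {n | i (u n) + i (b n) ∈ K} := Ultrafilter.of_le _
  have h1 : (𝒰 : Filter ι) ≤ cofinite := h𝒰.trans inf_le_left
  have h2 : {n | i (u n) + i (b n) ∈ K} ∈ (𝒰 : Filter ι) :=
    (h𝒰.trans inf_le_right) (mem_principal_self _)
  obtain ⟨v, hv, hlim⟩ := hK.ultrafilter_le_nhds' (𝒰.map (fun n => i (u n) + i (b n))) h2
  obtain ⟨z, hz⟩ := tendsto_of_dominated h 𝒰 u (fun n => i (u n) + i (b n)) v hlim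
    (fun F hF n => by
      rw [map_add]
      linarith [hF (b n)])
  obtain ⟨t, ht, hfin⟩ := hu z
  have h3 : u ⁻¹' t ∈ (𝒰 : Filter ι) := hz ht
  have h4 : (u ⁻¹' t).Finite := by
    refine hfin.subset ?_
    intro n hn
    exact ⟨u n, rfl, hn⟩
  have h5 : (u ⁻¹' t)ᶜ ∈ (𝒰 : Filter ι) := h1 (by rw [mem_cofinite, compl_compl]; exact h4)
  have h6 : (∅ : Set ι) ∈ (𝒰 : Filter ι) := by
    have := inter_mem h3 h5
    rwa [inter_compl_self] at this
  exact empty_notMem _ h6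

end supp

/-- Indexed version of the criterion for not being a k-space. -/
lemma not_kSpace_index {V I : Type} [TopologicalSpace V] [T2Space V] {S : Set V} (a : I → V)
    (haS : ∀ n, a n ∈ S) {p : V} (hpS : p ∈ S) (hcl : ∀ W ∈ 𝓝 p, {n | a n ∈ W}.Infinite)
    (hK : ∀ K : Set V, IsCompact K → {n | a n ∈ K}.Finite) : ¬ KSpace S := by
  refine not_kSpace (A := {v | ∃ n, v = a n ∧ a n ≠ p}) (p := p) ?_ hpS ?_ ?_ ?_
  · rintro v ⟨n, rfl, -⟩
    exact haS n
  · rintro ⟨n, hn, hne⟩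
    exact hne hn.symm
  · rw [mem_closure_iff_nhds]
    intro W hW
    have h1 : {n | a n = p}.Finite := hK {p} isCompact_singleton
    obtain ⟨n, hn, hnp⟩ := ((hcl W hW).sdiff h1).nonempty
    exact ⟨a n, hn, n, rfl, hnp⟩
  · intro K hKc
    refine ((hK K hKc).image a).subset ?_
    rintro v ⟨hv, n, rfl, -⟩
    exact ⟨n, hv, rfl⟩

end Pool.Agent.R819.FreeTVS
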