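import Mathlib
import Pool.Agent.R819.FreeTVS
import Pool.Agent.R819.FreeTVS2
import Pool.Agent.R819.FreeTVS3

/-!
k*-metrizable spaces and the k-property of the levels `sp n`: first part, local compactness.
-/

namespace Pool.Agent.R819.FreeTVS

open TopologicalSpace Filter Topology Set

lemma perturb {N : Type} [MetricSpace N] {w w' : ℕ → N}
    (hw : LocallyFinite (fun n => ({w n} : Set N)))
    (hd : ∀ n, dist (w' n) (w n) < 1 / ((n : ℝ) + 1)) :
    LocallyFinite (fun n => ({w' n} : Set N)) := by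
  intro z
  obtain ⟨t, ht, hfin⟩ := hw z
  obtain ⟨r, hr, hrt⟩ := Metric.mem_nhds_iff.1 ht
  refine ⟨Metric.ball z (r / 2), Metric.ball_mem_nhds z (by positivity), ?_⟩
  obtain ⟨N0, hN0⟩ := exists_nat_one_div_lt (show (0:ℝ) < r / 2 by positivity)
  refine (hfin.union (finite_lt_nat N0)).subset ?_
  rintro n ⟨y, hy, hyz⟩
  have hy' : y = w' n := hy
  rw [hy', Metric.mem_ball] at hyz
  by_cases hn : n < N0
  · exact Or.inr hn
  · left
    refine ⟨w n, rfl, hrt ?_⟩
    rw [Metric.mem_ball]
    have h1 : 1 / ((n : ℝ) + 1) ≤ 1 / ((N0 : ℝ) + 1) := by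
      apply one_div_le_one_div_of_le (by positivity)
      have : (N0 : ℝ) ≤ n := by exact_mod_cast not_lt.1 hn
      linarith
    have h2 := dist_triangle (w n) (w' n) z
    have h3 := hd n
    rw [dist_comm] at h3
    linarith

section kstar

variable {X N : Type} [TopologicalSpace X] [T35Space X] [MetricSpace N] {f : N → X} {s : X → N}

/-- The data of a k*-metrizable space, with dense section. -/
structure KStar (f : N → X) (s : X → N) : Prop where
  cont : Continuous f
  sec : ∀ x, f (s x) = x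
  dense : DenseRange s
  comp : ∀ K : Set X, IsCompact K → IsCompact (closure (s '' K))

lemma KStar.compactFinite (D : KStar f s) {ι : Type} (u : ι → X)
    (hu : LocallyFinite (fun n => ({s (u n)} : Set N))) (K : Set X) (hK : IsCompact K) :
    {n | u n ∈ K}.Finite := by
  refine (hu.finite_nonempty_inter_compact (D.comp K hK)).subset ?_
  intro n hn
  exact ⟨s (u n), rfl, subset_closure ⟨u n, hn, rfl⟩⟩

lemma KStar.locallyFinite (D : KStar f s) (hX : KSpace X) {ι : Type} (u : ι → X)
    (hu : LocallyFinite (fun n => ({s (u n)} : Set N))) :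
    LocallyFinite (fun n => ({u n} : Set X)) :=
  locallyFinite_of_compactFinite hX u (D.compactFinite u hu)

lemma KStar.quotient (D : KStar f s) (hX : KSpace X) {U : Set X} (hU : IsOpen (f ⁻¹' U)) :
    IsOpen U := by
  rw [← isClosed_compl_iff]
  apply hX
  intro K hK
  have h1 : IsCompact (closure (s '' K) ∩ f ⁻¹' Uᶜ) :=
    (D.comp K hK).inter_right (by rw [preimage_compl]; exact hU.isClosed_compl)
  have h2 : IsClosed (f '' (closure (s '' K) ∩ f ⁻¹' Uᶜ)) := (h1.image D.cont).isClosed
  have h3 : (fun z : K => (z : X)) ⁻¹' Uᶜ =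
      (fun z : K => (z : X)) ⁻¹' (f '' (closure (s '' K) ∩ f ⁻¹' Uᶜ)) := by
    ext z
    constructor
    · intro hz
      exact ⟨s z, ⟨subset_closure ⟨z, z.2, rfl⟩, by
        rw [mem_preimage, D.sec]; exact hz⟩, D.sec z⟩
    · rintro ⟨y, ⟨-, hy⟩, hyz⟩
      have hyz' : f y = (z : X) := hyz
      change (z : X) ∈ Uᶜ
      rw [← hyz']
      exact hy
  rw [h3]
  exact h2.preimage continuous_subtype_val

variable {V : Type} [AddCommGroup V] [Module ℝ V] [TopologicalSpace V] {i : X → V}

/-- The `S_ω × J_ω` argument. -/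
lemma KStar.not_kSpace_of_not_proper (D : KStar f s) (hX : KSpace X) (h : IsFreeTVS i) {m : ℕ}
    (hm : 2 ≤ m) (w : ℕ → N) (hw : LocallyFinite (fun n => ({w n} : Set N))) (x : X)
    (hx : ∀ U ∈ 𝓝 x, {n | f (w n) ∈ U}.Infinite) (q : X) (xx : ℕ → ℕ → X)
    (hq : ∀ U ∈ 𝓝 q, ∃ n0, ∀ n ≥ n0, ∀ j, xx n j ∈ U)
    (hxx : ∀ n, LocallyFinite (fun j => ({xx n j} : Set X))) : ¬ KSpace (sp i m) := by
  have := h.t2
  have := h.grp
  have := h.smul
  have hy : ∀ n k : ℕ, ∃ y : X, dist (s y) (w n) < 1 / ((n : ℝ) + k + 1) := by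
    intro n k
    obtain ⟨y, hy⟩ := D.dense.exists_dist_lt (w n) (show (0:ℝ) < 1 / ((n : ℝ) + k + 1) by positivity)
    exact ⟨y, by rw [dist_comm]; exact hy⟩
  choose y hy using hy
  have hylim : ∀ n, Tendsto (fun k => y n k) atTop (𝓝 (f (w n))) := by
    intro n
    have h1 : Tendsto (fun k => s (y n k)) atTop (𝓝 (w n)) := by
      rw [tendsto_iff_dist_tendsto_zero]
      refine squeeze_zero (fun k => dist_nonneg) (fun k => ?_)
        (tendsto_one_div_add_atTop_nhds_zero_nat (𝕜 := ℝ))
      refine (hy n k).le.trans (one_div_le_one_div_of_le (by positivity) ?_)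
      have : (0:ℝ) ≤ n := by positivity
      linarith
    have h2 := (D.cont.tendsto (w n)).comp h1
    have h3 : (f ∘ fun k => s (y n k)) = fun k => y n k := by
      funext k
      exact D.sec _
    rwa [h3] at h2
  have hm1 : |(1 : ℝ)| ≤ m := by
    rw [abs_one]
    have : 1 ≤ m := by omega
    exact_mod_cast this
  have hsum : ∀ a b : X, i a + i b ∈ sp i m := by
    intro a b
    have := two_mem (i := i) hm hm1 hm1 a b
    simpa using this
  refine not_kSpace_index (I := ℕ × ℕ) (fun n => i (y n.1 n.2) + i (xx n.1 n.2))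
    (fun n => hsum _ _) (p := i x + i q) (hsum _ _) ?_ ?_
  · intro W hW
    have hadd : Tendsto (fun z : X × X => i z.1 + i z.2) (𝓝 x ×ˢ 𝓝 q) (𝓝 (i x + i q)) := by
      have h1 : Continuous (fun z : X × X => i z.1 + i z.2) :=
        (h.cont.comp continuous_fst).add (h.cont.comp continuous_snd)
      have h2 := h1.tendsto (x, q)
      rwa [nhds_prod_eq] at h2
    obtain ⟨A, hA, B, hB, hAB⟩ := Filter.mem_prod_iff.1 (hadd hW)
    obtain ⟨A', hA'A, hA', hxA'⟩ := mem_nhds_iff.1 hA
    obtain ⟨n0, hn0⟩ := hq B hB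
    have h1 : ({n | f (w n) ∈ A'} \ {n | n < n0}).Infinite :=
      (hx A' (hA'.mem_nhds hxA')).sdiff (finite_lt_nat n0)
    intro hfin
    apply h1
    refine (hfin.image Prod.fst).subset ?_
    rintro n ⟨hn, hn'⟩
    have hn2 : n0 ≤ n := not_lt.1 hn'
    obtain ⟨k, hk⟩ := ((hylim n).eventually (hA'.mem_nhds hn)).exists
    exact ⟨(n, k), hAB (show (y n k, xx n k) ∈ A ×ˢ B from ⟨hA'A hk, hn0 n hn2 k⟩), rfl⟩
  · intro K hK
    have hrow : {n | ∃ j, i (y n j) + i (xx n j) ∈ K}.Finite := by
      classical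
      let jj : ℕ → ℕ := fun n => if hn : ∃ j, i (y n j) + i (xx n j) ∈ K then hn.choose else 0
      have hjj : ∀ n, (∃ j, i (y n j) + i (xx n j) ∈ K) →
          i (y n (jj n)) + i (xx n (jj n)) ∈ K := by
        intro n hn
        simp only [jj, hn, dif_pos]
        exact hn.choose_spec
      have h1 : LocallyFinite (fun n => ({s (y n (jj n))} : Set N)) := by
        refine perturb hw (fun n => ?_)
        refine (hy n (jj n)).trans_le (one_div_le_one_div_of_le (by positivity) ?_)
        have : (0:ℝ) ≤ jj n := by positivity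
        linarith
      have h2 := D.locallyFinite hX (fun n => y n (jj n)) h1
      refine (sum_finite h (fun n => y n (jj n)) (fun n => xx n (jj n)) h2 hK).subset ?_
      intro n hn
      exact hjj n hn
    have hcol : ∀ n, {j | i (y n j) + i (xx n j) ∈ K}.Finite := by
      intro n
      refine (sum_finite h (fun j => xx n j) (fun j => y n j) (hxx n) hK).subset ?_
      intro j hj
      rw [mem_ofPred_eq, add_comm]
      exact hj
    refine (hrow.biUnion (fun n _ => ((hcol n).image (fun j => (n, j))))).subset ?_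
    rintro ⟨n, j⟩ hnj
    exact mem_biUnion (show n ∈ {n | ∃ j, i (y n j) + i (xx n j) ∈ K} from ⟨j, hnj⟩)
      ⟨j, hnj, rfl⟩

/-- Non-local compactness of `N` yields a metric fan in `X`. -/
lemma KStar.exists_fan (D : KStar f s) (hN : ¬ LocallyCompactSpace N) :
    ∃ (q : X) (xx : ℕ → ℕ → X), (∀ U ∈ 𝓝 q, ∃ n0, ∀ n ≥ n0, ∀ j, xx n j ∈ U) ∧
      ∀ n, LocallyFinite (fun j => ({s (xx n j)} : Set N)) := by
  have h1 : ∃ p : N, ∀ r > 0, ¬ IsCompact (Metric.closedBall p r) := by
    by_contra hcon
    push Not at hcon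
    apply hN
    have : WeaklyLocallyCompactSpace N := ⟨fun p => by
      obtain ⟨r, hr, hc⟩ := hcon p
      exact ⟨_, hc, Metric.closedBall_mem_nhds p hr⟩⟩
    infer_instance
  obtain ⟨p, hp⟩ := h1
  have h2 : ∀ n : ℕ, ∃ u : ℕ → N, (∀ j, u j ∈ Metric.closedBall p (1 / ((n : ℝ) + 1))) ∧
      LocallyFinite (fun n => ({u n} : Set N)) := fun n =>
    exists_locallyFinite Metric.isClosed_closedBall (hp _ (by positivity))
  choose z hz hlf using h2
  have h3 : ∀ n j : ℕ, ∃ y : X, dist (s y) (z n j) < 1 / ((n : ℝ) + j + 1) := by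
    intro n j
    obtain ⟨y, hy⟩ := D.dense.exists_dist_lt (z n j)
      (show (0:ℝ) < 1 / ((n : ℝ) + j + 1) by positivity)
    exact ⟨y, by rw [dist_comm]; exact hy⟩
  choose xx hxx using h3
  refine ⟨f p, xx, ?_, ?_⟩
  · intro U hU
    have h4 : f ⁻¹' U ∈ 𝓝 p := D.cont.continuousAt hU
    obtain ⟨r, hr, hrU⟩ := Metric.mem_nhds_iff.1 h4
    obtain ⟨n0, hn0⟩ := exists_nat_one_div_lt (show (0:ℝ) < r / 2 by positivity)
    refine ⟨n0, fun n hn j => ?_⟩
    have h5 : 1 / ((n : ℝ) + 1) ≤ 1 / ((n0 : ℝ) + 1) := by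
      apply one_div_le_one_div_of_le (by positivity)
      have : (n0 : ℝ) ≤ n := by exact_mod_cast hn
      linarith
    have h6 : 1 / ((n : ℝ) + j + 1) ≤ 1 / ((n : ℝ) + 1) := by
      apply one_div_le_one_div_of_le (by positivity)
      have : (0:ℝ) ≤ j := by positivity
      linarith
    have h7 : s (xx n j) ∈ Metric.ball p r := by
      rw [Metric.mem_ball]
      have h8 := hz n j
      rw [Metric.mem_closedBall] at h8
      have h9 := hxx n j
      have h10 := dist_triangle (s (xx n j)) (z n j) p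
      linarith
    have h8 := hrU h7
    rwa [mem_preimage, D.sec] at h8
  · intro n
    refine perturb (hlf n) (fun j => (hxx n j).trans_le (one_div_le_one_div_of_le (by positivity) ?_))
    have : (0:ℝ) ≤ n := by positivity
    linarith

/-- If images of locally finite sequences are locally finite, then `f` is closed. -/
lemma KStar.closedMap (D : KStar f s) (hX : KSpace X)
    (hR : ∀ w : ℕ → N, LocallyFinite (fun n => ({w n} : Set N)) →
      LocallyFinite (fun n => ({f (w n)} : Set X))) {F : Set N} (hF : IsClosed F) :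
    IsClosed (f '' F) := by
  apply hX
  intro K hK
  have h1 : IsCompact (F ∩ f ⁻¹' K) := by
    by_contra hc
    obtain ⟨w, hw, hlf⟩ := exists_locallyFinite (hF.inter (hK.isClosed.preimage D.cont)) hc
    have h2 := (hR w hlf).finite_nonempty_inter_compact hK
    have h3 : {n | (({f (w n)} : Set X) ∩ K).Nonempty} = univ := by
      ext n
      simp only [mem_univ, iff_true]
      exact ⟨f (w n), rfl, (hw n).2⟩
    rw [h3] at h2
    exact infinite_univ h2
  have h2 : IsClosed (f '' (F ∩ f ⁻¹' K)) := (h1.image D.cont).isClosed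
  have h3 : (fun z : K => (z : X)) ⁻¹' (f '' F) = (fun z : K => (z : X)) ⁻¹' (f '' (F ∩ f ⁻¹' K)) := by
    ext z
    constructor
    · rintro ⟨y, hy, hyz⟩
      exact ⟨y, ⟨hy, by rw [mem_preimage, hyz]; exact z.2⟩, hyz⟩
    · rintro ⟨y, ⟨hy, -⟩, hyz⟩
      exact ⟨y, hy, hyz⟩
  rw [h3]
  exact h2.preimage continuous_subtype_val

/-- If `f` is perfect then locally finite sequences of `X` are functionally unbounded. -/
lemma KStar.unbdd (D : KStar f s) (hX : KSpace X)
    (hR : ∀ w : ℕ → N, LocallyFinite (fun n => ({w n} : Set N)) →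
      LocallyFinite (fun n => ({f (w n)} : Set X))) (u : ℕ → X)
    (hu : LocallyFinite (fun n => ({u n} : Set X))) : Unbdd u := by
  intro c
  let Z : ℕ → Set N := fun n => f ⁻¹' {u n}
  let G : ℕ → Set N := fun n => Metric.thickening (1 / ((n : ℝ) + 1)) (Z n)
  have hGo : ∀ n, IsOpen (G n) := fun n => Metric.isOpen_thickening
  have hZG : ∀ n, Z n ⊆ G n := fun n => Metric.self_subset_thickening (by positivity) _
  have hZlf : LocallyFinite Z := hu.preimage_continuous D.cont
  have hGlf : LocallyFinite G := by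
    intro z
    obtain ⟨t, ht, hfin⟩ := hZlf z
    obtain ⟨r, hr, hrt⟩ := Metric.mem_nhds_iff.1 ht
    refine ⟨Metric.ball z (r / 2), Metric.ball_mem_nhds z (by positivity), ?_⟩
    obtain ⟨N0, hN0⟩ := exists_nat_one_div_lt (show (0:ℝ) < r / 2 by positivity)
    refine (hfin.union (finite_lt_nat N0)).subset ?_
    rintro n ⟨y, hy, hyz⟩
    by_cases hn : n < N0
    · exact Or.inr hn
    · left
      obtain ⟨y', hy', hyy'⟩ := Metric.mem_thickening_iff.1 hy
      refine ⟨y', hy', hrt ?_⟩
      rw [Metric.mem_ball] at hyz ⊢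
      have h1 : 1 / ((n : ℝ) + 1) ≤ 1 / ((N0 : ℝ) + 1) := by
        apply one_div_le_one_div_of_le (by positivity)
        have : (N0 : ℝ) ≤ n := by exact_mod_cast not_lt.1 hn
        linarith
      have h2 := dist_triangle y' y z
      rw [dist_comm y' y] at h2
      linarith
  let W : ℕ → Set X := fun n => (f '' (G n)ᶜ)ᶜ
  have hWo : ∀ n, IsOpen (W n) := fun n =>
    (D.closedMap hX hR (hGo n).isClosed_compl).isOpen_compl
  have huW : ∀ n, u n ∈ W n := by
    rintro n ⟨z, hz, hzn⟩
    exact hz (hZG n hzn)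
  have hWG : ∀ n, f ⁻¹' (W n) ⊆ G n := by
    intro n z hz
    by_contra hc
    exact hz ⟨z, hc, rfl⟩
  have h3 : ∀ n : ℕ, ∃ g : X → ℝ, Continuous g ∧ g (u n) = 1 ∧ (∀ x, x ∉ W n → g x = 0) ∧
      (∀ x, 0 ≤ g x) := by
    intro n
    obtain ⟨g, hg, hgz, hgU⟩ := CompletelyRegularSpace.completely_regular (u n) (W n)ᶜ
      (hWo n).isClosed_compl (by simpa using huW n)
    refine ⟨fun x => 1 - (g x : ℝ), by fun_prop, by simp [hgz], fun x hx => ?_, fun x => ?_⟩
    · have : g x = 1 := hgU hx
      simp [this]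
    · have := (g x).2.2
      simp only
      linarith
  choose g hg hgu hgW hg0 using h3
  let t : ℕ → X → ℝ := fun n x => |c n| * g n x
  have ht0 : ∀ n x, 0 ≤ t n x := fun n x => mul_nonneg (abs_nonneg _) (hg0 n x)
  have hsupp : ∀ n, Function.support (fun z => t n (f z)) ⊆ G n := by
    intro n z hz
    apply hWG
    by_contra hc
    apply hz
    simp only [t, hgW n _ hc, mul_zero]
  have hlf : LocallyFinite (fun n => Function.support (fun z => t n (f z))) :=
    hGlf.subset hsupp
  have hcontN : Continuous (fun z => ∑ᶠ n, t n (f z)) :=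
    continuous_finsum (fun n => (continuous_const.mul ((hg n).comp D.cont))) hlf
  refine ⟨fun x => ∑ᶠ n, t n x, ?_, ?_, ?_⟩
  · rw [continuous_def]
    intro U hU
    apply D.quotient hX
    exact hU.preimage hcontN
  · intro x
    exact finsum_nonneg (fun n => ht0 n x)
  · intro n
    have h4 : (Function.support (fun n' => t n' (u n))).Finite := by
      refine (hlf.point_finite (s (u n))).subset ?_
      intro n' hn'
      rw [mem_ofPred_eq, Function.mem_support, D.sec]
      exact hn'
    have h5 : t n (u n) ≤ ∑ᶠ n', t n' (u n) := by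
      rw [finsum_eq_sum_of_support_subset (s := h4.toFinset) _ (by simp)]
      by_cases hn : n ∈ h4.toFinset
      · exact Finset.single_le_sum (f := fun n' => t n' (u n)) (fun n' _ => ht0 n' _) hn
      · have h6 : t n (u n) = 0 := by
          by_contra h7
          exact hn (by simpa using h7)
        rw [h6]
        exact Finset.sum_nonneg (fun n' _ => ht0 n' _)
    refine le_trans ?_ h5
    simp only [t, hgu, mul_one]
    exact le_abs_self _

/-- First part: `N` is locally compact. -/
theorem KStar.locallyCompact (D : KStar f s) (h : IsFreeTVS i) {m : ℕ} (hm : 2 ≤ m)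
    (hk : KSpace (sp i m)) : LocallyCompactSpace N := by
  have hX : KSpace X := kSpace_base h (by omega) hk
  by_contra hN
  obtain ⟨q, xx, hq, hxx⟩ := D.exists_fan hN
  have hxx' : ∀ n, LocallyFinite (fun j => ({xx n j} : Set X)) := fun n =>
    D.locallyFinite hX (xx n) (hxx n)
  by_cases hR : ∀ w : ℕ → N, LocallyFinite (fun n => ({w n} : Set N)) →
      LocallyFinite (fun n => ({f (w n)} : Set X))
  · refine not_kSpace_of_fan h hm q (xx 0) xx ?_ (D.unbdd hX hR _ (hxx' 0))
      (fun n => D.unbdd hX hR _ (hxx' n)) hk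
    intro U hU
    obtain ⟨n0, hn0⟩ := hq U hU
    exact ⟨n0, hn0 n0 le_rfl⟩
  · push Not at hR
    obtain ⟨w, hw, hfw⟩ := hR
    unfold LocallyFinite at hfw
    push Not at hfw
    obtain ⟨x, hx⟩ := hfw
    refine D.not_kSpace_of_not_proper hX h hm w hw x ?_ q xx hq hxx' hk
    intro U hU hfin
    apply hx U hU
    refine hfin.subset ?_
    rintro n ⟨y, hy, hyU⟩
    have hy' : y = f (w n) := hy
    rw [mem_ofPred_eq, ← hy']
    exact hyU

end kstar

end Pool.Agent.R819.FreeTVS
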