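import Mathlib
import Pool.Agent.R819.FreeTVS
import Pool.Agent.R819.FreeTVS2
import Pool.Agent.R819.FreeTVS3
import Pool.Agent.R819.FreeTVS4

/-!
k*-metrizable spaces and the k-property of the levels `sp n`: second part, sigma-compactness.
-/

namespace Pool.Agent.R819.FreeTVS

open TopologicalSpace Filter Topology Set

lemma exists_index {J : Type} {T : Set J} (hT : ¬ T.Countable) : ∃ T' : Set J, T' ⊆ T ∧
    Uncountable T' ∧ ∃ κ : T' → ℕ → Bool, Function.Injective κ := by
  have h1 : Cardinal.aleph 1 ≤ Cardinal.mk T := by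
    rw [Cardinal.aleph_one_le_iff]
    rw [← not_le, Cardinal.le_aleph0_iff_set_countable]
    exact hT
  obtain ⟨D', hD'D, hD'⟩ := Cardinal.le_mk_iff_exists_subset.1 h1
  have hunc : Uncountable D' := by
    rw [← Cardinal.aleph0_lt_mk_iff, hD']
    exact Cardinal.aleph0_lt_aleph_one
  have h2 : Cardinal.mk D' ≤ Cardinal.mk (ℕ → Bool) := by
    rw [hD']
    have h3 : Cardinal.mk (ℕ → Bool) = Cardinal.continuum := by simp
    rw [h3]
    exact Cardinal.aleph_one_le_continuum
  obtain ⟨κ⟩ := h2
  exact ⟨D', hD'D, hunc, κ, κ.injective⟩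

lemma exists_infinite_fiber {ι : Type} [Uncountable ι] (g : ι → ℕ) :
    ∃ k, {x | g x = k}.Infinite := by
  by_contra hcon
  push Not at hcon
  have h1 : (univ : Set ι).Countable := by
    have h2 : (univ : Set ι) = ⋃ k, {x | g x = k} := by
      ext x
      simp
    rw [h2]
    exact countable_iUnion (fun k => (hcon k).countable)
  exact not_countable_univ h1

lemma exists_agree {ι : Type} {κ : ι → ℕ → Bool} (hκ : Function.Injective κ) {S : Set ι}
    (hS : S.Infinite) (k : ℕ) : ∃ x ∈ S, ∃ y ∈ S, x ≠ y ∧ k ≤ PiNat.firstDiff (κ x) (κ y) := by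
  obtain ⟨x, hx, y, hy, hxy, hxy'⟩ := hS.exists_ne_map_eq_of_mapsTo
    (f := fun x => fun j : Fin k => κ x j) (t := univ) (fun _ _ => trivial) (toFinite _)
  refine ⟨x, hx, y, hy, hxy, ?_⟩
  by_contra hlt
  push Not at hlt
  exact PiNat.apply_firstDiff_ne (hκ.ne hxy) (congrFun hxy' ⟨_, hlt⟩)

section kstar

variable {X N : Type} [TopologicalSpace X] [T35Space X] [MetricSpace N] {f : N → X} {s : X → N}
  {V : Type} [AddCommGroup V] [Module ℝ V] [TopologicalSpace V] {i : X → V}

/-- The `S_{ω₁} × S_{ω₁}` argument. -/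
lemma KStar.countable_meet (D : KStar f s) (hX : KSpace X) (h : IsFreeTVS i) {m : ℕ}
    (hm : 2 ≤ m) (hk : KSpace (sp i m)) {J : Type} (v : J → Set N) (hvo : ∀ j, IsOpen (v j))
    (hv : LocallyFinite v) {L : Set X} (hL : IsCompact L) :
    {j | (f ⁻¹' L ∩ v j).Nonempty}.Countable := by
  have := h.t2
  have := h.grp
  have := h.smul
  by_contra hunc
  obtain ⟨T, hT, hTunc, κ, hκ⟩ := exists_index hunc
  have hm1 : |(1 : ℝ)| ≤ m := by
    rw [abs_one]
    have : 1 ≤ m := by omega
    exact_mod_cast this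
  have hsum : ∀ a b : X, i a + i b ∈ sp i m := by
    intro a b
    have := two_mem (i := i) hm hm1 hm1 a b
    simpa using this
  -- the rows
  have hrow : ∀ t : T, ∃ (l : X) (y : ℕ → X), l ∈ L ∧ (∀ k, s (y k) ∈ v t) ∧
      Tendsto y atTop (𝓝 l) := by
    intro t
    obtain ⟨w, hwL, hwv⟩ := hT t.2
    obtain ⟨r, hr, hrv⟩ := Metric.isOpen_iff.1 (hvo t) w hwv
    have h1 : ∀ k : ℕ, ∃ y : X, dist (s y) w < min r (1 / ((k : ℝ) + 1)) := by
      intro k
      obtain ⟨y, hy⟩ := D.dense.exists_dist_lt w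
        (show (0:ℝ) < min r (1 / ((k : ℝ) + 1)) from lt_min hr (by positivity))
      exact ⟨y, by rw [dist_comm]; exact hy⟩
    choose y hy using h1
    refine ⟨f w, y, hwL, fun k => hrv ?_, ?_⟩
    · rw [Metric.mem_ball]
      exact (hy k).trans_le (min_le_left _ _)
    · have h1 : Tendsto (fun k => s (y k)) atTop (𝓝 w) := by
        rw [tendsto_iff_dist_tendsto_zero]
        exact squeeze_zero (fun k => dist_nonneg)
          (fun k => (hy k).le.trans (min_le_right _ _))
          (tendsto_one_div_add_atTop_nhds_zero_nat (𝕜 := ℝ))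
      have h2 := (D.cont.tendsto w).comp h1
      have h3 : (f ∘ fun k => s (y k)) = y := by
        funext k
        exact D.sec _
      rwa [h3] at h2
  choose l y hlL hyv hylim using hrow
  let Δ : T → T → ℕ := fun a b => PiNat.firstDiff (κ a) (κ b)
  let I : Type := {q : T × T // q.1 ≠ q.2}
  let P : I → X × X := fun q => (y q.1.1 (Δ q.1.1 q.1.2), y q.1.2 (Δ q.1.1 q.1.2))
  let a : I → V := fun q => i (P q).1 + i (P q).2
  -- compact sets contain finitely many of the `a q`
  have hsel : ∀ k : T → ℕ, LocallyFinite (fun t : T => ({y t (k t)} : Set X)) := by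
    intro k
    apply D.locallyFinite hX
    intro z
    obtain ⟨U, hU, hfin⟩ := hv z
    refine ⟨U, hU, ?_⟩
    have h1 := hfin.preimage (f := (Subtype.val : T → J)) Subtype.val_injective.injOn
    refine h1.subset ?_
    rintro t ⟨z', hz', hz'U⟩
    have h2 : z' = s (y t (k t)) := hz'
    exact ⟨z', by rw [h2]; exact hyv t _, hz'U⟩
  have hfin1 : ∀ K : Set V, IsCompact K →
      {t : T | ∃ t' : T, i (y t (Δ t t')) + i (y t' (Δ t t')) ∈ K}.Finite := by
    classical
    intro K hK
    let yy : T → T := fun t =>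
      if ht : ∃ t' : T, i (y t (Δ t t')) + i (y t' (Δ t t')) ∈ K then ht.choose else t
    refine (sum_finite h (fun t => y t (Δ t (yy t))) (fun t => y (yy t) (Δ t (yy t)))
      (hsel (fun t => Δ t (yy t))) hK).subset ?_
    intro t ht
    have h1 : yy t = Exists.choose ht := dif_pos ht
    have h2 := Exists.choose_spec ht
    rw [← h1] at h2
    exact h2
  have hfin : ∀ K : Set V, IsCompact K → {q | a q ∈ K}.Finite := by
    intro K hK
    have h1 := ((hfin1 K hK).prod (hfin1 K hK)).preimage
      (f := (Subtype.val : I → T × T)) Subtype.val_injective.injOn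
    refine h1.subset ?_
    intro q hq
    refine ⟨⟨q.1.2, hq⟩, ⟨q.1.1, ?_⟩⟩
    have h2 : Δ q.1.2 q.1.1 = Δ q.1.1 q.1.2 := PiNat.firstDiff_comm _ _
    rw [h2, add_comm]
    exact hq
  -- a point of `L × L` is a limit
  have key : ∀ p : X × X, ∃ O : Set (X × X), p ∈ L ×ˢ L → IsOpen O ∧ p ∈ O ∧
      {q | P q ∈ O}.Finite := by
    intro p
    by_cases hp : p ∈ L ×ˢ L
    · by_contra hcon
      push Not at hcon
      refine not_kSpace_index a (fun q => hsum _ _) (p := i p.1 + i p.2) (hsum _ _) ?_ hfin hk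
      intro W hW
      have h1 : Continuous (fun z : X × X => i z.1 + i z.2) :=
        (h.cont.comp continuous_fst).add (h.cont.comp continuous_snd)
      have h2 : (fun z : X × X => i z.1 + i z.2) ⁻¹' W ∈ 𝓝 p := h1.continuousAt hW
      obtain ⟨O, hOW, hO, hpO⟩ := mem_nhds_iff.1 h2
      have h3 := (hcon O).2 hO hpO
      exact Set.Infinite.mono (fun q hq => hOW hq) h3
    · exact ⟨univ, fun hp' => absurd hp' hp⟩
  choose O hO using key
  obtain ⟨t, ht, hcov⟩ := (hL.prod hL).elim_nhds_subcover O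
    (fun p hp => (hO p hp).1.mem_nhds (hO p hp).2.1)
  have hOopen : IsOpen (⋃ p ∈ t, O p) := isOpen_biUnion (fun p hp => (hO p (ht p hp)).1)
  have hOfin : {q | P q ∈ ⋃ p ∈ t, O p}.Finite := by
    have h1 : (⋃ p ∈ (t : Set (X × X)), {q | P q ∈ O p}).Finite :=
      t.finite_toSet.biUnion (fun p hp => (hO p (ht p hp)).2.2)
    refine h1.subset ?_
    intro q hq
    obtain ⟨p, hp, hpq⟩ := mem_iUnion₂.1 hq
    exact mem_biUnion (show p ∈ (t : Set (X × X)) from hp) hpq
  obtain ⟨U₁, U₂, hU₁, hU₂, hLU₁, hLU₂, hUO⟩ := generalized_tube_lemma hL hL hOopen hcov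
  have hg : ∀ t : T, ∃ g : ℕ, ∀ k ≥ g, y t k ∈ U₁ ∩ U₂ := fun t =>
    eventually_atTop.1 ((hylim t).eventually ((hU₁.inter hU₂).mem_nhds
      ⟨hLU₁ (hlL t), hLU₂ (hlL t)⟩))
  choose g hg using hg
  obtain ⟨k, hkinf⟩ := exists_infinite_fiber g
  have hE' : ((fun q : I => q.1.1) '' {q | P q ∈ ⋃ p ∈ t, O p}).Finite := hOfin.image _
  obtain ⟨x, hx, x', hx', hxx', hΔ⟩ := exists_agree hκ (hkinf.sdiff hE') k
  apply hx.2
  refine ⟨⟨(x, x'), hxx'⟩, ?_, rfl⟩
  apply hUO
  have hxk : g x = k := hx.1
  have hx'k : g x' = k := hx'.1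
  exact ⟨(hg x _ (by rw [hxk]; exact hΔ)).1, (hg x' _ (by rw [hx'k]; exact hΔ)).2⟩

lemma countable_reach {J : Type} {R : J → J → Prop} (hR : ∀ z, {z' | R z z'}.Countable) (z : J) :
    {z' | Relation.ReflTransGen R z z'}.Countable := by
  let A : ℕ → Set J := fun n => Nat.rec {z} (fun _ S => ⋃ y ∈ S, {z' | R y z'}) n
  have hA : ∀ n, (A n).Countable := by
    intro n
    induction n with
    | zero => exact countable_singleton z
    | succ n ih => exact ih.biUnion (fun y _ => hR y)
  refine (countable_iUnion hA).mono ?_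
  intro z' hz'
  have hz'' : Relation.ReflTransGen R z z' := hz'
  clear hz'
  induction hz'' with
  | refl => exact mem_iUnion.2 ⟨0, rfl⟩
  | tail _ hbc ih =>
    obtain ⟨n, hn⟩ := mem_iUnion.1 ih
    exact mem_iUnion.2 ⟨n + 1, mem_biUnion hn hbc⟩

lemma reach_symm {J : Type} {R : J → J → Prop} (hs : ∀ a b, R a b → R b a) {a b : J}
    (h : Relation.ReflTransGen R a b) : Relation.ReflTransGen R b a := by
  induction h with
  | refl => exact Relation.ReflTransGen.refl
  | tail _ hbc ih => exact (Relation.ReflTransGen.single (hs _ _ hbc)).trans ih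

/-- Second part: if `N` is locally compact then it is sigma-compact. -/
theorem KStar.sigmaCompact (D : KStar f s) (h : IsFreeTVS i) {m : ℕ} (hm : 2 ≤ m)
    (hk : KSpace (sp i m)) [LocallyCompactSpace N] : SigmaCompactSpace N := by
  classical
  have hX : KSpace X := kSpace_base h (by omega) hk
  choose C hC hzC using fun z : N => exists_compact_mem_nhds z
  obtain ⟨v, hvo, hvcov, hvlf, hvu⟩ := precise_refinement (fun z : N => interior (C z))
    (fun z => isOpen_interior) (by
      rw [eq_univ_iff_forall]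
      exact fun z => mem_iUnion.2 ⟨z, mem_interior_iff_mem_nhds.2 (hzC z)⟩)
  have hvC : ∀ z, v z ⊆ C z := fun z => (hvu z).trans interior_subset
  let R : N → N → Prop := fun z z' => (f '' (v z) ∩ f '' (v z')).Nonempty
  have hRsymm : ∀ z z', R z z' → R z' z := by
    intro z z' hzz
    change (f '' (v z') ∩ f '' (v z)).Nonempty
    rw [inter_comm]
    exact hzz
  have hRc : ∀ z, {z' | R z z'}.Countable := by
    intro z
    refine (D.countable_meet hX h hm hk v hvo hvlf ((hC z).image D.cont)).mono ?_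
    rintro z' ⟨x, ⟨a, ha, hax⟩, ⟨b, hb, hbx⟩⟩
    exact ⟨b, ⟨a, hvC z ha, by rw [hax, hbx]⟩, hb⟩
  let sd : Setoid N := ⟨Relation.ReflTransGen R, ⟨fun _ => Relation.ReflTransGen.refl,
    fun hab => reach_symm hRsymm hab,
    fun hab hbc => hab.trans hbc⟩⟩
  have hcov : ∀ z : N, ∃ z', z ∈ v z' := fun z => by
    have : z ∈ ⋃ z', v z' := by rw [hvcov]; trivial
    exact mem_iUnion.1 this
  choose zz hzz using hcov
  let cl : X → Quotient sd := fun x => Quotient.mk sd (zz (s x))
  have hcl : ∀ a z, a ∈ v z → cl (f a) = Quotient.mk sd z := by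
    intro a z haz
    apply Quotient.sound
    apply Relation.ReflTransGen.single
    refine ⟨f a, ⟨s (f a), hzz _, D.sec _⟩, ⟨a, haz, rfl⟩⟩
  have hopen : ∀ A : Set (Quotient sd), IsOpen (cl ⁻¹' A) := by
    intro A
    apply D.quotient hX
    have h1 : f ⁻¹' (cl ⁻¹' A) = ⋃ z ∈ {z | Quotient.mk sd z ∈ A}, v z := by
      ext a
      constructor
      · intro ha
        refine mem_biUnion (x := zz a) ?_ (hzz a)
        change Quotient.mk sd (zz a) ∈ A
        rw [← hcl a (zz a) (hzz a)]
        exact ha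
      · intro ha
        obtain ⟨z, hz, haz⟩ := mem_iUnion₂.1 ha
        change cl (f a) ∈ A
        rw [hcl a z haz]
        exact hz
    rw [h1]
    exact isOpen_biUnion (fun z _ => hvo z)
  have hrange : (range cl).Countable := by
    by_contra hunc
    obtain ⟨T, hT, hTunc, κ, hκ⟩ := exists_index hunc
    choose u hu using fun t : T => hT t.2
    refine not_kSpace_of_uncountable h hm κ hκ u ?_ hk
    intro c
    let G : Quotient sd → ℝ := fun q => if hq : q ∈ T then max (c ⟨q, hq⟩) 0 else 0
    refine ⟨fun x => G (cl x), ?_, ?_, ?_⟩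
    · rw [continuous_def]
      intro U _
      exact hopen (G ⁻¹' U)
    · intro x
      simp only [G]
      split_ifs
      · exact le_max_right _ _
      · exact le_rfl
    · intro t
      have h1 : G (cl (u t)) = max (c t) 0 := by
        rw [hu t]
        simp only [G]
        rw [dif_pos t.2]
      change c t ≤ G (cl (u t))
      rw [h1]
      exact le_max_left _ _
  have hI : {z | (v z).Nonempty}.Countable := by
    have h1 : (⋃ q ∈ range cl, {z | Quotient.mk sd z = q}).Countable := by
      refine hrange.biUnion (fun q _ => ?_)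
      obtain ⟨z0, rfl⟩ := Quotient.exists_rep q
      refine (countable_reach hRc z0).mono ?_
      intro z hz
      exact reach_symm hRsymm (Quotient.exact hz)
    refine h1.mono ?_
    rintro z ⟨a, ha⟩
    exact mem_biUnion (⟨f a, rfl⟩ : cl (f a) ∈ range cl) (hcl a z ha).symm
  refine SigmaCompactSpace.of_countable (C '' {z | (v z).Nonempty}) (hI.image _) ?_ ?_
  · rintro _ ⟨z, -, rfl⟩
    exact hC z
  · rw [eq_univ_iff_forall]
    intro a
    exact mem_sUnion.2 ⟨C (zz a), ⟨zz a, ⟨a, hzz a⟩, rfl⟩, hvC _ (hzz a)⟩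

lemma of_isEmpty [IsEmpty X] (h : IsFreeTVS i) :
    KOmegaSpace V ∧ KSpace V ∧ ∀ n, IsClosed (sp i n) ∧ KSpace (sp i n) := by
  have := h.t2
  have hsub : Subsingleton V := by
    have h1 := span_eq_top h
    have h2 : range i = ∅ := range_eq_empty i
    rw [h2, Submodule.span_empty] at h1
    refine ⟨fun v w => ?_⟩
    have hv : v ∈ (⊥ : Submodule ℝ V) := by rw [h1]; trivial
    have hw : w ∈ (⊥ : Submodule ℝ V) := by rw [h1]; trivial
    rw [Submodule.mem_bot] at hv hw
    rw [hv, hw]
  exact ⟨⟨fun _ => univ, fun _ => Set.subsingleton_univ.isCompact, iUnion_const univ,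
    fun C _ => isClosed_of_subsingleton C⟩, fun C _ => isClosed_of_subsingleton C,
    fun n => ⟨isClosed_of_subsingleton _, fun C _ => isClosed_of_subsingleton C⟩⟩

/-- The main theorem for k*-metrizable spaces, in terms of the data `KStar f s`. -/
theorem KStar.main (D : KStar f s) (h : IsFreeTVS i) {m : ℕ} (hm : 2 ≤ m)
    (hk : KSpace (sp i m)) : KOmegaSpace X ∧
    KOmegaSpace V ∧ KSpace V ∧ ∀ n, IsClosed (sp i n) ∧ KSpace (sp i n) := by
  have hX : KSpace X := kSpace_base h (by omega) hk
  have hlc : LocallyCompactSpace N := D.locallyCompact h hm hk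
  have hsc : SigmaCompactSpace N := D.sigmaCompact h hm hk
  let K0 : CompactExhaustion N := default
  have hquot : ∀ C : Set X, (∀ n, IsClosed ((fun z : f '' (K0 n) => (z : X)) ⁻¹' C)) →
      IsClosed C := by
    intro C hC
    rw [← isOpen_compl_iff]
    apply D.quotient hX
    rw [isOpen_iff_mem_nhds]
    intro x hx
    obtain ⟨n, hn⟩ := K0.exists_mem_nhds x
    obtain ⟨F, hF, hFC⟩ := isClosed_induced_iff.1 (hC n)
    have h1 : ∀ y ∈ K0 n, (f y ∈ F ↔ f y ∈ C) := by
      intro y hy
      have h2 := congrArg (fun S : Set (f '' (K0 n)) => (⟨f y, y, hy, rfl⟩ : f '' (K0 n)) ∈ S) hFC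
      exact iff_of_eq h2
    have hxF : x ∈ f ⁻¹' Fᶜ := by
      intro hc
      exact hx ((h1 x (mem_of_mem_nhds hn)).1 hc)
    filter_upwards [hn, (hF.isOpen_compl.preimage D.cont).mem_nhds hxF] with y hy hyF
    intro hc
    exact hyF ((h1 y hy).2 hc)
  refine ⟨⟨fun n => f '' (K0 n), fun n => (K0.isCompact n).image D.cont, ?_, hquot⟩, ?_⟩
  · rw [eq_univ_iff_forall]
    intro x
    obtain ⟨n, hn⟩ := K0.exists_mem (s x)
    exact mem_iUnion.2 ⟨n, s x, hn, D.sec x⟩
  · rcases isEmpty_or_nonempty X with hE | ⟨⟨x0⟩⟩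
    · exact of_isEmpty h
    · have mK : Monotone (fun n => insert x0 (f '' (K0 n))) := by
        intro a b hab
        exact insert_subset_insert (image_mono (K0.subset hab))
      refine kSpace_of_komega h (K := fun n => insert x0 (f '' (K0 n)))
        (fun n => ((K0.isCompact n).image D.cont).insert x0) mK
        (fun n => ⟨x0, mem_insert _ _⟩) ?_ ?_
      · intro x
        obtain ⟨n, hn⟩ := K0.exists_mem (s x)
        exact ⟨n, mem_insert_of_mem _ ⟨s x, hn, D.sec x⟩⟩
      · intro U hU
        rw [← isClosed_compl_iff]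
        apply hquot
        intro n
        obtain ⟨G, hG, hGU⟩ := hU n
        have h1 : (fun z : f '' (K0 n) => (z : X)) ⁻¹' Uᶜ =
            (fun z : f '' (K0 n) => (z : X)) ⁻¹' Gᶜ := by
          ext z
          have h2 := rel_iff hGU (mem_insert_of_mem x0 z.2)
          exact not_congr h2.symm
        rw [h1]
        exact hG.isClosed_compl.preimage continuous_subtype_val

end kstar

/-- `X` is k*-metrizable: there are a metrizable space `M`, a continuous surjection `f : M → X`
and a (not necessarily continuous) section `s` of `f` such that `s(K)` has compact closure in `M`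
for every compact `K ⊆ X`. -/
def KStarMetrizable (X : Type) [TopologicalSpace X] : Prop :=
  T2Space X ∧ ∃ (M : Type) (_ : TopologicalSpace M) (_ : MetrizableSpace M) (f : M → X)
    (s : X → M), Continuous f ∧ Function.Surjective f ∧ (∀ x, f (s x) = x) ∧
      ∀ K : Set X, IsCompact K → IsCompact (closure (s '' K))

/-- One may take the section to have dense range. -/
lemma exists_kstar {X : Type} [TopologicalSpace X] (hX : KStarMetrizable X) :
    ∃ (N : Type) (_ : MetricSpace N) (f : N → X) (s : X → N), KStar f s := by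
  obtain ⟨-, M, _, _, f, s, hf, -, hfs, hs⟩ := hX
  let _ : MetricSpace M := metrizableSpaceMetric M
  let N : Type := closure (range s)
  let s' : X → closure (range s) := fun x => ⟨s x, subset_closure ⟨x, rfl⟩⟩
  refine ⟨closure (range s), inferInstance, fun z => f z, s', ?_, ?_, ?_, ?_⟩
  · exact hf.comp continuous_subtype_val
  · intro x
    exact hfs x
  · intro z
    rw [closure_subtype]
    have h1 : Subtype.val '' (range s') = range s := by
      ext y
      constructor
      · rintro ⟨_, ⟨x, rfl⟩, rfl⟩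
        exact ⟨x, rfl⟩
      · rintro ⟨x, rfl⟩
        exact ⟨s' x, ⟨x, rfl⟩, rfl⟩
    rw [h1]
    exact z.2
  · intro K hK
    rw [Subtype.isCompact_iff]
    have h1 : Subtype.val '' (closure (s' '' K)) = closure (s '' K) := by
      have h2 : closure (Subtype.val '' (s' '' K)) = Subtype.val '' (closure (s' '' K)) :=
        (isClosed_closure.isClosedEmbedding_subtypeVal).closure_image_eq _
      rw [← h2]
      congr 1
      ext y
      constructor
      · rintro ⟨_, ⟨x, hx, rfl⟩, rfl⟩
        exact ⟨x, hx, rfl⟩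
      · rintro ⟨x, hx, rfl⟩
        exact ⟨s' x, ⟨x, hx, rfl⟩, rfl⟩
    rw [h1]
    exact hs K hK

end Pool.Agent.R819.FreeTVS
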