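import Mathlib

/-!
# A non-metrizable Rosenthal compact space

The one-point compactification of an uncountable discrete space of cardinality continuum, as the
set of the zero function and the characteristic functions of the points of the real line.
-/

set_option autoImplicit false

open Set Topology Filter TopologicalSpace

namespace Pool.Agent.R819.Rosenthal

/-- a function of the first Baire class: the pointwise limit of a sequence of continuous
functions -/
def BaireOne {M : Type*} [TopologicalSpace M] (f : M → ℝ) : Prop :=
  ∃ F : ℕ → M → ℝ, (∀ n, Continuous (F n)) ∧ ∀ x, Tendsto (fun n => F n x) atTop (𝓝 (f x))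

/-- a Rosenthal compact space: a compact space which embeds into the space of all functions of the
first Baire class on some Polish space, with the topology of pointwise convergence -/
def RosenthalCompact (K : Type*) [TopologicalSpace K] : Prop :=
  CompactSpace K ∧ ∃ (M : Type) (_ : TopologicalSpace M), PolishSpace M ∧
    ∃ e : K → M → ℝ, IsEmbedding e ∧ ∀ k, BaireOne (e k)

/-- the characteristic function of a point -/
noncomputable def χ (x : ℝ) : ℝ → ℝ := Pi.single x 1

/-- the space: zero and the characteristic functions of the points -/
def R : Set (ℝ → ℝ) := insert 0 (range χ)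

theorem R_compact : IsCompact R := by
  refine Tendsto.isCompact_insert_range_of_cofinite ?_
  rw [tendsto_pi_nhds]
  intro t
  refine tendsto_const_nhds.congr' ?_
  have h : ∀ᶠ x in cofinite, x ≠ t := by
    rw [eventually_cofinite]
    simp
  filter_upwards [h] with x hx
  simp [χ, Pi.single_apply, Ne.symm hx]

theorem baire_single (x : ℝ) : BaireOne (χ x) := by
  refine ⟨fun n t => max 0 (1 - n * |t - x|), fun n => by fun_prop, fun t => ?_⟩
  by_cases h : t = x
  · subst h
    simp [χ]
  · have h0 : 0 < |t - x| := abs_pos.2 (sub_ne_zero.2 h)
    have h1 : χ x t = 0 := by simp [χ, Pi.single_apply, h]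
    rw [h1]
    refine tendsto_const_nhds.congr' ?_
    obtain ⟨N, hN⟩ := exists_nat_gt (1 / |t - x|)
    filter_upwards [eventually_ge_atTop N] with n hn
    have h2 : 1 < n * |t - x| := by
      rw [div_lt_iff₀ h0] at hN
      calc 1 < N * |t - x| := hN
        _ ≤ n * |t - x| := by gcongr
    rw [max_eq_left (by linarith)]

theorem R_rosenthal : RosenthalCompact R := by
  refine ⟨isCompact_iff_compactSpace.1 R_compact, ℝ, inferInstance, inferInstance, fun k => k.1,
    IsEmbedding.subtypeVal, ?_⟩
  rintro ⟨f, hf | ⟨x, rfl⟩⟩
  · have hf' : f = 0 := hf
    subst hf'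
    exact ⟨fun _ _ => 0, fun _ => continuous_const, fun _ => tendsto_const_nhds⟩
  · exact baire_single x

theorem R_not_metrizable : ¬ MetrizableSpace R := by
  intro h
  have : CompactSpace R := isCompact_iff_compactSpace.1 R_compact
  letI := metrizableSpaceMetric R
  have hs : SecondCountableTopology R := inferInstance
  let p : ℝ → R := fun x => ⟨χ x, Or.inr ⟨x, rfl⟩⟩
  have hopen : ∀ x, IsOpen {f : R | 1 / 2 < f.1 x} := fun x =>
    isOpen_lt continuous_const ((continuous_apply x).comp continuous_subtype_val)
  have huniq : ∀ x y, 1 / 2 < χ y x → y = x := by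
    intro x y hxy
    by_contra h
    have h1 : χ y x = 0 := by simp [χ, Pi.single_apply, Ne.symm h]
    rw [h1] at hxy
    norm_num at hxy
  have hc : (univ : Set ℝ).Countable := by
    obtain ⟨D, hDc, hD⟩ := exists_countable_dense R
    have h1 : ∀ x : ℝ, p x ∈ D := by
      intro x
      obtain ⟨f, hf1, hf2⟩ := hD.inter_open_nonempty _ (hopen x) ⟨p x, by
        change (1 / 2 : ℝ) < χ x x
        simp [χ]
        norm_num⟩
      have hf3 : (1 / 2 : ℝ) < f.1 x := hf1
      have h2 : f = p x := by
        obtain ⟨f, hf | ⟨y, rfl⟩⟩ := f
        · have hf' : f = 0 := hf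
          subst hf'
          norm_num at hf3
        · apply Subtype.ext
          change χ y = χ x
          rw [huniq x y hf3]
      rwa [← h2]
    have h3 : Function.Injective p := by
      intro x y hxy
      have h4 : χ x = χ y := congrArg Subtype.val hxy
      refine (huniq y x ?_)
      rw [h4]
      simp [χ]
      norm_num
    have h5 : (p '' univ).Countable := hDc.mono (by
      rintro _ ⟨x, _, rfl⟩
      exact h1 x)
    exact (countable_of_injective_of_countable_image h3.injOn h5)
  exact Set.not_countable_univ hc

end Pool.Agent.R819.Rosenthal
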