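import Mathlib

/-!
# The compact convex set of all nonnegative functions with sum at most one
-/

set_option autoImplicit false

open Set Topology Filter TopologicalSpace

namespace Pool.Agent.R819.SC

/-- `f` is scatteredly continuous: for each nonempty `A` the restriction of `f` to `A` has a point of
continuity -/
def ScatCont {X : Type*} [TopologicalSpace X] (f : X → ℝ) : Prop :=
  ∀ A : Set X, A.Nonempty → ∃ a ∈ A, ContinuousWithinAt f A a

theorem cwa {X : Type*} [TopologicalSpace X] {f : X → ℝ} {A : Set X} {a : X} (U : Set X)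
    (hU : IsOpen U) (haU : a ∈ U) (h : ∀ y ∈ A, y ∈ U → f y = f a) : ContinuousWithinAt f A a := by
  have h1 : Tendsto (fun _ : X => f a) (𝓝[A] a) (𝓝 (f a)) := tendsto_const_nhds
  refine h1.congr' ?_
  filter_upwards [self_mem_nhdsWithin, mem_nhdsWithin_of_mem_nhds (hU.mem_nhds haU)] with y h1 h2
  exact (h y h1 h2).symm

/-- the set of all nonnegative functions on `Γ` whose sum is at most one -/
def Sig (Γ : Type*) : Set (Γ → ℝ) := {f | (∀ x, 0 ≤ f x) ∧ ∀ F : Finset Γ, ∑ x ∈ F, f x ≤ 1}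

variable {Γ : Type*}

theorem sig_le {f : Γ → ℝ} (hf : f ∈ Sig Γ) (x : Γ) : f x ≤ 1 := by
  simpa using hf.2 {x}

theorem isCompact_sig : IsCompact (Sig Γ) := by
  have h1 : Sig Γ ⊆ univ.pi fun _ : Γ => Icc (0 : ℝ) 1 := fun f hf x _ => ⟨hf.1 x, sig_le hf x⟩
  have h2 : IsClosed (Sig Γ) := by
    have h3 : Sig Γ = (⋂ x, {f : Γ → ℝ | 0 ≤ f x}) ∩
        ⋂ F : Finset Γ, {f : Γ → ℝ | ∑ x ∈ F, f x ≤ 1} := by
      ext f
      simp [Sig]
    rw [h3]
    refine IsClosed.inter (isClosed_iInter fun x => ?_) (isClosed_iInter fun F => ?_)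
    · exact isClosed_le continuous_const (continuous_apply x)
    · exact isClosed_le (continuous_finsetSum _ fun x _ => continuous_apply x) continuous_const
  exact (isCompact_univ_pi fun _ => isCompact_Icc).of_isClosed_subset h2 h1

theorem convex_sig : Convex ℝ (Sig Γ) := by
  intro f hf g hg a b ha hb hab
  refine ⟨fun x => ?_, fun F => ?_⟩
  · have h1 := mul_nonneg ha (hf.1 x)
    have h2 := mul_nonneg hb (hg.1 x)
    simpa using add_nonneg h1 h2
  · have h1 := mul_le_mul_of_nonneg_left (hf.2 F) ha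
    have h2 := mul_le_mul_of_nonneg_left (hg.2 F) hb
    simp only [Pi.add_apply, Pi.smul_apply, smul_eq_mul, Finset.sum_add_distrib, ← Finset.mul_sum]
    linarith

open Classical in
/-- the characteristic function of a point -/
noncomputable def e (x : Γ) : Γ → ℝ := Pi.single x 1

theorem e_self (x : Γ) : e x x = 1 := by simp [e]

theorem e_ne {x y : Γ} (h : y ≠ x) : e x y = 0 := by simp [e, h]

theorem e_mem (x : Γ) : e x ∈ Sig Γ := by
  classical
  refine ⟨fun y => ?_, fun F => ?_⟩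
  · by_cases h : y = x
    · rw [h, e_self]
      exact zero_le_one
    · rw [e_ne h]
  · by_cases hx : x ∈ F
    · rw [Finset.sum_eq_single x (fun y _ hy => e_ne hy) (fun h => absurd hx h), e_self]
    · rw [Finset.sum_eq_zero fun y hy => e_ne (fun h => hx (by rwa [← h]))]
      exact zero_le_one

theorem finite_gt {f : Γ → ℝ} (hf : f ∈ Sig Γ) (n : ℕ) : {x | 1 / ((n : ℝ) + 1) < f x}.Finite := by
  by_contra h
  obtain ⟨F, hF, hc⟩ := (show {x | 1 / ((n : ℝ) + 1) < f x}.Infinite from h).exists_subset_card_eq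
    (n + 1)
  have h1 := hf.2 F
  have h2 : ∑ x ∈ F, 1 / ((n : ℝ) + 1) < ∑ x ∈ F, f x := by
    refine Finset.sum_lt_sum_of_nonempty ?_ fun x hx => hF hx
    rw [← Finset.card_pos, hc]
    exact Nat.succ_pos n
  rw [Finset.sum_const, hc, nsmul_eq_mul] at h2
  have h3 : ((n + 1 : ℕ) : ℝ) * (1 / ((n : ℝ) + 1)) = 1 := by
    push_cast
    field_simp
  rw [h3] at h2
  linarith

theorem countable_supp {f : Γ → ℝ} (hf : f ∈ Sig Γ) : {x | f x ≠ 0}.Countable := by
  have h1 : {x | f x ≠ 0} ⊆ ⋃ n : ℕ, {x | 1 / ((n : ℝ) + 1) < f x} := by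
    intro x hx
    have h2 : 0 < f x := lt_of_le_of_ne (hf.1 x) (Ne.symm hx)
    obtain ⟨n, hn⟩ := exists_nat_one_div_lt h2
    exact mem_iUnion.2 ⟨n, hn⟩
  exact (countable_iUnion fun n => (finite_gt hf n).countable).mono h1

/-- a map from `Γ` to a base of the space `Sig Γ` -/
theorem card_base (B : Set (Set (Sig Γ))) (hB : IsTopologicalBasis B) :
    ∃ b : Γ → B, Function.Injective b := by
  have hopen : ∀ x : Γ, IsOpen {f : Sig Γ | 1 / 2 < f.1 x} := fun x =>
    isOpen_lt continuous_const ((continuous_apply x).comp continuous_subtype_val)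
  have h1 : ∀ x : Γ, ∃ b ∈ B, (⟨e x, e_mem x⟩ : Sig Γ) ∈ b ∧ b ⊆ {f : Sig Γ | 1 / 2 < f.1 x} := by
    intro x
    refine hB.exists_subset_of_mem_open ?_ (hopen x)
    change (1 / 2 : ℝ) < e x x
    rw [e_self]
    norm_num
  choose b hb hb1 hb2 using h1
  refine ⟨fun x => ⟨b x, hb x⟩, fun x y hxy => ?_⟩
  have h2 : b x = b y := congrArg Subtype.val hxy
  by_contra hne
  have h3 : (⟨e x, e_mem x⟩ : Sig Γ) ∈ b y := by
    rw [← h2]
    exact hb1 x
  have h4 : (1 / 2 : ℝ) < e x y := hb2 y h3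
  rw [e_ne (Ne.symm hne)] at h4
  norm_num at h4

theorem not_metrizable [Uncountable Γ] : ¬ MetrizableSpace (Sig Γ) := by
  intro h
  have : CompactSpace (Sig Γ) := isCompact_iff_compactSpace.1 isCompact_sig
  let _ := metrizableSpaceMetric (Sig Γ)
  have hs : SecondCountableTopology (Sig Γ) := inferInstance
  obtain ⟨B, hBc, _, hB⟩ := exists_countable_basis (Sig Γ)
  obtain ⟨b, hb⟩ := card_base B hB
  have : Countable B := hBc
  have h2 : Countable Γ := hb.countable
  exact not_countable h2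

end Pool.Agent.R819.SC
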