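import Mathlib

/-!
# Set-self-Tietze spaces

Definitions, and the theorem that a Hausdorff set-self-Tietze space is completely normal.
-/

set_option autoImplicit false

open Set Topology Filter

namespace Pool.Agent.R819.SST

/-- `2^X`: the nonempty closed subsets of `X` -/
def Hyper (X : Type*) [TopologicalSpace X] : Type _ := {C : Set X // C.Nonempty ∧ IsClosed C}

/-- upper semicontinuity of a map `F : Y → 2^X`: for every open `U` the set of all `y` with
`F y ⊆ U` is open -/
def USC {Y X : Type*} [TopologicalSpace Y] [TopologicalSpace X] (F : Y → Hyper X) : Prop :=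
  ∀ U : Set X, IsOpen U → IsOpen {y | (F y).1 ⊆ U}

/-- `X` is set-self-Tietze: for every closed `A`, every upper semicontinuous map `A → 2^X` extends
to an upper semicontinuous map `X → 2^X` -/
def SetSelfTietze (X : Type*) [TopologicalSpace X] : Prop :=
  ∀ A : Set X, IsClosed A → ∀ f : A → Hyper X, USC f →
    ∃ F : X → Hyper X, USC F ∧ ∀ a : A, F a = f a

/-- A Hausdorff set-self-Tietze space is completely normal. -/
theorem completelyNormal {X : Type*} [TopologicalSpace X] [T2Space X] (h : SetSelfTietze X) :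
    CompletelyNormalSpace X := by
  refine ⟨fun P Q hPQ hQP => ?_⟩
  rcases subsingleton_or_nontrivial X with hX | hX
  · rcases P.eq_empty_or_nonempty with hP | ⟨p, hp⟩
    · simp [hP]
    · rcases Q.eq_empty_or_nonempty with hQ | ⟨q, hq⟩
      · simp [hQ]
      · rw [Subsingleton.elim p q] at hp
        exact absurd hq (Set.disjoint_left.1 hPQ (subset_closure hp))
  · obtain ⟨c, d, hcd⟩ := exists_pair_ne X
    obtain ⟨U, V, hU, hV, hc, hd, hUV⟩ := t2_separation hcd
    let A : Set X := closure P ∪ closure Q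
    have hA : IsClosed A := isClosed_closure.union isClosed_closure
    let fs : A → Set X := fun a => {z | (a.1 ∈ closure P ∧ z = c) ∨ (a.1 ∈ closure Q ∧ z = d)}
    have hne : ∀ a, (fs a).Nonempty := by
      intro a
      rcases a.2 with ha | ha
      · exact ⟨c, Or.inl ⟨ha, rfl⟩⟩
      · exact ⟨d, Or.inr ⟨ha, rfl⟩⟩
    have hcl : ∀ a, IsClosed (fs a) := by
      intro a
      refine Set.Finite.isClosed (Set.Finite.subset (Set.toFinite {c, d}) ?_)
      rintro z (⟨_, hz⟩ | ⟨_, hz⟩)
      · exact Or.inl hz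
      · exact Or.inr hz
    let f : A → Hyper X := fun a => ⟨fs a, hne a, hcl a⟩
    have hf : USC f := by
      intro W hW
      have h1 : {a : A | (f a).1 ⊆ W}
          = {a : A | a.1 ∈ closure P → c ∈ W} ∩ {a : A | a.1 ∈ closure Q → d ∈ W} := by
        ext a
        constructor
        · intro ha
          exact ⟨fun h2 => ha (Or.inl ⟨h2, rfl⟩), fun h2 => ha (Or.inr ⟨h2, rfl⟩)⟩
        · rintro ⟨h2, h3⟩ z (⟨h4, rfl⟩ | ⟨h4, rfl⟩)
          · exact h2 h4
          · exact h3 h4
      rw [h1]
      have h2 : ∀ (C : Set X) (p : Prop), IsClosed C → IsOpen {a : A | a.1 ∈ C → p} := by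
        intro C p hC
        by_cases hp : p
        · simp [hp]
        · simp only [hp, imp_false]
          exact hC.isOpen_compl.preimage continuous_subtype_val
      exact (h2 _ _ isClosed_closure).inter (h2 _ _ isClosed_closure)
    obtain ⟨F, hF, hFf⟩ := h A hA f hf
    rw [Filter.disjoint_iff]
    refine ⟨{x | (F x).1 ⊆ U}, ?_, {x | (F x).1 ⊆ V}, ?_, ?_⟩
    · refine (hF U hU).mem_nhdsSet.2 fun p hp => ?_
      have h3 := hFf ⟨p, Or.inl (subset_closure hp)⟩
      change (F p).1 ⊆ U
      rw [h3]
      rintro z (⟨_, hz⟩ | ⟨hz, _⟩)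
      · rw [hz]
        exact hc
      · exact absurd hz (Set.disjoint_left.1 hQP hp)
    · refine (hF V hV).mem_nhdsSet.2 fun q hq => ?_
      have h3 := hFf ⟨q, Or.inr (subset_closure hq)⟩
      change (F q).1 ⊆ V
      rw [h3]
      rintro z (⟨hz, _⟩ | ⟨_, hz⟩)
      · exact absurd hq (Set.disjoint_left.1 hPQ hz)
      · rw [hz]
        exact hd
    · rw [Set.disjoint_left]
      intro x hx1 hx2
      obtain ⟨z, hz⟩ := (F x).2.1
      exact Set.disjoint_left.1 hUV (hx1 hz) (hx2 hz)

end Pool.Agent.R819.SST
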