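import Mathlib
import Pool.Agent.R819.BaireHier

/-!
# Iterated limits as values of separately continuous functions

For each `h : X → [0,1]` which is an `m`-fold iterated limit of continuous functions there is a family
`θ x` (`x ∈ X`) of separately continuous functions on `ℝ^m` with `θ x 0 = h x`, such that `θ x t` depends
continuously on `x` for each point `t` without zero coordinates.
-/

set_option autoImplicit false

open Set Topology Filter

namespace Pool.Agent.R819.SepInterp

open Pool.Agent.R819.BaireHier

/-- piecewise linear interpolation of a sequence -/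
noncomputable def J (a : ℕ → ℝ) (s : ℝ) : ℝ :=
  (1 - Int.fract s) * a ⌊s⌋₊ + Int.fract s * a (⌊s⌋₊ + 1)

/-- a clamped variable -/
noncomputable def cl (s : ℝ) : ℝ := min 1 (max 0 s)

theorem continuous_cl : Continuous cl := continuous_const.min (continuous_const.max continuous_id)

theorem cl_of_nonpos {s : ℝ} (h : s ≤ 0) : cl s = 0 := by
  rw [cl, max_eq_left h]
  norm_num

theorem cl_of_one_le {s : ℝ} (h : 1 ≤ s) : cl s = 1 := by
  rw [cl, max_eq_right (by linarith), min_eq_left h]

theorem cl_of_mem {s : ℝ} (h0 : 0 ≤ s) (h : s ≤ 1) : cl s = s := by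
  rw [cl, max_eq_right h0, min_eq_right h]

theorem J_eq (a : ℕ → ℝ) (N : ℕ) (s : ℝ) (hs : 0 ≤ s) :
    a 0 + ∑ k ∈ Finset.range N, (a (k + 1) - a k) * cl (s - k) = if s < N then J a s else a N := by
  induction N with
  | zero =>
    rw [if_neg (by simpa using hs)]
    simp
  | succ N ih =>
    rw [Finset.sum_range_succ, ← add_assoc, ih]
    by_cases h1 : s < N
    · rw [if_pos h1, if_pos (by push_cast; linarith), cl_of_nonpos (by linarith)]
      ring
    · rw [if_neg h1]
      have h1' : (N : ℝ) ≤ s := not_lt.1 h1
      by_cases h2 : s < (N + 1 : ℕ)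
      · rw [if_pos h2]
        push_cast at h2
        have h3 : ⌊s⌋₊ = N := (Nat.floor_eq_iff hs).2 ⟨h1', h2⟩
        have h4 : Int.fract s = s - N := by
          rw [← Int.self_sub_floor, ← natCast_floor_eq_intCast_floor hs, h3]
        rw [J, h3, h4, cl_of_mem (by linarith) (by linarith)]
        ring
      · rw [if_neg h2, cl_of_one_le (by
          push_cast at h2
          linarith)]
        ring

theorem continuousAt_J (a : ℕ → ℝ) {s : ℝ} (hs : 0 < s) : ContinuousAt (J a) s := by
  obtain ⟨N, hN⟩ := exists_nat_gt s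
  have h1 : Continuous fun s : ℝ => a 0 + ∑ k ∈ Finset.range N, (a (k + 1) - a k) * cl (s - k) :=
    continuous_const.add (continuous_finsetSum _ fun k _ =>
      continuous_const.mul (continuous_cl.comp (continuous_id.sub continuous_const)))
  refine (h1.continuousAt (x := s)).congr ?_
  filter_upwards [Ioo_mem_nhds hs hN] with r hr
  rw [J_eq a N r hr.1.le, if_pos hr.2]

theorem J_mem {a : ℕ → ℝ} (ha : ∀ k, a k ∈ Icc (0 : ℝ) 1) (s : ℝ) : J a s ∈ Icc (0 : ℝ) 1 := by
  have h1 := Int.fract_nonneg s
  have h2 := (Int.fract_lt_one s).le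
  constructor
  · exact add_nonneg (mul_nonneg (by linarith) (ha _).1) (mul_nonneg h1 (ha _).1)
  · have h3 : (1 - Int.fract s) * a ⌊s⌋₊ ≤ (1 - Int.fract s) * 1 :=
      mul_le_mul_of_nonneg_left (ha _).2 (by linarith)
    have h4 : Int.fract s * a (⌊s⌋₊ + 1) ≤ Int.fract s * 1 := mul_le_mul_of_nonneg_left (ha _).2 h1
    rw [J]
    linarith

theorem tendsto_J {a : ℕ → ℝ} {l : ℝ} (ha : Tendsto a atTop (𝓝 l)) : Tendsto (J a) atTop (𝓝 l) := by
  have h1 : Tendsto (fun s : ℝ => a ⌊s⌋₊) atTop (𝓝 l) := ha.comp tendsto_nat_floor_atTop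
  have h2 : Tendsto (fun s : ℝ => a (⌊s⌋₊ + 1)) atTop (𝓝 l) :=
    ((tendsto_add_atTop_iff_nat 1).2 ha).comp tendsto_nat_floor_atTop
  rw [Metric.tendsto_atTop] at h1 h2 ⊢
  intro ε hε
  obtain ⟨N1, hN1⟩ := h1 ε hε
  obtain ⟨N2, hN2⟩ := h2 ε hε
  refine ⟨max N1 N2, fun s hs => ?_⟩
  have h3 := hN1 s ((le_max_left _ _).trans hs)
  have h4 := hN2 s ((le_max_right _ _).trans hs)
  rw [Real.dist_eq] at h3 h4 ⊢
  have h5 : J a s - l = (1 - Int.fract s) * (a ⌊s⌋₊ - l) + Int.fract s * (a (⌊s⌋₊ + 1) - l) := by
    rw [J]
    ring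
  have h6 := Int.fract_nonneg s
  have h7 := Int.fract_lt_one s
  rw [h5]
  calc |(1 - Int.fract s) * (a ⌊s⌋₊ - l) + Int.fract s * (a (⌊s⌋₊ + 1) - l)|
      ≤ |(1 - Int.fract s) * (a ⌊s⌋₊ - l)| + |Int.fract s * (a (⌊s⌋₊ + 1) - l)| := abs_add_le _ _
    _ = (1 - Int.fract s) * |a ⌊s⌋₊ - l| + Int.fract s * |a (⌊s⌋₊ + 1) - l| := by
      rw [abs_mul, abs_mul, abs_of_nonneg h6, abs_of_nonneg (by linarith : 0 ≤ 1 - Int.fract s)]
    _ < (1 - Int.fract s) * ε + Int.fract s * ε := by
      refine add_lt_add_of_lt_of_le (mul_lt_mul_of_pos_left h3 (by linarith)) ?_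
      exact mul_le_mul_of_nonneg_left h4.le h6
    _ = ε := by ring

/-- separately continuous functions on `ℝ^m` -/
def SepC {m : ℕ} (f : (Fin m → ℝ) → ℝ) : Prop :=
  ∀ (x : Fin m → ℝ) (i : Fin m), Continuous fun t : ℝ => f (Function.update x i t)

/-- the weights -/
noncomputable def w {m : ℕ} (t : Fin m → ℝ) (i : Fin m) : ℝ := |t i| / ∑ j, |t j|

theorem sum_pos_of_ne {m : ℕ} {t : Fin m → ℝ} (ht : t ≠ 0) : 0 < ∑ j, |t j| := by
  obtain ⟨i, hi⟩ := Function.ne_iff.1 ht
  exact Finset.sum_pos' (fun j _ => abs_nonneg _) ⟨i, Finset.mem_univ _, abs_pos.2 hi⟩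

theorem w_nonneg {m : ℕ} (t : Fin m → ℝ) (i : Fin m) : 0 ≤ w t i :=
  div_nonneg (abs_nonneg _) (Finset.sum_nonneg fun _ _ => abs_nonneg _)

theorem sum_w {m : ℕ} {t : Fin m → ℝ} (ht : t ≠ 0) : ∑ i, w t i = 1 := by
  simp only [w]
  rw [← Finset.sum_div, div_self (sum_pos_of_ne ht).ne']

theorem continuousAt_w {m : ℕ} {t : Fin m → ℝ} (ht : t ≠ 0) (i : Fin m) :
    ContinuousAt (fun t : Fin m → ℝ => w t i) t := by
  refine ContinuousAt.div (continuous_abs.comp (continuous_apply i)).continuousAt ?_
    (sum_pos_of_ne ht).ne'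
  exact (continuous_finsetSum _ fun j _ => continuous_abs.comp (continuous_apply j)).continuousAt

/-- the recursive step -/
noncomputable def glue {m : ℕ} (h : ℝ) (f : ℕ → (Fin m → ℝ) → ℝ) (t : Fin (m + 1) → ℝ) : ℝ :=
  open Classical in
  if t = 0 then h else ∑ i, w t i * J (fun k => f k (i.removeNth t)) (1 / |t i|)

theorem glue_zero {m : ℕ} (h : ℝ) (f : ℕ → (Fin m → ℝ) → ℝ) : glue h f 0 = h := if_pos rfl

theorem glue_of_ne {m : ℕ} (h : ℝ) (f : ℕ → (Fin m → ℝ) → ℝ) {t : Fin (m + 1) → ℝ} (ht : t ≠ 0) :
    glue h f t = ∑ i, w t i * J (fun k => f k (i.removeNth t)) (1 / |t i|) := if_neg ht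

theorem glue_mem {m : ℕ} {h : ℝ} (hh : h ∈ Icc (0 : ℝ) 1) {f : ℕ → (Fin m → ℝ) → ℝ}
    (hf : ∀ k t, f k t ∈ Icc (0 : ℝ) 1) (t : Fin (m + 1) → ℝ) : glue h f t ∈ Icc (0 : ℝ) 1 := by
  by_cases ht : t = 0
  · rw [ht, glue_zero]
    exact hh
  · rw [glue_of_ne h f ht]
    constructor
    · exact Finset.sum_nonneg fun i _ => mul_nonneg (w_nonneg t i) (J_mem (fun k => hf k _) _).1
    · rw [← sum_w ht]
      refine Finset.sum_le_sum fun i _ => ?_
      exact mul_le_of_le_one_right (w_nonneg t i) (J_mem (fun k => hf k _) _).2

theorem glue_sepC {m : ℕ} {h : ℝ} {f : ℕ → (Fin m → ℝ) → ℝ}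
    (hf : ∀ k t, f k t ∈ Icc (0 : ℝ) 1) (hfs : ∀ k, SepC (f k))
    (hlim : Tendsto (fun k => f k 0) atTop (𝓝 h)) : SepC (glue h f) := by
  intro x j
  rw [continuous_iff_continuousAt]
  intro s0
  have hu : Continuous fun s : ℝ => Function.update x j s := continuous_const.update j continuous_id
  by_cases ht : Function.update x j s0 = 0
  · -- the point zero
    have hs0 : s0 = 0 := by
      have := congrFun ht j
      simpa using this
    have hx : ∀ i, i ≠ j → x i = 0 := fun i hi => by
      have := congrFun ht i
      simpa [Function.update_of_ne hi] using this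
    have hr : j.removeNth x = 0 := by
      funext i
      exact hx _ (Fin.succAbove_ne j i)
    subst hs0
    rw [ContinuousAt]
    have h1 : glue h f (Function.update x j 0) = h := by rw [ht, glue_zero]
    rw [show glue h f (Function.update x j (0 : ℝ)) = h from h1]
    have h2 : ∀ s : ℝ, s ≠ 0 → glue h f (Function.update x j s) = J (fun k => f k 0) (1 / |s|) := by
      intro s hs
      have hne : Function.update x j s ≠ 0 := by
        intro h'
        have := congrFun h' j
        rw [Function.update_self] at this
        exact hs this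
      rw [glue_of_ne h f hne, Finset.sum_eq_single j]
      · have h3 : w (Function.update x j s) j = 1 := by
          have h4 : ∑ i, |Function.update x j s i| = |s| := by
            rw [Finset.sum_eq_single j]
            · rw [Function.update_self]
            · intro i _ hi
              rw [Function.update_of_ne hi, hx i hi, abs_zero]
            · intro h'
              exact absurd (Finset.mem_univ j) h'
          rw [w, h4, Function.update_self, div_self (abs_ne_zero.2 hs)]
        rw [h3, one_mul, Function.update_self, Fin.removeNth_update, hr]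
      · intro i _ hi
        rw [w, Function.update_of_ne hi, hx i hi]
        simp
      · intro h'
        exact absurd (Finset.mem_univ j) h'
    have h3 : Tendsto (fun s : ℝ => J (fun k => f k 0) (1 / |s|)) (𝓝[≠] 0) (𝓝 h) := by
      refine (tendsto_J hlim).comp ?_
      simp only [one_div]
      exact tendsto_inv_nhdsGT_zero.comp tendsto_abs_nhdsNE_zero
    have h4 : Tendsto (fun s : ℝ => glue h f (Function.update x j s)) (𝓝[≠] 0) (𝓝 h) :=
      h3.congr' (by
        filter_upwards [self_mem_nhdsWithin] with s hs
        exact (h2 s hs).symm)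
    have h5 : ContinuousAt (fun s : ℝ => glue h f (Function.update x j s)) 0 := by
      rw [continuousAt_iff_punctured_nhds, h1]
      exact h4
    have h6 := h5.tendsto
    rw [h1] at h6
    exact h6
  · -- the other points
    have h1 : ∀ᶠ s in 𝓝 s0, Function.update x j s ≠ 0 :=
      (hu.continuousAt (x := s0)).eventually_ne ht
    have h2 : ContinuousAt (fun s : ℝ => ∑ i, w (Function.update x j s) i *
        J (fun k => f k (i.removeNth (Function.update x j s)))
          (1 / |Function.update x j s i|)) s0 := by
      refine tendsto_finsetSum _ fun i _ => ?_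
      have hw : ContinuousAt (fun s : ℝ => w (Function.update x j s) i) s0 :=
        ContinuousAt.comp (f := fun s : ℝ => Function.update x j s) (g := fun t => w t i)
          (continuousAt_w ht i) hu.continuousAt
      by_cases hij : i = j
      · subst hij
        simp only [Fin.removeNth_update, Function.update_self]
        by_cases hs : s0 = 0
        · -- the weight tends to zero
          have hw0 : w (Function.update x i s0) i = 0 := by
            rw [w, Function.update_self, hs]
            simp
          rw [hw0, zero_mul]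
          rw [ContinuousAt, hw0] at hw
          refine squeeze_zero (fun s => mul_nonneg (w_nonneg _ _) (J_mem (fun k => hf k _) _).1)
            (fun s => ?_) hw
          exact mul_le_of_le_one_right (w_nonneg _ _) (J_mem (fun k => hf k _) _).2
        · refine ContinuousAt.mul hw ?_
          refine ContinuousAt.comp (g := J fun k => f k (i.removeNth x)) (f := fun s : ℝ => 1 / |s|) ?_ ?_
          · exact continuousAt_J _ (by positivity)
          · exact continuousAt_const.div continuous_abs.continuousAt (abs_ne_zero.2 hs)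
      · refine ContinuousAt.mul hw ?_
        obtain ⟨j', rfl⟩ := Fin.exists_succAbove_eq (Ne.symm hij)
        have h3 : ∀ s : ℝ, i.removeNth (Function.update x (i.succAbove j') s) =
            Function.update (i.removeNth x) j' s := by
          intro s
          funext l
          simp only [Fin.removeNth]
          by_cases hl : l = j'
          · subst hl
            rw [Function.update_self, Function.update_self]
          · rw [Function.update_of_ne hl,
              Function.update_of_ne fun h' => hl (Fin.succAbove_right_injective h')]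
            rfl
        simp only [h3, Function.update_of_ne hij]
        have h4 : ∀ k, Continuous fun s : ℝ => f k (Function.update (i.removeNth x) j' s) := fun k =>
          hfs k _ _
        have h5 : Continuous fun s : ℝ => J (fun k => f k (Function.update (i.removeNth x) j' s))
            (1 / |x i|) := by
          simp only [J]
          exact (continuous_const.mul (h4 _)).add (continuous_const.mul (h4 _))
        exact h5.continuousAt
    refine h2.congr ?_
    filter_upwards [h1] with s hs
    rw [glue_of_ne h f hs]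

/-- iterated limits are values of families of separately continuous functions -/
theorem exists_theta {X : Type*} [TopologicalSpace X] (m : ℕ) : ∀ h : X → unitInterval, L m h →
    ∃ θ : X → (Fin m → ℝ) → ℝ, (∀ x, SepC (θ x)) ∧ (∀ x, θ x 0 = h x) ∧
      (∀ t : Fin m → ℝ, (∀ i, t i ≠ 0) → Continuous fun x => θ x t) ∧
      ∀ x t, θ x t ∈ Icc (0 : ℝ) 1 := by
  induction m with
  | zero =>
    intro h hh
    exact ⟨fun x _ => h x, fun x t i => i.elim0, fun x => rfl,
      fun t _ => continuous_subtype_val.comp hh, fun x _ => (h x).2⟩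
  | succ m ih =>
    rintro h ⟨g, hg, hgh⟩
    have h1 : ∀ k, _ := fun k => ih (g k) (hg k)
    choose θ hs h0 hc hI using h1
    refine ⟨fun x => glue (h x) fun k => θ k x, fun x => ?_, fun x => glue_zero _ _, ?_, ?_⟩
    · refine glue_sepC (fun k t => hI k x t) (fun k => hs k x) ?_
      simp only [h0]
      exact (continuous_subtype_val.tendsto _).comp (hgh x)
    · intro t ht
      have ht0 : t ≠ 0 := fun h' => ht 0 (congrFun h' 0)
      simp only [glue_of_ne _ _ ht0]
      refine continuous_finsetSum _ fun i _ => continuous_const.mul ?_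
      simp only [J]
      have h2 : ∀ k, Continuous fun x => θ k x (i.removeNth t) := fun k =>
        hc k _ fun j => ht _
      exact (continuous_const.mul (h2 _)).add (continuous_const.mul (h2 _))
    · intro x t
      exact glue_mem (h x).2 (fun k t => hI k x t) t

end Pool.Agent.R819.SepInterp
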