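import Mathlib

/-!
# Staircase approximations of the diagonal

The abstract part of the proof that the diagonal of a separately absolutely continuous map is
absolute Baire-one.
-/

set_option autoImplicit false

open Set Topology Filter

namespace Pool.Agent.R819.Stair

/-- the horizontal coordinate of the path -/
noncomputable def pa (ρ τ x : ℝ) : ℝ := min x (max τ (2 * x - τ - ρ))

/-- the vertical coordinate of the path -/
noncomputable def pb (σ ρ τ x : ℝ) : ℝ := min τ (σ + (τ - σ) * (2 * (x - τ) / ρ))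

theorem le_pa {ρ τ x : ℝ} (h : τ ≤ x) : τ ≤ pa ρ τ x := le_min h (le_max_left _ _)

theorem pa_le {ρ τ x : ℝ} : pa ρ τ x ≤ x := min_le_left _ _

theorem pb_le {σ ρ τ x : ℝ} : pb σ ρ τ x ≤ τ := min_le_left _ _

theorem le_pb {σ ρ τ x : ℝ} (hρ : 0 < ρ) (h : σ ≤ τ) (hx : τ ≤ x) : σ ≤ pb σ ρ τ x := by
  refine le_min h ?_
  have h1 : 0 ≤ 2 * (x - τ) / ρ := by
    have : 0 ≤ x - τ := by linarith
    positivity
  have h2 : 0 ≤ (τ - σ) * (2 * (x - τ) / ρ) := mul_nonneg (by linarith) h1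
  linarith

theorem pa_or_pb {σ ρ τ x : ℝ} (hρ : 0 < ρ) (h : σ ≤ τ) (hx : τ ≤ x) :
    pa ρ τ x = τ ∨ pb σ ρ τ x = τ := by
  rcases le_total (2 * (x - τ)) ρ with h1 | h1
  · left
    rw [pa, max_eq_left (by linarith), min_eq_right hx]
  · right
    have h2 : 1 ≤ 2 * (x - τ) / ρ := by
      rw [le_div_iff₀ hρ]
      linarith
    rw [pb, min_eq_left]
    nlinarith

theorem pa_eq {ρ τ x : ℝ} (hx : τ + ρ ≤ x) : pa ρ τ x = x := by
  rw [pa, min_eq_left]
  exact le_max_of_le_right (by linarith)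

theorem pb_eq {σ ρ τ x : ℝ} (hρ : 0 < ρ) (h : σ ≤ τ) (hx : τ + ρ ≤ x) : pb σ ρ τ x = τ := by
  have h2 : 1 ≤ 2 * (x - τ) / ρ := by
    rw [le_div_iff₀ hρ]
    linarith
  rw [pb, min_eq_left]
  nlinarith

theorem pa_mono {ρ τ x x' : ℝ} (h : x ≤ x') : pa ρ τ x ≤ pa ρ τ x' :=
  min_le_min h (max_le_max le_rfl (by linarith))

theorem pb_mono {σ ρ τ x x' : ℝ} (hρ : 0 < ρ) (hσ : σ ≤ τ) (h : x ≤ x') :
    pb σ ρ τ x ≤ pb σ ρ τ x' := by
  refine min_le_min le_rfl ?_
  have h1 : 2 * (x - τ) / ρ ≤ 2 * (x' - τ) / ρ := by gcongr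
  have h2 := mul_le_mul_of_nonneg_left h1 (sub_nonneg.2 hσ)
  linarith

theorem pa_anti {ρ ρ' τ x : ℝ} (h : ρ' ≤ ρ) : pa ρ τ x ≤ pa ρ' τ x :=
  min_le_min le_rfl (max_le_max le_rfl (by linarith))

theorem pb_anti {σ σ' ρ ρ' τ x : ℝ} (hρ' : 0 < ρ') (h : ρ' ≤ ρ) (hσ : σ ≤ σ') (hσ' : σ' ≤ τ)
    (hx : τ ≤ x) : pb σ ρ τ x ≤ pb σ' ρ' τ x := by
  have hρ : 0 < ρ := hρ'.trans_le h
  have hx0 : 0 ≤ x - τ := by linarith
  have h1 : 2 * (x - τ) / ρ ≤ 2 * (x - τ) / ρ' := by gcongr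
  have h0 : 0 ≤ 2 * (x - τ) / ρ := by positivity
  set θ := 2 * (x - τ) / ρ
  set θ' := 2 * (x - τ) / ρ'
  rcases le_total 1 θ' with h2 | h2
  · have h3 : pb σ' ρ' τ x = τ := by
      rw [pb, min_eq_left]
      change τ ≤ σ' + (τ - σ') * θ'
      nlinarith
    rw [h3]
    exact pb_le
  · refine min_le_min le_rfl ?_
    change σ + (τ - σ) * θ ≤ σ' + (τ - σ') * θ'
    nlinarith

section

variable {Z : Type*} [MetricSpace Z] {F : ℝ → ℝ → Z} {α β : ℝ → ℝ → ℝ}

/-- comparison of two points of the path -/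
theorem dist_path (hF2 : ∀ x u v, u ≤ v → dist (F x u) (F x v) ≤ α x v - α x u)
    (hF1 : ∀ y u v, u ≤ v → dist (F u y) (F v y) ≤ β y v - β y u)
    {τ a b a' b' : ℝ} (h : a = τ ∨ b = τ) (h' : a' = τ ∨ b' = τ) (_ha : τ ≤ a) (haa : a ≤ a')
    (hbb : b ≤ b') (hb' : b' ≤ τ) :
    dist (F a b) (F a' b') ≤ (α τ b' - α τ b) + (β τ a' - β τ a) := by
  rcases h with h | h
  · rw [h] at haa ⊢
    rcases h' with h' | h'
    · rw [h']
      simpa using hF2 τ b b' hbb
    · rw [h']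
      rw [h'] at hbb
      exact (dist_triangle _ (F τ τ) _).trans (add_le_add (hF2 τ b τ hbb) (hF1 τ τ a' haa))
  · rw [h] at hbb ⊢
    have h1 : b' = τ := le_antisymm hb' hbb
    rw [h1]
    simpa using hF1 τ a a' haa

end

/-- the largest of `t 0`, ..., `t n` which is less than `x` (or `t 0`) -/
noncomputable def c (t : ℕ → ℝ) : ℕ → ℝ → ℝ
  | 0, _ => t 0
  | n + 1, x => if c t n x < t (n + 1) ∧ t (n + 1) < x then t (n + 1) else c t n x

section C

variable {t : ℕ → ℝ}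

theorem c_succ (n : ℕ) (x : ℝ) :
    c t (n + 1) x = if c t n x < t (n + 1) ∧ t (n + 1) < x then t (n + 1) else c t n x := rfl

theorem c_le_succ (n : ℕ) (x : ℝ) : c t n x ≤ c t (n + 1) x := by
  rw [c_succ]
  split_ifs with h
  · exact h.1.le
  · exact le_rfl

theorem c_mono {m n : ℕ} (h : m ≤ n) (x : ℝ) : c t m x ≤ c t n x :=
  monotone_nat_of_le_succ (fun n => c_le_succ n x) h

theorem c_lt (n : ℕ) {x : ℝ} (hx : t 0 < x) : c t n x < x := by
  induction n with
  | zero => exact hx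
  | succ n ih =>
    rw [c_succ]
    split_ifs with h
    · exact h.2
    · exact ih

theorem exists_c (n : ℕ) (x : ℝ) : ∃ i ≤ n, c t n x = t i := by
  induction n with
  | zero => exact ⟨0, le_rfl, rfl⟩
  | succ n ih =>
    rw [c_succ]
    split_ifs with h
    · exact ⟨n + 1, le_rfl, rfl⟩
    · obtain ⟨i, hi, h⟩ := ih
      exact ⟨i, hi.trans (Nat.le_succ n), h⟩

theorem le_c {n i : ℕ} (hi : i ≤ n) {x : ℝ} (h : t i < x) : t i ≤ c t n x := by
  induction n with
  | zero =>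
    have : i = 0 := Nat.le_zero.1 hi
    rw [this]
    exact le_rfl
  | succ n ih =>
    rcases Nat.lt_or_ge i (n + 1) with h1 | h1
    · exact (ih (Nat.lt_succ_iff.1 h1)).trans (c_le_succ n x)
    · have h2 : i = n + 1 := le_antisymm hi h1
      rw [c_succ]
      split_ifs with h3
      · rw [h2]
      · rw [h2] at h ⊢
        by_contra h4
        exact h3 ⟨not_le.1 h4, h⟩

theorem t0_le_c (ht : ∀ i, t 0 ≤ t i) (n : ℕ) (x : ℝ) : t 0 ≤ c t n x := by
  obtain ⟨i, _, h⟩ := exists_c (t := t) n x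
  rw [h]
  exact ht i

theorem c_le_self (ht : ∀ i, t 0 ≤ t i) (n : ℕ) {x : ℝ} (hx : t 0 ≤ x) : c t n x ≤ x := by
  rcases hx.lt_or_eq with h | h
  · exact (c_lt n h).le
  · induction n with
    | zero => exact hx
    | succ n ih =>
      rw [c_succ]
      split_ifs with h1
      · exact h1.2.le
      · exact ih

theorem c_t0 (ht : ∀ i, t 0 ≤ t i) (n : ℕ) {x : ℝ} (hx : x ≤ t 0) : c t n x = t 0 := by
  induction n with
  | zero => rfl
  | succ n ih =>
    rw [c_succ, if_neg, ih]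
    rintro ⟨_, h⟩
    exact absurd (h.trans_le hx) (not_lt.2 (ht _))

theorem c_mono_right (ht : ∀ i, t 0 ≤ t i) (n : ℕ) {x y : ℝ} (h : x ≤ y) : c t n x ≤ c t n y := by
  rcases lt_or_ge (t 0) x with hx | hx
  · obtain ⟨i, hi, h1⟩ := exists_c (t := t) n x
    have h2 := c_lt n hx
    rw [h1] at h2 ⊢
    exact le_c hi (h2.trans_le h)
  · rw [c_t0 ht n hx]
    exact t0_le_c ht n y

end C

section Main

variable {Z : Type*} [MetricSpace Z] {F : ℝ → ℝ → Z} {α β : ℝ → ℝ → ℝ} {t ρ : ℕ → ℝ}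

variable (F t ρ) in
/-- the approximations -/
noncomputable def G (n : ℕ) (x : ℝ) : Z :=
  F (pa (ρ n) (c t n x) x) (pb (c t n (c t n x)) (ρ n) (c t n x) x)

variable (α β t ρ) in
/-- the bound for the distance of `G n x` to `F x (c n x)` -/
noncomputable def P (n : ℕ) (x : ℝ) : ℝ :=
  (α (c t n x) (c t n x) - α (c t n x) (pb (c t n (c t n x)) (ρ n) (c t n x) x)) +
    (β (c t n x) x - β (c t n x) (pa (ρ n) (c t n x) x))

theorem P_nonneg (hα : ∀ x, Monotone (α x)) (hβ : ∀ y, Monotone (β y)) (n : ℕ) (x : ℝ) :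
    0 ≤ P α β t ρ n x :=
  add_nonneg (sub_nonneg.2 (hα _ pb_le)) (sub_nonneg.2 (hβ _ pa_le))

theorem dist_G (hF2 : ∀ x u v, u ≤ v → dist (F x u) (F x v) ≤ α x v - α x u)
    (hF1 : ∀ y u v, u ≤ v → dist (F u y) (F v y) ≤ β y v - β y u)
    (ht : ∀ i, t 0 ≤ t i) (hρ : ∀ n, 0 < ρ n) (n : ℕ) {x : ℝ} (hx : t 0 < x) :
    dist (G F t ρ n x) (F x (c t n x)) ≤ P α β t ρ n x := by
  have h1 : c t n (c t n x) ≤ c t n x := c_le_self ht n (t0_le_c ht n x)
  have h2 : c t n x ≤ x := (c_lt n hx).le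
  exact dist_path hF2 hF1 (pa_or_pb (hρ n) h1 h2) (Or.inr rfl) (le_pa h2) pa_le pb_le le_rfl

theorem P_zero (ht : ∀ i, t 0 ≤ t i) (hρ : ∀ n, 0 < ρ n) (n : ℕ) {x : ℝ}
    (hx : c t n x + ρ n ≤ x) : P α β t ρ n x = 0 := by
  have h1 : c t n (c t n x) ≤ c t n x := c_le_self ht n (t0_le_c ht n x)
  rw [P, pa_eq hx, pb_eq (hρ n) h1 hx]
  ring

/-- the case in which the left end point of the cell does not change -/
theorem dist_A (hF2 : ∀ x u v, u ≤ v → dist (F x u) (F x v) ≤ α x v - α x u)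
    (hF1 : ∀ y u v, u ≤ v → dist (F u y) (F v y) ≤ β y v - β y u)
    (ht : ∀ i, t 0 ≤ t i) (hρ : ∀ n, 0 < ρ n) (hρa : Antitone ρ) (n : ℕ) {x : ℝ} (hx : t 0 < x)
    (h : c t (n + 1) x = c t n x) :
    dist (G F t ρ n x) (G F t ρ (n + 1) x) ≤ P α β t ρ n x - P α β t ρ (n + 1) x := by
  have h1 : c t n (c t n x) ≤ c t n x := c_le_self ht n (t0_le_c ht n x)
  have h1' : c t (n + 1) (c t n x) ≤ c t n x := c_le_self ht _ (t0_le_c ht n x)
  have h2 : c t n x ≤ x := (c_lt n hx).le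
  have h3 := dist_path hF2 hF1 (pa_or_pb (hρ n) h1 h2) (pa_or_pb (hρ (n + 1)) h1' h2) (le_pa h2)
    (pa_anti (hρa (Nat.le_succ n))) (pb_anti (hρ (n + 1)) (hρa (Nat.le_succ n))
      (c_le_succ n _) h1' h2) pb_le
  rw [G, G, P, P, h]
  refine h3.trans (le_of_eq ?_)
  ring

/-- the case in which the new point is the left end point of the cell -/
theorem dist_B (hF2 : ∀ x u v, u ≤ v → dist (F x u) (F x v) ≤ α x v - α x u)
    (hF1 : ∀ y u v, u ≤ v → dist (F u y) (F v y) ≤ β y v - β y u)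
    (ht : ∀ i, t 0 ≤ t i) (hρ : ∀ n, 0 < ρ n) (n : ℕ) {x : ℝ} (hx : t 0 < x) :
    dist (G F t ρ n x) (G F t ρ (n + 1) x) ≤ P α β t ρ n x + (α x (c t (n + 1) x) - α x (c t n x))
      + P α β t ρ (n + 1) x := by
  have h1 := dist_G hF2 hF1 ht hρ n hx
  have h2 := dist_G hF2 hF1 ht hρ (n + 1) hx
  have h3 := hF2 x _ _ (c_le_succ (t := t) n x)
  calc dist (G F t ρ n x) (G F t ρ (n + 1) x)
      ≤ dist (G F t ρ n x) (F x (c t n x)) + dist (F x (c t n x)) (F x (c t (n + 1) x))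
        + dist (F x (c t (n + 1) x)) (G F t ρ (n + 1) x) := dist_triangle4 _ _ _ _
    _ ≤ _ := by
      rw [dist_comm (F x (c t (n + 1) x))]
      exact add_le_add (add_le_add h1 h3) h2

/-- the bound for the new zone -/
theorem P_B (hα : ∀ x, Monotone (α x)) (hβ : ∀ y, Monotone (β y))
    (ht : ∀ i, t 0 ≤ t i) (hρ : ∀ n, 0 < ρ n)
    (h2 : ∀ i x, t i ≤ x → x ≤ t i + ρ i → α x x - α x (t i) ≤ (1 / 2) ^ i)
    (h3 : ∀ i, β (t i) (t i + ρ i) - β (t i) (t i) ≤ (1 / 2) ^ i)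
    {n j : ℕ} {x : ℝ} (hB : c t n x < t (n + 1)) (hB' : t (n + 1) < x) (hj : j ≤ n)
    (hjc : t j ≤ c t n x) (hjx : x ≤ t j + ρ j) :
    P α β t ρ (n + 1) x ≤ (1 / 2) ^ j + (1 / 2) ^ (n + 1) := by
  have hc : c t (n + 1) x = t (n + 1) := by
    rw [c_succ, if_pos ⟨hB, hB'⟩]
  rcases le_total (c t (n + 1) x + ρ (n + 1)) x with hz | hz
  · rw [P_zero ht hρ (n + 1) hz]
    positivity
  · rw [hc] at hz
    rw [P, hc]
    refine add_le_add ?_ ?_
    · have h4 : t j ≤ c t (n + 1) (t (n + 1)) := by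
        rcases lt_or_ge (t j) (t (n + 1)) with h5 | h5
        · exact le_c (hj.trans (Nat.le_succ n)) h5
        · exact absurd (hjc.trans_lt hB) (not_lt.2 h5)
      have h5 : c t (n + 1) (t (n + 1)) ≤ t (n + 1) := c_le_self ht _ (ht _)
      have h6 : t j ≤ pb (c t (n + 1) (t (n + 1))) (ρ (n + 1)) (t (n + 1)) x :=
        h4.trans (le_pb (hρ _) h5 hB'.le)
      have h7 := hα (t (n + 1)) h6
      have h8 := h2 j (t (n + 1)) (hjc.trans hB.le) (hB'.le.trans hjx)
      linarith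
    · have h4 := hβ (t (n + 1)) (le_pa (ρ := ρ (n + 1)) hB'.le)
      have h5 := hβ (t (n + 1)) hz
      have h6 := h3 (n + 1)
      linarith

/-- the sum of the distances is finite -/
theorem summable_G (hα : ∀ x, Monotone (α x))
    (hF2 : ∀ x u v, u ≤ v → dist (F x u) (F x v) ≤ α x v - α x u)
    (hβ : ∀ y, Monotone (β y))
    (hF1 : ∀ y u v, u ≤ v → dist (F u y) (F v y) ≤ β y v - β y u)
    (ht : ∀ i, t 0 ≤ t i) (hρ : ∀ n, 0 < ρ n) (hρa : Antitone ρ)
    (h2 : ∀ i x, t i ≤ x → x ≤ t i + ρ i → α x x - α x (t i) ≤ (1 / 2) ^ i)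
    (h3 : ∀ i, β (t i) (t i + ρ i) - β (t i) (t i) ≤ (1 / 2) ^ i) {x : ℝ} (hx : t 0 < x) :
    Summable fun n => dist (G F t ρ n x) (G F t ρ (n + 1) x) := by
  by_cases hz : ∀ n, c t n x + ρ n ≤ x
  · refine summable_of_sum_range_le (c := α x x - α x (t 0)) (fun _ => dist_nonneg) fun n => ?_
    have h1 : ∑ i ∈ Finset.range n, dist (G F t ρ i x) (G F t ρ (i + 1) x)
        ≤ α x (c t n x) - α x (t 0) := by
      induction n with
      | zero => simp [c]
      | succ n ih =>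
        rw [Finset.sum_range_succ]
        have h4 := dist_B hF2 hF1 ht hρ n hx
        rw [P_zero ht hρ n (hz n), P_zero ht hρ (n + 1) (hz (n + 1))] at h4
        linarith
    have h4 := hα x (c_lt (t := t) n hx).le
    linarith
  · push Not at hz
    obtain ⟨m, hm⟩ := hz
    rw [← summable_nat_add_iff m]
    obtain ⟨j₀, hj₀, hcj⟩ := exists_c (t := t) m x
    let C : ℝ := P α β t ρ m x + (α x x - α x (c t m x)) + 4 * (1 / 2) ^ j₀ + 2 * (1 / 2) ^ m
    have key : ∀ n, ∃ j ≤ m + n, t j ≤ c t (m + n) x ∧ x ≤ t j + ρ j ∧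
        ∑ i ∈ Finset.range n, dist (G F t ρ (i + m) x) (G F t ρ (i + m + 1) x)
          + (P α β t ρ (m + n) x + (α x x - α x (c t (m + n) x)) + 4 * (1 / 2) ^ j
            + 2 * (1 / 2) ^ (m + n)) ≤ C := by
      intro n
      induction n with
      | zero =>
        refine ⟨j₀, hj₀, hcj.ge, ?_, ?_⟩
        · have := hρa hj₀
          rw [hcj] at hm
          linarith
        · simp [C]
      | succ n ih =>
        obtain ⟨j, hj, hjc, hjx, hs⟩ := ih
        have hmn : m + (n + 1) = m + n + 1 := rfl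
        rw [Finset.sum_range_succ, hmn]
        have hnm : n + m = m + n := Nat.add_comm n m
        rw [hnm]
        by_cases hB : c t (m + n) x < t (m + n + 1) ∧ t (m + n + 1) < x
        · have hd := dist_B hF2 hF1 ht hρ (m + n) hx
          have hc : c t (m + n + 1) x = t (m + n + 1) := by
            rw [c_succ, if_pos hB]
          rcases le_total (c t (m + n + 1) x + ρ (m + n + 1)) x with hz | hz
          · refine ⟨j, hj.trans (Nat.le_succ _), hjc.trans (c_le_succ _ x), hjx, ?_⟩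
            rw [P_zero ht hρ (m + n + 1) hz] at hd ⊢
            have h5 : (1 / 2 : ℝ) ^ (m + n + 1) ≤ (1 / 2) ^ (m + n) :=
              pow_le_pow_of_le_one (by norm_num) (by norm_num) (Nat.le_succ _)
            linarith
          · refine ⟨m + n + 1, le_rfl, hc.ge, by rw [← hc]; exact hz, ?_⟩
            have hP := P_B hα hβ ht hρ h2 h3 hB.1 hB.2 hj hjc hjx
            have h5 : (1 / 2 : ℝ) ^ (m + n + 1) = (1 / 2) ^ (m + n) / 2 := by
              rw [pow_succ]
              ring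
            have h6 : (1 / 2 : ℝ) ^ (m + n) ≤ (1 / 2) ^ j :=
              pow_le_pow_of_le_one (by norm_num) (by norm_num) hj
            rw [h5] at hP ⊢
            linarith
        · have hc : c t (m + n + 1) x = c t (m + n) x := by
            rw [c_succ, if_neg hB]
          have hd := dist_A hF2 hF1 ht hρ hρa (m + n) hx hc
          refine ⟨j, hj.trans (Nat.le_succ _), by rw [hc]; exact hjc, hjx, ?_⟩
          have h5 : (1 / 2 : ℝ) ^ (m + n + 1) ≤ (1 / 2) ^ (m + n) :=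
            pow_le_pow_of_le_one (by norm_num) (by norm_num) (Nat.le_succ _)
          rw [hc]
          linarith
    refine summable_of_sum_range_le (c := C) (fun _ => dist_nonneg) fun n => ?_
    obtain ⟨j, _, _, _, hs⟩ := key n
    have h4 := hα x (c_lt (t := t) (m + n) hx).le
    have h5 := P_nonneg (t := t) (ρ := ρ) hα hβ (m + n) x
    have h6 : (0 : ℝ) ≤ 4 * (1 / 2) ^ j := by positivity
    have h7 : (0 : ℝ) ≤ 2 * (1 / 2) ^ (m + n) := by positivity
    linarith

theorem tendsto_c (hd : ∀ x y, t 0 ≤ x → x < y → ∃ i, x < t i ∧ t i < y) {x : ℝ} (hx : t 0 < x) :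
    Tendsto (fun n => c t n x) atTop (𝓝 x) := by
  rw [Metric.tendsto_atTop]
  intro ε hε
  obtain ⟨i, hi1, hi2⟩ := hd (max (t 0) (x - ε)) x (le_max_left _ _) (max_lt hx (by linarith))
  refine ⟨i, fun n hn => ?_⟩
  have h1 := le_c hn hi2
  have h2 := c_lt (t := t) n hx
  have h3 : x - ε < t i := (le_max_right _ _).trans_lt hi1
  rw [Real.dist_eq, abs_lt]
  constructor <;> linarith

theorem exists_B (hd : ∀ x y, t 0 ≤ x → x < y → ∃ i, x < t i ∧ t i < y) {x : ℝ} (hx : t 0 < x)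
    (m : ℕ) : ∃ n, m ≤ n ∧ c t n x < t (n + 1) ∧ t (n + 1) < x := by
  by_contra hcon
  push Not at hcon
  have h1 : ∀ n, c t (m + n) x = c t m x := by
    intro n
    induction n with
    | zero => rfl
    | succ n ih =>
      have h2 : m + (n + 1) = m + n + 1 := rfl
      rw [h2, c_succ, if_neg, ih]
      rintro ⟨h3, h4⟩
      exact absurd h4 (not_lt.2 (hcon (m + n) (Nat.le_add_right m n) h3))
  have h2 : Tendsto (fun n => c t (n + m) x) atTop (𝓝 x) :=
    (tendsto_add_atTop_iff_nat m).2 (tendsto_c hd hx)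
  have h3 : (fun n => c t (n + m) x) = fun _ => c t m x := by
    funext n
    rw [Nat.add_comm, h1]
  rw [h3] at h2
  have h4 := tendsto_nhds_unique h2 tendsto_const_nhds
  exact absurd h4 (c_lt m hx).ne'

theorem tendsto_G (hα : ∀ x, Monotone (α x)) (hαc : ∀ x, Continuous (α x))
    (hF2 : ∀ x u v, u ≤ v → dist (F x u) (F x v) ≤ α x v - α x u)
    (hβ : ∀ y, Monotone (β y))
    (hF1 : ∀ y u v, u ≤ v → dist (F u y) (F v y) ≤ β y v - β y u)
    (ht : ∀ i, t 0 ≤ t i) (hρ : ∀ n, 0 < ρ n) (hρa : Antitone ρ)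
    (h2 : ∀ i x, t i ≤ x → x ≤ t i + ρ i → α x x - α x (t i) ≤ (1 / 2) ^ i)
    (h3 : ∀ i, β (t i) (t i + ρ i) - β (t i) (t i) ≤ (1 / 2) ^ i)
    (hd : ∀ x y, t 0 ≤ x → x < y → ∃ i, x < t i ∧ t i < y) {x : ℝ} (hx : t 0 < x) :
    Tendsto (fun n => G F t ρ n x) atTop (𝓝 (F x x)) := by
  have hs := summable_G hα hF2 hβ hF1 ht hρ hρa h2 h3 hx
  have hcs : CauchySeq fun n => G F t ρ n x := cauchySeq_of_summable_dist hs
  have hP : ∀ ε > 0, ∀ N : ℕ, ∃ n ≥ N, P α β t ρ n x < ε := by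
    intro ε hε N
    by_cases hz : ∃ n ≥ N, c t n x + ρ n ≤ x
    · obtain ⟨n, hn, hn2⟩ := hz
      exact ⟨n, hn, by rw [P_zero ht hρ n hn2]; exact hε⟩
    · push Not at hz
      obtain ⟨m, hm⟩ := exists_pow_lt_of_lt_one (half_pos hε) (show (1 / 2 : ℝ) < 1 by norm_num)
      obtain ⟨n₂, hn₂, hB1, hB2⟩ := exists_B hd hx (max m N)
      obtain ⟨n₃, hn₃, hB3, hB4⟩ := exists_B hd hx (n₂ + 1)
      have hc : c t (n₂ + 1) x = t (n₂ + 1) := by
        rw [c_succ, if_pos ⟨hB1, hB2⟩]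
      have hmN : max m N ≤ n₂ + 1 := hn₂.trans (Nat.le_succ _)
      have h4 := hz (n₂ + 1) ((le_max_right _ _).trans hmN)
      rw [hc] at h4
      have h5 := P_B (α := α) (β := β) hα hβ ht hρ h2 h3 hB3 hB4 hn₃ (by
        rw [← hc]
        exact c_mono hn₃ x) h4.le
      refine ⟨n₃ + 1, ?_, h5.trans_lt ?_⟩
      · exact ((le_max_right _ _).trans hmN).trans (hn₃.trans (Nat.le_succ _))
      · have h6 : (1 / 2 : ℝ) ^ (n₂ + 1) ≤ (1 / 2) ^ m :=
          pow_le_pow_of_le_one (by norm_num) (by norm_num) ((le_max_left _ _).trans hmN)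
        have h7 : (1 / 2 : ℝ) ^ (n₃ + 1) ≤ (1 / 2) ^ m :=
          pow_le_pow_of_le_one (by norm_num) (by norm_num)
            (((le_max_left _ _).trans hmN).trans (hn₃.trans (Nat.le_succ _)))
        linarith
  -- convergence of `F x (c n x)`
  have hc := tendsto_c hd hx
  have hFc : Tendsto (fun n => F x (c t n x)) atTop (𝓝 (F x x)) := by
    rw [tendsto_iff_dist_tendsto_zero]
    have h4 : Tendsto (fun n => α x x - α x (c t n x)) atTop (𝓝 0) := by
      have h5 := (((hαc x).tendsto x).comp hc).const_sub (α x x)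
      simpa using h5
    exact squeeze_zero (fun _ => dist_nonneg) (fun n => hF2 x _ _ (c_lt n hx).le) h4
  rw [Metric.tendsto_atTop]
  intro ε hε
  obtain ⟨N₁, hN₁⟩ := (Metric.cauchySeq_iff'.1 hcs) (ε / 4) (by positivity)
  obtain ⟨N₂, hN₂⟩ := (Metric.tendsto_atTop.1 hFc) (ε / 4) (by positivity)
  obtain ⟨n, hn, hPn⟩ := hP (ε / 4) (by positivity) (max N₁ N₂)
  have h4 : dist (G F t ρ n x) (F x x) < ε / 2 := by
    calc dist (G F t ρ n x) (F x x) ≤ dist (G F t ρ n x) (F x (c t n x))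
          + dist (F x (c t n x)) (F x x) := dist_triangle _ _ _
      _ < ε / 4 + ε / 4 := add_lt_add ((dist_G hF2 hF1 ht hρ n hx).trans_lt hPn)
          (hN₂ n ((le_max_right _ _).trans hn))
      _ = ε / 2 := by ring
  refine ⟨N₁, fun k hk => ?_⟩
  have h5 := hN₁ k hk
  have h6 := hN₁ n ((le_max_left _ _).trans hn)
  calc dist (G F t ρ k x) (F x x) ≤ dist (G F t ρ k x) (G F t ρ N₁ x)
        + dist (G F t ρ N₁ x) (G F t ρ n x) + dist (G F t ρ n x) (F x x) := dist_triangle4 _ _ _ _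
    _ < ε / 4 + ε / 4 + ε / 2 := by
        rw [dist_comm (G F t ρ N₁ x)]
        exact add_lt_add (add_lt_add h5 h6) h4
    _ = ε := by ring

/-- the path is continuous -/
theorem continuousOn_path (hα : ∀ x, Monotone (α x)) (hαc : ∀ x, Continuous (α x))
    (hF2 : ∀ x u v, u ≤ v → dist (F x u) (F x v) ≤ α x v - α x u)
    (hβ : ∀ y, Monotone (β y)) (hβc : ∀ y, Continuous (β y))
    (hF1 : ∀ y u v, u ≤ v → dist (F u y) (F v y) ≤ β y v - β y u)
    {r σ τ : ℝ} (hr : 0 < r) (hσ : σ ≤ τ) :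
    ContinuousOn (fun x => F (pa r τ x) (pb σ r τ x)) (Ici τ) := by
  let Θ : ℝ → ℝ := fun x => α τ (pb σ r τ x) + β τ (pa r τ x)
  have hpa : Continuous fun x => pa r τ x := by
    unfold pa
    fun_prop
  have hpb : Continuous fun x => pb σ r τ x := by
    unfold pb
    fun_prop
  have hΘ : Continuous Θ := ((hαc τ).comp hpb).add ((hβc τ).comp hpa)
  have key : ∀ x ∈ Ici τ, ∀ y ∈ Ici τ, x ≤ y →
      dist (F (pa r τ x) (pb σ r τ x)) (F (pa r τ y) (pb σ r τ y)) ≤ Θ y - Θ x := by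
    intro x hx y hy hxy
    have h1 := dist_path hF2 hF1 (pa_or_pb hr hσ hx) (pa_or_pb hr hσ hy) (le_pa hx)
      (pa_mono hxy) (pb_mono hr hσ hxy) pb_le
    refine h1.trans (le_of_eq ?_)
    simp only [Θ]
    ring
  have key' : ∀ x ∈ Ici τ, ∀ y ∈ Ici τ,
      dist (F (pa r τ x) (pb σ r τ x)) (F (pa r τ y) (pb σ r τ y)) ≤ |Θ x - Θ y| := by
    intro x hx y hy
    rcases le_total x y with h | h
    · rw [abs_sub_comm]
      exact (key x hx y hy h).trans (le_abs_self _)
    · rw [dist_comm]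
      exact (key y hy x hx h).trans (le_abs_self _)
  intro x hx
  rw [ContinuousWithinAt, tendsto_iff_dist_tendsto_zero]
  have h1 : Tendsto (fun y => |Θ y - Θ x|) (𝓝[Ici τ] x) (𝓝 0) := by
    have h2 : Tendsto (fun y => |Θ y - Θ x|) (𝓝 x) (𝓝 |Θ x - Θ x|) :=
      ((hΘ.tendsto x).sub_const _).abs
    rw [sub_self, abs_zero] at h2
    exact h2.mono_left nhdsWithin_le_nhds
  refine squeeze_zero' (Eventually.of_forall fun _ => dist_nonneg) ?_ h1
  filter_upwards [self_mem_nhdsWithin] with y hy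
  exact key' y hy x hx

theorem continuousAt_G (hα : ∀ x, Monotone (α x)) (hαc : ∀ x, Continuous (α x))
    (hF2 : ∀ x u v, u ≤ v → dist (F x u) (F x v) ≤ α x v - α x u)
    (hβ : ∀ y, Monotone (β y)) (hβc : ∀ y, Continuous (β y))
    (hF1 : ∀ y u v, u ≤ v → dist (F u y) (F v y) ≤ β y v - β y u)
    (ht : ∀ i, t 0 ≤ t i) (hρ : ∀ n, 0 < ρ n)
    (hgap : ∀ n, ∀ i ≤ n, ∀ j ≤ n, t i < t j → ρ n ≤ t j - t i)
    (n : ℕ) {x : ℝ} (hx : t 0 < x) : ContinuousAt (G F t ρ n) x := by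
  have hσ : ∀ z, c t n (c t n z) ≤ c t n z := fun z => c_le_self ht n (t0_le_c ht n z)
  have hcx := c_lt (t := t) n hx
  have hpath := continuousOn_path hα hαc hF2 hβ hβc hF1 (hρ n) (hσ x)
  rw [continuousAt_iff_continuous_left_right]
  constructor
  · -- from the left
    have h1 : ContinuousWithinAt (fun z => F (pa (ρ n) (c t n x) z)
        (pb (c t n (c t n x)) (ρ n) (c t n x) z)) (Iic x) x :=
      (hpath.continuousAt (Ici_mem_nhds hcx)).continuousWithinAt
    refine h1.congr_of_eventuallyEq ?_ rfl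
    have h2 : Ioi (c t n x) ∈ 𝓝[Iic x] x := mem_nhdsWithin_of_mem_nhds (Ioi_mem_nhds hcx)
    filter_upwards [self_mem_nhdsWithin, h2] with z hz1 hz2
    have h3 : c t n z = c t n x := by
      refine le_antisymm (c_mono_right ht n hz1) ?_
      obtain ⟨i, hi, h4⟩ := exists_c (t := t) n x
      rw [h4] at hz2 ⊢
      exact le_c hi hz2
    rw [G, h3]
  · -- from the right
    by_cases hxt : ∃ i ≤ n, x = t i
    · obtain ⟨i, hi, rfl⟩ := hxt
      have hself : c t n (t i) ≤ t i := hcx.le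
      have hpath' := continuousOn_path hα hαc hF2 hβ hβc hF1 (hρ n) hself
      have h1 : ContinuousWithinAt (fun z => F (pa (ρ n) (t i) z)
          (pb (c t n (t i)) (ρ n) (t i) z)) (Ici (t i)) (t i) := hpath' _ self_mem_Ici
      -- the value at the point
      have h2 : G F t ρ n (t i) = F (pa (ρ n) (t i) (t i)) (pb (c t n (t i)) (ρ n) (t i) (t i)) := by
        obtain ⟨j, hj, h4⟩ := exists_c (t := t) n (t i)
        have h5 : c t n (t i) + ρ n ≤ t i := by
          have h6 := hgap n j hj i hi (by rw [← h4]; exact hcx)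
          rw [← h4] at h6
          linarith
        rw [G, pa_eq h5, pb_eq (hρ n) (hσ _) h5]
        have h7 : pa (ρ n) (t i) (t i) = t i := by
          rw [pa, max_eq_left, min_self]
          have := hρ n
          linarith
        have h8 : pb (c t n (t i)) (ρ n) (t i) (t i) = c t n (t i) := by
          rw [pb, sub_self, mul_zero, zero_div, mul_zero, add_zero, min_eq_right hself]
        rw [h7, h8]
      refine h1.congr_of_eventuallyEq ?_ h2
      have h3 : Iio (t i + ρ n) ∈ 𝓝[Ici (t i)] (t i) :=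
        mem_nhdsWithin_of_mem_nhds (Iio_mem_nhds (by have := hρ n; linarith))
      filter_upwards [self_mem_nhdsWithin, h3] with z hz1 hz2
      rcases (show t i ≤ z from hz1).lt_or_eq with h4 | h4
      · have h5 : c t n z = t i := by
          refine le_antisymm ?_ (le_c hi h4)
          obtain ⟨j, hj, h6⟩ := exists_c (t := t) n z
          have h7 : c t n z < z := c_lt n (hx.trans h4)
          rw [h6] at h7 ⊢
          by_contra h8
          have h9 := hgap n i hi j hj (not_le.1 h8)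
          have h10 : z < t i + ρ n := hz2
          linarith
        rw [G, h5]
      · rw [← h4]
        exact h2
    · have h1 : ContinuousWithinAt (fun z => F (pa (ρ n) (c t n x) z)
          (pb (c t n (c t n x)) (ρ n) (c t n x) z)) (Ici x) x :=
        (hpath.continuousAt (Ici_mem_nhds hcx)).continuousWithinAt
      refine h1.congr_of_eventuallyEq ?_ rfl
      have h2 : ∀ᶠ z in 𝓝[Ici x] x, ∀ i ∈ Finset.range (n + 1), x < t i → z ≤ t i := by
        rw [Filter.eventually_all_finset]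
        intro i _
        by_cases h : x < t i
        · filter_upwards [mem_nhdsWithin_of_mem_nhds (Iic_mem_nhds h)] with z hz _
          exact hz
        · exact Eventually.of_forall fun z h' => absurd h' h
      filter_upwards [self_mem_nhdsWithin, h2] with z hz1 hz2
      have h3 : c t n z = c t n x := by
        refine le_antisymm ?_ (c_mono_right ht n hz1)
        obtain ⟨j, hj, h6⟩ := exists_c (t := t) n z
        have h7 : c t n z < z := c_lt n (hx.trans_le hz1)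
        rw [h6] at h7 ⊢
        rcases lt_trichotomy (t j) x with h8 | h8 | h8
        · exact le_c hj h8
        · exact absurd ⟨j, hj, h8.symm⟩ hxt
        · exact absurd (hz2 j (Finset.mem_range.2 (Nat.lt_succ_of_le hj)) h8) (not_le.2 h7)
      rw [G, h3]

end Main

end Pool.Agent.R819.Stair
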