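import Mathlib

/-!
# The rings `T'(X)` and `T''(X)`

`T'(X)` is the ring of all functions `X → ℝ` which are continuous on some dense open set, `T''(X)`
the ring of all functions which are continuous on some dense cozero set.
-/

set_option autoImplicit false

open Set Topology Filter

namespace Pool.Agent.R819.TRing

variable (X : Type*) [TopologicalSpace X]

/-- the ring `T'(X)` of all functions `X → ℝ` continuous on some dense open set -/
def Tp : Subring (X → ℝ) where
  carrier := {f | ∃ U : Set X, IsOpen U ∧ Dense U ∧ ContinuousOn f U}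
  mul_mem' := by
    rintro f g ⟨U, hU, hdU, hf⟩ ⟨V, hV, hdV, hg⟩
    exact ⟨U ∩ V, hU.inter hV, hdU.inter_of_isOpen_left hdV hU,
      (hf.mono inter_subset_left).mul (hg.mono inter_subset_right)⟩
  one_mem' := ⟨univ, isOpen_univ, dense_univ, continuousOn_const⟩
  add_mem' := by
    rintro f g ⟨U, hU, hdU, hf⟩ ⟨V, hV, hdV, hg⟩
    exact ⟨U ∩ V, hU.inter hV, hdU.inter_of_isOpen_left hdV hU,
      (hf.mono inter_subset_left).add (hg.mono inter_subset_right)⟩
  zero_mem' := ⟨univ, isOpen_univ, dense_univ, continuousOn_const⟩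
  neg_mem' := by
    rintro f ⟨U, hU, hdU, hf⟩
    exact ⟨U, hU, hdU, hf.neg⟩

/-- the ring `T''(X)` of all functions `X → ℝ` continuous on some dense cozero set -/
def Tpp : Subring (X → ℝ) where
  carrier := {f | ∃ h : C(X, ℝ), Dense {x | h x ≠ 0} ∧ ContinuousOn f {x | h x ≠ 0}}
  mul_mem' := by
    rintro f g ⟨h, hd, hf⟩ ⟨k, kd, hg⟩
    have h1 : {x | (h * k) x ≠ 0} = {x | h x ≠ 0} ∩ {x | k x ≠ 0} := by
      ext x
      simp
    refine ⟨h * k, ?_, ?_⟩
    · rw [h1]
      exact hd.inter_of_isOpen_left kd (isOpen_ne_fun h.continuous continuous_const)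
    · rw [h1]
      exact (hf.mono inter_subset_left).mul (hg.mono inter_subset_right)
  one_mem' := ⟨1, by simp, continuousOn_const⟩
  add_mem' := by
    rintro f g ⟨h, hd, hf⟩ ⟨k, kd, hg⟩
    have h1 : {x | (h * k) x ≠ 0} = {x | h x ≠ 0} ∩ {x | k x ≠ 0} := by
      ext x
      simp
    refine ⟨h * k, ?_, ?_⟩
    · rw [h1]
      exact hd.inter_of_isOpen_left kd (isOpen_ne_fun h.continuous continuous_const)
    · rw [h1]
      exact (hf.mono inter_subset_left).add (hg.mono inter_subset_right)
  zero_mem' := ⟨1, by simp, continuousOn_const⟩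
  neg_mem' := by
    rintro f ⟨h, hd, hf⟩
    exact ⟨h, hd, hf.neg⟩

end Pool.Agent.R819.TRing
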